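import Pool.Agent.H448R2.GC.Defs

/-! The function `AA x = ∑_{n ≤ x} (Λ(n) - 1) / 8` and its variance. -/

open Complex MeasureTheory Filter Topology

namespace Pool.Agent.Y857.VP

/-- the coefficients `(Λ(n) - 1) / 8` for `n ≥ 1` -/
noncomputable def lm (n : ℕ) : ℝ := if n = 0 then 0 else (ArithmeticFunction.vonMangoldt n - 1) / 8

/-- the sum of `(Λ(n) - 1) / 8` over `n ≤ x` -/
noncomputable def AA (x : ℝ) : ℝ := ∑ n ∈ Finset.Icc 1 ⌊x⌋₊, lm n

/-- the variance -/
noncomputable def VG (X H : ℝ) : ℝ := (1 / X) * ∫ x in X..2 * X, (AA (x + H / 2) - AA (x - H / 2)) ^ 2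

theorem meas_AA : Measurable AA := by
  have : AA = (fun m : ℕ => ∑ n ∈ Finset.Icc 1 m, lm n) ∘ (fun x : ℝ => ⌊x⌋₊) := rfl
  rw [this]
  exact (measurable_of_countable _).comp Nat.measurable_floor

theorem AA_eq {x : ℝ} : AA x = (Chebyshev.psi x - ⌊x⌋₊) / 8 := by
  unfold AA Chebyshev.psi lm
  have h1 : ∑ n ∈ Finset.Icc 1 ⌊x⌋₊, (if n = 0 then (0 : ℝ) else (ArithmeticFunction.vonMangoldt n - 1) / 8) =
      ∑ n ∈ Finset.Icc 1 ⌊x⌋₊, (ArithmeticFunction.vonMangoldt n - 1) / 8 := by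
    apply Finset.sum_congr rfl
    intro n hn
    rw [Finset.mem_Icc] at hn
    rw [if_neg (by omega)]
  rw [h1, ← Finset.sum_div, Finset.sum_sub_distrib]
  congr 2
  simp

theorem abs_AA_le (x : ℝ) : |AA x| ≤ |x| := by
  rcases le_or_gt 0 x with hx | hx
  · rw [AA_eq, abs_of_nonneg hx]
    have h1 := Chebyshev.psi_le_const_mul_self hx
    have h2 := Chebyshev.psi_nonneg x
    have h3 : (⌊x⌋₊ : ℝ) ≤ x := Nat.floor_le hx
    have h4 : (0 : ℝ) ≤ ⌊x⌋₊ := Nat.cast_nonneg _
    have h5 : Real.log 4 ≤ 2 := by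
      have : Real.log 4 = 2 * Real.log 2 := by
        rw [show (4 : ℝ) = 2 ^ 2 by norm_num, Real.log_pow]; norm_num
      rw [this]
      have := Real.log_two_lt_d9
      linarith
    rw [abs_le]
    constructor
    · linarith
    · have : (Real.log 4 + 4) * x ≤ 6 * x := by
        apply mul_le_mul_of_nonneg_right _ hx
        linarith
      linarith
  · have : AA x = 0 := by
      unfold AA
      rw [Nat.floor_of_nonpos hx.le]
      simp
    rw [this]
    simp

end Pool.Agent.Y857.VP
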