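import Pool.Agent.Y857.VP.Fin0

/-! The window theorem for the variance of primes in short intervals. -/

set_option autoImplicit false

namespace Pool.Agent.Y857.VP

open Complex Filter Topology MeasureTheory Set
open Pool.Agent.H24R2.DZ (mT MM bb mo ph yy)

theorem nat_log_bound (θ η T L : ℝ) (hT : 0 < T) (hTθ : 1 ≤ T ^ θ) (hL : L = Real.log T)
    (hL0 : 0 < L) (hθ2 : θ ≤ η / 2) (hLη : Real.log 64 ≤ L * η) :
    Real.log (yy θ T) ≤ η * L := by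
  have hN1 : 1 ≤ yy θ T := by
    unfold Pool.Agent.H24R2.DZ.yy
    rw [Nat.one_le_ceil_iff]
    linarith
  have e1 : ((yy θ T : ℕ) : ℝ) ≤ 2 * T ^ θ := by
    have := Nat.ceil_lt_add_one (Real.rpow_nonneg hT.le θ)
    unfold Pool.Agent.H24R2.DZ.yy
    linarith
  have hN0 : (0 : ℝ) < (yy θ T : ℕ) := by exact_mod_cast hN1
  calc Real.log (yy θ T) ≤ Real.log (2 * T ^ θ) := Real.log_le_log hN0 e1
    _ = Real.log 2 + θ * L := by
        rw [Real.log_mul (by norm_num) (by positivity), Real.log_rpow hT, hL]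
    _ ≤ η * L := by
        have e2 : Real.log 2 ≤ Real.log 64 / 2 := by
          have : Real.log 64 = 6 * Real.log 2 := by
            rw [show (64 : ℝ) = 2 ^ 6 by norm_num, Real.log_pow]
            norm_num
          rw [this]
          have := Real.log_pos (by norm_num : (1 : ℝ) < 2)
          linarith
        have e3 : θ * L ≤ η / 2 * L := mul_le_mul_of_nonneg_right hθ2 hL0.le
        linarith

theorem final_contra (c₀ E L T g C1 IU IE ILB : ℝ) (hc₀ : 0 < c₀) (hE : 0 < E) (hL0 : 0 < L)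
    (hT : 0 < T) (hg0 : 0 < g) (hT1 : 1 ≤ T)
    (hLC : C1 ≤ g * L) (hLc : 80 * 16 ≤ c₀ * E * L)
    (hlow : T / 2 ≤ ILB)
    (hcmp : ILB ≤ 2 / (c₀ * E) * (IU + 1 / L * IE))
    (hU : IU ≤ c₀ / 16 * E * T)
    (hI : IE ≤ (c₀ * E / 16) * L * T + C1 / (g * L) + 5 * T) : False := by
  have hchain : T / 2 ≤ 2 / (c₀ * E) * (c₀ / 16 * E * T +
      1 / L * ((c₀ * E / 16) * L * T + C1 / (g * L) + 5 * T)) := by
    refine hlow.trans (hcmp.trans ?_)
    gcongr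
  rw [alg2 c₀ E L T g C1 hc₀ hE hL0] at hchain
  have e2 : 1 / L * (C1 / (g * L) + 5 * T) ≤ 6 * T / L := by
    have h1 : C1 / (g * L) ≤ 1 := by
      rw [div_le_one (by positivity)]
      exact hLC
    rw [one_div, inv_mul_eq_div]
    gcongr
    linarith
  have e3 : 2 / (c₀ * E) * (1 / L * (C1 / (g * L) + 5 * T)) ≤ 2 / (c₀ * E) * (6 * T / L) :=
    mul_le_mul_of_nonneg_left e2 (by positivity)
  have e4 : 2 / (c₀ * E) * (6 * T / L) < T / 4 := by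
    rw [div_mul_div_comm, div_lt_iff₀ (by positivity)]
    nlinarith
  linarith

theorem window_VG (a b : ℝ) (ha : 1 < a) (hab : a + 1 < b) :
    ∃ c T₀ : ℝ, 0 < c ∧ ∀ T : ℝ, T₀ ≤ T → ∃ X H : ℝ, T ^ a ≤ X ∧ X ≤ T ^ b ∧
      X / (32 * T) ≤ H ∧ H ≤ 2 * X / T ∧
      c * H * Real.log X ≤ (1 / X) * ∫ x in (X / 2)..X, |psi x H - H| ^ 2 := by
  -- parameters
  obtain ⟨η, hη0, hη1, hηa, hηb⟩ : ∃ η : ℝ, 0 < η ∧ η ≤ 1 ∧ 1 + 2 * η ≤ a ∧ a + 1 + 8 * η ≤ b := by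
    refine ⟨min 1 (min ((a - 1) / 2) ((b - a - 1) / 8)), ?_, min_le_left _ _, ?_, ?_⟩
    · apply lt_min one_pos (lt_min _ _) <;> linarith
    · have : min 1 (min ((a - 1) / 2) ((b - a - 1) / 8)) ≤ (a - 1) / 2 :=
        (min_le_right _ _).trans (min_le_left _ _)
      linarith
    · have : min 1 (min ((a - 1) / 2) ((b - a - 1) / 8)) ≤ (b - a - 1) / 8 :=
        (min_le_right _ _).trans (min_le_right _ _)
      linarith
  obtain ⟨c₀, hc₀, hrefl⟩ := Pool.Agent.H448R2.GC.zeta_refl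
  obtain ⟨θ, hθ0, hθ1, hθ2⟩ : ∃ θ : ℝ, 0 < θ ∧ θ ≤ 1 / 200 ∧ θ ≤ η / 2 :=
    ⟨min (1 / 200) (η / 2), lt_min (by norm_num) (by linarith), min_le_left _ _, min_le_right _ _⟩
  obtain ⟨A, TU, hA1, hU⟩ := upper_U θ hθ0 hθ1 (c₀ / 16) (by positivity)
  obtain ⟨Cm, Tm, hCm, hTm, hms⟩ := ms_left θ hθ0 hθ1
  obtain ⟨k1, hk1⟩ := l1b A (a + η) η hA1 (by linarith) hη0 hη1
  obtain ⟨k2, hk2⟩ := lb A (a + η) η (by linarith) (by linarith) hη0 hη1
  obtain ⟨k3, hk3⟩ := win (a + η) (a + η + 1 + 5 * η) η (by linarith) (by linarith) hη0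
  obtain ⟨k, hkk1, hkk2, hkk3⟩ : ∃ k : ℕ, k1 ≤ k ∧ k2 ≤ k ∧ k3 ≤ k :=
    ⟨max k1 (max k2 k3), le_max_left _ _, (le_max_left _ _).trans (le_max_right _ _),
      (le_max_right _ _).trans (le_max_right _ _)⟩
  obtain ⟨C1, T1, hC1, hL1⟩ := hk1 k hkk1
  obtain ⟨T2, hLB⟩ := hk2 k hkk2
  obtain ⟨Cw, T3, hCw, hW⟩ := hk3 k hkk3
  clear hk1 hk2 hk3
  -- constants
  obtain ⟨CA, hCA⟩ : ∃ CA : ℝ, CA = Cm * ((1 + 2 * A) ^ 20 * Real.exp (4 * A)) := ⟨_, rfl⟩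
  have hA0 : 0 < A := by linarith
  have hCA0 : 0 < CA := by rw [hCA]; positivity
  have hb0 : 0 < b := by linarith
  obtain ⟨E, hE⟩ : ∃ E : ℝ, E = Real.exp A := ⟨_, rfl⟩
  have hE0 : 0 < E := by rw [hE]; exact Real.exp_pos _
  obtain ⟨g, hg0, hgc⟩ : ∃ g : ℝ, 0 < g ∧ C1 * g * (CA + Cw * b / 8) = c₀ * E / 16 := by
    refine ⟨c₀ * E / (16 * C1 * (CA + Cw * b / 8)), by positivity, ?_⟩
    field_simp
  -- `T` large
  obtain ⟨T4, hT4⟩ := ev_log (max (max (8 * A + 8) (80 * 16 / (c₀ * E)))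
    (max (1 / (g ^ 2 * b)) (max (Real.log 64 / η) (C1 / g))))
  refine ⟨g ^ 2, max (max TU Tm) (max (max T1 T2) (max T3 (max T4 64))),
    by positivity, fun T hT => ?_⟩
  simp only [max_le_iff] at hT
  obtain ⟨⟨hTU, hTm'⟩, ⟨hTT1, hTT2⟩, hTT3, hTT4, hT64⟩ := hT
  have hLL := hT4 T hTT4
  simp only [max_le_iff] at hLL
  obtain ⟨⟨hLA, hLc⟩, hLg, hLη, hLC⟩ := hLL
  have hTpos : 0 < T := by linarith
  replace hL1 := hL1 T hTT1
  replace hLB := hLB T hTT2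
  replace hW := fun δ => hW T δ hTT3
  replace hU := hU T hTU
  replace hms := fun κ β => hms T κ β hTm'
  clear hT4
  obtain ⟨L, hL⟩ : ∃ L : ℝ, L = Real.log T := ⟨_, rfl⟩
  rw [← hL] at hLA hLc hLg hLη hLC
  have hL0 : 0 < L := by linarith
  rw [div_le_iff₀ hη0] at hLη
  rw [div_le_iff₀ hg0] at hLC
  rw [div_le_iff₀ (by positivity)] at hLc hLg
  have h64η : 64 ≤ T ^ η := by
    rw [Real.rpow_def_of_pos hTpos, ← Real.log_le_iff_le_exp (by norm_num), ← hL]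
    exact hLη
  by_contra hcon
  push Not at hcon
  have hVG := VG_step a b η g T L ha hηb hT64 hL h64η hg0 (by linarith) hcon
  -- notation
  obtain ⟨κ, hκ⟩ : ∃ κ : ℝ, κ = A / L := ⟨_, rfl⟩
  have hκ0 : 0 < κ := by rw [hκ]; positivity
  have hκ8 : κ ≤ 1 / 8 := by
    rw [hκ, div_le_iff₀ hL0]; linarith
  have hκL : κ * L = A := by rw [hκ]; field_simp
  have hbn : ∀ h, ‖bs θ T κ h‖ ≤ 1 := bs_norm θ T κ hκ0.le
  have hb1 : bs θ T κ 1 = 1 := bs_one θ T κ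
  have hTθ : 1 ≤ T ^ θ := Real.one_le_rpow (by linarith) hθ0.le
  have hN1 : 1 ≤ yy θ T := by
    unfold Pool.Agent.H24R2.DZ.yy
    rw [Nat.one_le_ceil_iff]
    linarith
  have hNlog : Real.log (yy θ T) ≤ η * L := nat_log_bound θ η T L hTpos hTθ hL hL0 hθ2 hLη
  -- mean squares
  have hZ2 := Z2_bound θ T A L κ Cm hθ0 hθ1 hCm hms hL hA0 hTpos hκ0.le hκ8 hκL
  rw [← hCA] at hZ2
  have hδ0 : 0 ≤ g ^ 2 * b * L / 8 := by positivity
  have hB2 : ∫ t in (T / 4)..(4 * T), Bf T (a + η) (a + η + 1 + 5 * η) η k t ^ 2 ≤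
      Cw * (g ^ 2 * b * L / 8) * T * L + 1 := by
    have h1 := hW (g ^ 2 * b * L / 8) hδ0 hVG
    rw [← hL] at h1
    refine le_trans ?_ h1
    have h2 : ∫ t in (T / 4)..(4 * T), Bf T (a + η) (a + η + 1 + 5 * η) η k t ^ 2 ≤
        ∫ t in (T / 8)..(5 * T), Bf T (a + η) (a + η + 1 + 5 * η) η k t ^ 2 := by
      apply intervalIntegral.integral_mono_interval (by linarith) (by linarith) (by linarith)
      · exact Eventually.of_forall fun u => sq_nonneg _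
      · exact ((Bf_cont T (a + η) _ η k).pow 2).intervalIntegrable _ _
    refine h2.trans (le_of_eq ?_)
    rw [hL]
    rfl
  -- the `L^1` bound
  have hl1 := hL1 (yy θ T) (bs θ T κ) hbn (by rw [← hL]; exact hNlog) (g * L) (by positivity)
  rw [← hL, ← hκ] at hl1
  have hl1' : ∫ t in (T / 2)..(3 * T), Ef T (a + η) η k (yy θ T) (bs θ T κ) (1 / 2 - κ) t ≤
      (c₀ * E / 16) * L * T + C1 / (g * L) + 5 * T := by
    refine hl1.trans ?_
    have e1 : C1 * (g * L * (∫ t in (T / 4)..(4 * T), Zf (yy θ T) (bs θ T κ) t ^ 2) +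
        1 / (g * L) * ∫ t in (T / 4)..(4 * T), Bf T (a + η) (a + η + 1 + 5 * η) η k t ^ 2) ≤
        C1 * (g * L * (CA * T) + 1 / (g * L) * (Cw * (g ^ 2 * b * L / 8) * T * L + 1)) := by
      apply mul_le_mul_of_nonneg_left _ hC1.le
      apply add_le_add
      · exact mul_le_mul_of_nonneg_left hZ2 (by positivity)
      · exact mul_le_mul_of_nonneg_left hB2 (by positivity)
    rw [alg1 C1 g L CA Cw b T hg0 hL0, hgc] at e1
    linarith
  -- the lower bound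
  have hlow := hLB (yy θ T) (bs θ T κ) hbn hb1 hN1 (by rw [← hL]; exact hNlog)
  rw [← hL, ← hκ] at hlow
  have hcmpI := cmp_int c₀ θ T κ (a + η) η E L k hc₀ hE0 hL hL0 hrefl hT64 hκ0.le hκ8
    (by rw [hκL, hE])
  rw [← hL, ← hκ] at hU
  have hUb' : ∫ t in (T / 2)..(3 * T), Uf θ T κ L t ≤ c₀ / 16 * E * T := by
    rw [hE]
    exact hU
  exact final_contra c₀ E L T g C1 _ _ _ hc₀ hE0 hL0 hTpos hg0 (by linarith)
    (by linarith) (by linarith) hlow hcmpI hUb' hl1'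

end Pool.Agent.Y857.VP
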