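import Pool.Agent.Y857.VP.P1

/-! The `L^1` bound of the error term. -/

open Complex MeasureTheory Filter Topology
open Pool.Agent.H448R2.GC (cu cs ker sm)

namespace Pool.Agent.Y857.VP

theorem Zf_cont (N : ℕ) (b : ℕ → ℂ) : Continuous (Zf N b) := by
  unfold Zf
  apply Continuous.norm
  refine Continuous.mul ?_ ?_
  · exact Pool.Agent.H448R2.GC.F0.zeta_cont (1 / 2) (by norm_num)
  · exact (DP_contC N b).comp (by fun_prop)

theorem Bf_cont (T a b η : ℝ) (k : ℕ) : Continuous (Bf T a b η k) := by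
  unfold Bf
  exact ((PP_cont k _ _ (1 / 2)).sub (PP_cont k _ _ (1 / 2))).norm

theorem Wf_cont (T D η x : ℝ) (k : ℕ) (hx : x ≠ 0) : Continuous (Wf T D η x k) := by
  unfold Wf
  exact (Pool.Agent.H448R2.GC.ker_cont k _ _ x hx).norm

theorem line_deriv_zeta_cont (σ : ℝ) (hσ : σ ≠ 1) :
    Continuous (fun t : ℝ => deriv riemannZeta ((σ : ℂ) + (t : ℂ) * I)) := by
  rw [continuous_iff_continuousAt]
  intro t
  have h1 : (σ : ℂ) + (t : ℂ) * I ≠ 1 := by
    intro h
    apply hσ
    have := congrArg Complex.re h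
    simpa using this
  have hd : DifferentiableOn ℂ riemannZeta {1}ᶜ := fun z hz =>
    (differentiableAt_riemannZeta hz).differentiableWithinAt
  have ho : IsOpen ({1}ᶜ : Set ℂ) := isOpen_compl_singleton
  have h2 : ContinuousAt (deriv riemannZeta) ((σ : ℂ) + (t : ℂ) * I) :=
    ((hd.deriv ho).differentiableAt (ho.mem_nhds h1)).continuousAt
  exact ContinuousAt.comp (f := fun t : ℝ => (σ : ℂ) + (t : ℂ) * I) h2 (by fun_prop)

theorem DP_line_cont (N : ℕ) (b : ℕ → ℂ) (σ : ℝ) :
    Continuous (fun t : ℝ => DP N b ((σ : ℂ) + (t : ℂ) * I)) :=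
  (DP_contC N b).comp (by fun_prop)

theorem Ef_cont (T a η : ℝ) (k N : ℕ) (b : ℕ → ℂ) (σ : ℝ) (hσ : σ ≠ 1) :
    Continuous (Ef T a η k N b σ) := by
  unfold Ef
  apply Continuous.norm
  refine (DP_line_cont N b σ).mul ((line_deriv_zeta_cont σ hσ).add ?_)
  exact (Pool.Agent.H448R2.GC.F0.zeta_cont σ hσ).mul (PP_cont k _ _ σ)

theorem l1b (A a η : ℝ) (hA : 1 ≤ A) (ha : 1 < a) (hη : 0 < η) (hη1 : η ≤ 1) :
    ∃ k₀ : ℕ, ∀ k : ℕ, k₀ ≤ k →
    ∃ C T₀ : ℝ, 0 < C ∧ ∀ T : ℝ, T₀ ≤ T → ∀ (N : ℕ) (b : ℕ → ℂ), (∀ h, ‖b h‖ ≤ 1) →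
      Real.log N ≤ η * Real.log T → ∀ r : ℝ, 0 < r →
    ∫ t in (T / 2)..(3 * T), Ef T a η k N b (1 / 2 - A / Real.log T) t ≤
      C * (r * (∫ t in (T / 4)..(4 * T), Zf N b t ^ 2) +
        1 / r * ∫ t in (T / 4)..(4 * T), Bf T a (a + 1 + 5 * η) η k t ^ 2) + 5 * T := by
  obtain ⟨k₀, hk0⟩ := pw A a η hA ha hη hη1
  refine ⟨max k₀ 1, fun k hk => ?_⟩
  have hk1 : k₀ ≤ k := (le_max_left _ _).trans hk
  have hk2 : 1 ≤ k := (le_max_right _ _).trans hk
  obtain ⟨T₁, hpw⟩ := hk0 k hk1
  obtain ⟨Ck, hCk, hker⟩ := ker_bd A (a + 1 + 4 * η) η k hA (by linarith) hη hk2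
  obtain ⟨T₂, hlog⟩ := ev_log (8 * A + 8)
  refine ⟨2 * Ck, max T₁ (max T₂ 16), by positivity, fun T hT N b hb hN r hr => ?_⟩
  simp only [max_le_iff] at hT
  obtain ⟨hT1, hT2, hT3⟩ := hT
  have hL := hlog T hT2
  have hL1 : 1 ≤ Real.log T := by linarith
  have hL0 : 0 < Real.log T := by linarith
  have hT0 : 0 < T := by linarith
  have hA0 : 0 < A := by linarith
  set κ : ℝ := A / Real.log T with hκ
  have hκ0 : 0 < κ := by positivity
  have hκ8 : κ ≤ 1 / 8 := by
    rw [hκ, div_le_iff₀ hL0]; linarith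
  set σ : ℝ := 1 / 2 - κ with hσ
  have hσ1 : σ ≠ 1 := by
    rw [hσ]; intro h; linarith
  set Z := Zf N b with hZ
  set B := Bf T a (a + 1 + 5 * η) η k with hB
  set W := Wf T (a + 1 + 4 * η) η κ k with hW
  set E := Ef T a η k N b σ with hE
  have cZ : Continuous Z := Zf_cont N b
  have cB : Continuous B := Bf_cont T a _ η k
  have cW : Continuous W := Wf_cont T _ η κ k hκ0.ne'
  have cE : Continuous E := Ef_cont T a η k N b σ hσ1
  have W0 : ∀ y, 0 ≤ W y := fun y => norm_nonneg _
  have E0 : ∀ y, 0 ≤ E y := fun y => norm_nonneg _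
  set G : ℝ → ℝ := fun u => r * Z u ^ 2 + 1 / r * B u ^ 2 with hG
  have cG : Continuous G := by fun_prop
  have G0 : ∀ u, 0 ≤ G u := fun u => by positivity
  set Y : Set ℝ := Set.Icc (-Real.sqrt T) (Real.sqrt T) with hY
  have hsq : Real.sqrt T ≤ T / 4 := by
    rw [Real.sqrt_le_left (by positivity)]
    nlinarith
  -- total mass of W
  have hWt : ∫⁻ y in Y, ENNReal.ofReal (W y) ≤ ENNReal.ofReal (2 * Ck) := by
    calc ∫⁻ y in Y, ENNReal.ofReal (W y) ≤ ∫⁻ y, ENNReal.ofReal (W y) :=
          setLIntegral_le_lintegral _ _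
      _ ≤ ∫⁻ y, ENNReal.ofReal (Ck * (Real.log T / (1 + Real.log T * |y|) ^ (k + 1))) := by
          refine lintegral_mono fun y => ?_
          exact ENNReal.ofReal_le_ofReal (hker T hL1 y)
      _ = ENNReal.ofReal (∫ y, Ck * (Real.log T / (1 + Real.log T * |y|) ^ (k + 1))) := by
          rw [ofReal_integral_eq_lintegral_ofReal]
          · exact (Pool.Agent.H448R2.GC.scale_integrable _ (k + 1) hL1 (by omega)).const_mul _
          · exact Eventually.of_forall fun y => by positivity
      _ ≤ ENNReal.ofReal (2 * Ck) := by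
          apply ENNReal.ofReal_le_ofReal
          rw [integral_const_mul]
          have h1 := Pool.Agent.H448R2.GC.scale_integral (Real.log T) (k + 1) hL1 (by omega)
          calc _ ≤ Ck * 2 := mul_le_mul_of_nonneg_left h1 hCk.le
            _ = 2 * Ck := by ring
  have hGi : ∫⁻ u in Set.Icc (T / 4) (4 * T), ENNReal.ofReal (G u) =
      ENNReal.ofReal (∫ u in (T / 4)..(4 * T), G u) := by
    rw [intervalIntegral.integral_of_le (by linarith), ← integral_Icc_eq_integral_Ioc,
      ofReal_integral_eq_lintegral_ofReal (cG.integrableOn_Icc) (Eventually.of_forall G0)]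
  have hinner : ∀ y ∈ Y, ∫⁻ t in Set.Icc (T / 2) (3 * T), ENNReal.ofReal (G (t + y)) ≤
      ENNReal.ofReal (∫ u in (T / 4)..(4 * T), G u) := by
    intro y hy
    rw [← hGi, ← lintegral_indicator measurableSet_Icc, ← lintegral_indicator measurableSet_Icc,
      ← lintegral_add_right_eq_self
        ((Set.Icc (T / 4) (4 * T)).indicator fun u => ENNReal.ofReal (G u)) y]
    refine lintegral_mono fun t => ?_
    by_cases ht : t ∈ Set.Icc (T / 2) (3 * T)
    · have ht' : t + y ∈ Set.Icc (T / 4) (4 * T) := by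
        rw [hY, Set.mem_Icc] at hy
        rw [Set.mem_Icc] at ht ⊢
        constructor <;> linarith [ht.1, ht.2, hy.1, hy.2]
      rw [Set.indicator_of_mem ht, Set.indicator_of_mem ht']
    · rw [Set.indicator_of_notMem ht]
      exact zero_le
  have hbig : ∫⁻ t in Set.Icc (T / 2) (3 * T), ENNReal.ofReal (E t) ≤
      ENNReal.ofReal (2 * Ck * ∫ u in (T / 4)..(4 * T), G u) + ENNReal.ofReal (5 * T) := by
    have m1 : Measurable (fun p : ℝ × ℝ => ENNReal.ofReal (W p.2) *
        ENNReal.ofReal (G (p.1 + p.2))) := by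
      refine Measurable.fun_mul ?_ ?_
      · exact (cW.comp continuous_snd).measurable.ennreal_ofReal
      · exact (cG.comp (continuous_fst.add continuous_snd)).measurable.ennreal_ofReal
    calc ∫⁻ t in Set.Icc (T / 2) (3 * T), ENNReal.ofReal (E t)
        ≤ ∫⁻ t in Set.Icc (T / 2) (3 * T), ((∫⁻ y in Y,
          ENNReal.ofReal (W y) * ENNReal.ofReal (G (t + y))) + ENNReal.ofReal 2) := by
          refine setLIntegral_mono' measurableSet_Icc fun t ht => ?_
          rw [Set.mem_Icc] at ht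
          refine (hpw T hT1 N b hb hN t (by linarith [ht.1]) (by linarith [ht.2])).trans ?_
          gcongr with y
          rw [← ENNReal.ofReal_mul (W0 y)]
          apply ENNReal.ofReal_le_ofReal
          have h4 : Z (t + y) * B (t + y) ≤ G (t + y) := by
            rw [hG]
            simp only
            have h5 : 0 ≤ (r * Z (t + y) - B (t + y)) ^ 2 / (2 * r) := by positivity
            have h6 : (r * Z (t + y) - B (t + y)) ^ 2 / (2 * r) =
                r / 2 * Z (t + y) ^ 2 + 1 / (2 * r) * B (t + y) ^ 2 - Z (t + y) * B (t + y) := by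
              field_simp
              ring
            have h7 : 0 ≤ r / 2 * Z (t + y) ^ 2 := by positivity
            have h8 : 0 ≤ 1 / (2 * r) * B (t + y) ^ 2 := by positivity
            have h9 : 1 / r * B (t + y) ^ 2 = 2 * (1 / (2 * r) * B (t + y) ^ 2) := by
              field_simp
            have h10 : r * Z (t + y) ^ 2 = 2 * (r / 2 * Z (t + y) ^ 2) := by ring
            rw [h9, h10]
            linarith
          calc Z (t + y) * B (t + y) * W y ≤ G (t + y) * W y :=
                mul_le_mul_of_nonneg_right h4 (W0 y)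
            _ = W y * G (t + y) := mul_comm _ _
      _ = (∫⁻ t in Set.Icc (T / 2) (3 * T), ∫⁻ y in Y,
          ENNReal.ofReal (W y) * ENNReal.ofReal (G (t + y))) +
          ∫⁻ _ in Set.Icc (T / 2) (3 * T), ENNReal.ofReal 2 := by
          rw [lintegral_add_right _ measurable_const]
      _ = (∫⁻ y in Y, ∫⁻ t in Set.Icc (T / 2) (3 * T),
          ENNReal.ofReal (W y) * ENNReal.ofReal (G (t + y))) +
          ∫⁻ _ in Set.Icc (T / 2) (3 * T), ENNReal.ofReal 2 := by
          rw [lintegral_lintegral_swap m1.aemeasurable]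
      _ = (∫⁻ y in Y, ENNReal.ofReal (W y) * ∫⁻ t in Set.Icc (T / 2) (3 * T),
          ENNReal.ofReal (G (t + y))) +
          ∫⁻ _ in Set.Icc (T / 2) (3 * T), ENNReal.ofReal 2 := by
          congr 1
          refine lintegral_congr fun y => ?_
          rw [lintegral_const_mul]
          exact (cG.comp (continuous_id.add continuous_const)).measurable.ennreal_ofReal
      _ ≤ (∫⁻ y in Y, ENNReal.ofReal (W y) * ENNReal.ofReal (∫ u in (T / 4)..(4 * T), G u)) +
          ENNReal.ofReal (5 * T) := by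
          gcongr ?_ + ?_
          · refine setLIntegral_mono' measurableSet_Icc fun y hy => ?_
            gcongr
            exact hinner y hy
          · rw [setLIntegral_const, Real.volume_Icc, ← ENNReal.ofReal_mul (by norm_num)]
            apply ENNReal.ofReal_le_ofReal
            linarith
      _ = (∫⁻ y in Y, ENNReal.ofReal (W y)) * ENNReal.ofReal (∫ u in (T / 4)..(4 * T), G u) +
          ENNReal.ofReal (5 * T) := by
          rw [lintegral_mul_const _ cW.measurable.ennreal_ofReal]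
      _ ≤ ENNReal.ofReal (2 * Ck) * ENNReal.ofReal (∫ u in (T / 4)..(4 * T), G u) +
          ENNReal.ofReal (5 * T) := by gcongr
      _ = _ := by rw [← ENNReal.ofReal_mul (by positivity)]
  have hEint : ENNReal.ofReal (∫ t in (T / 2)..(3 * T), E t) =
      ∫⁻ t in Set.Icc (T / 2) (3 * T), ENNReal.ofReal (E t) := by
    rw [intervalIntegral.integral_of_le (by linarith), ← integral_Icc_eq_integral_Ioc,
      ofReal_integral_eq_lintegral_ofReal (cE.integrableOn_Icc) (Eventually.of_forall E0)]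
  have hGpos : 0 ≤ ∫ u in (T / 4)..(4 * T), G u :=
    intervalIntegral.integral_nonneg (by linarith) fun u _ => G0 u
  have hfin : ∫ t in (T / 2)..(3 * T), E t ≤
      2 * Ck * (∫ u in (T / 4)..(4 * T), G u) + 5 * T := by
    have := hEint.le.trans hbig
    rw [← ENNReal.ofReal_add (by positivity) (by positivity),
      ENNReal.ofReal_le_ofReal_iff (by positivity)] at this
    exact this
  have hGe : ∫ u in (T / 4)..(4 * T), G u = r * (∫ t in (T / 4)..(4 * T), Z t ^ 2) +
        1 / r * ∫ t in (T / 4)..(4 * T), B t ^ 2 := by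
    rw [hG, intervalIntegral.integral_add, intervalIntegral.integral_const_mul,
      intervalIntegral.integral_const_mul]
    · exact ((cZ.pow 2).const_mul _).intervalIntegrable _ _
    · exact ((cB.pow 2).const_mul _).intervalIntegrable _ _
  rw [hGe] at hfin
  exact hfin

end Pool.Agent.Y857.VP
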