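import Pool.Agent.Y857.VP.G0
import Pool.Agent.Y857.VP.P2
import Pool.Agent.H448R2.GC.S2

/-! The lower bound: mean of `ζ N (1 - P / L)`. -/

open Complex MeasureTheory Filter Topology
open Pool.Agent.H448R2.GC (cu cs ker sm)

namespace Pool.Agent.Y857.VP

theorem cs_norm_le (k : ℕ) (c D : ℝ) (hc : 0 < c) (s : ℂ) (hs : 0 ≤ s.re) :
    ‖cs k c D s‖ ≤ Real.exp (D + k * c) := by
  unfold cs
  refine (norm_sum_le _ _).trans ?_
  have h1 : ∀ n ∈ Finset.Icc 1 ⌊Real.exp (D + k * c)⌋₊, ‖(cu k c (Real.log n - D) : ℂ) *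
      (n : ℂ) ^ (-s)‖ ≤ 1 := by
    intro n hn
    rw [Finset.mem_Icc] at hn
    rw [norm_mul]
    have e2 := norm_ncpow_le n hn.1 s hs
    have e3 : ‖(cu k c (Real.log n - D) : ℂ)‖ ≤ 1 := by
      rw [Complex.norm_real, Real.norm_eq_abs, abs_of_nonneg (Pool.Agent.H448R2.GC.cu_nonneg k c _ hc)]
      exact Pool.Agent.H448R2.GC.cu_le_one k c _ hc
    exact mul_le_one₀ e3 (norm_nonneg _) e2
  refine (Finset.sum_le_sum h1).trans ?_
  rw [Finset.sum_const, Nat.card_Icc, nsmul_eq_mul, Nat.add_sub_cancel, mul_one]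
  exact Nat.floor_le (Real.exp_pos _).le

theorem ncpow_line (n : ℕ) (hn : 1 ≤ n) (σ t : ℝ) :
    (n : ℂ) ^ (-((σ : ℂ) + (t : ℂ) * I)) =
      (((n : ℝ) ^ (-σ) : ℝ) : ℂ) * cexp (I * ((-Real.log n : ℝ) : ℂ) * (t : ℂ)) := by
  have hn0 : (n : ℂ) ≠ 0 := by exact_mod_cast (by omega : n ≠ 0)
  have hnr : (0 : ℝ) < n := by exact_mod_cast hn
  rw [neg_add, Complex.cpow_add _ _ hn0]
  congr 1
  · rw [Complex.ofReal_cpow hnr.le]
    push_cast
    rfl
  · rw [Complex.cpow_def_of_ne_zero hn0, ← Complex.natCast_log]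
    congr 1
    push_cast
    ring

/-- polynomial version -/
theorem lb_poly (k : ℕ) (c D D₁ L : ℝ) (hc : 0 < c) (hD : 0 ≤ D) (hD1 : 0 ≤ D₁) (hL : 1 ≤ L)
    (N : ℕ) (b : ℕ → ℂ) (hb : ∀ h, ‖b h‖ ≤ 1) (hb1 : b 1 = 1) (hN : 1 ≤ N) (σ σ' : ℝ) (hσ : 0 ≤ σ)
    (hσ' : 0 ≤ σ') (T : ℝ) (hT : 1 ≤ T)
    (hMT : (Real.exp (D + k * c) * N * (2 * Real.exp (2 * (D₁ + k * c)))) *
      (Real.exp (-(T / 10)) + Real.sqrt 2 * Real.exp (-(T / 10))) ≤ 1 / 4) :
    3 / 4 * T ≤ ∫ t in (T / 2)..(3 * T), ‖cs k c D ((σ' : ℂ) + (t : ℂ) * I) *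
      DP N b ((σ : ℂ) + (t : ℂ) * I) * (1 - PP k c D₁ ((σ : ℂ) + (t : ℂ) * I) / L)‖ := by
  have hL0 : 0 < L := by linarith
  have hkc : 0 ≤ (k : ℝ) * c := by positivity
  set F1 := Finset.Icc 1 ⌊Real.exp (D + k * c)⌋₊ with hF1
  set F2 := Finset.Icc 1 N with hF2
  set F3 := Finset.Icc 1 ⌊Real.exp (D₁ + k * c)⌋₊ with hF3
  set u : ℕ → ℂ := fun m => (cu k c (Real.log m - D) : ℂ) * (((m : ℝ) ^ (-σ') : ℝ) : ℂ) with hu
  set v : ℕ → ℂ := fun h => b h * (((h : ℝ) ^ (-σ) : ℝ) : ℂ) with hv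
  set w : ℕ → ℂ := fun n => (if n = 1 then 1 else 0) -
    ((ArithmeticFunction.vonMangoldt n : ℝ) : ℂ) * (cu k c (Real.log n - D₁) : ℂ) *
      (((n : ℝ) ^ (-σ) : ℝ) : ℂ) / L with hw
  have hone1 : (1 : ℕ) ∈ F1 := by
    rw [hF1, Finset.mem_Icc]
    refine ⟨le_rfl, ?_⟩
    rw [Nat.le_floor_iff (Real.exp_pos _).le, Nat.cast_one, Real.one_le_exp_iff]
    linarith
  have hone2 : (1 : ℕ) ∈ F2 := by
    rw [hF2, Finset.mem_Icc]
    exact ⟨le_rfl, hN⟩
  have hone3 : (1 : ℕ) ∈ F3 := by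
    rw [hF3, Finset.mem_Icc]
    refine ⟨le_rfl, ?_⟩
    rw [Nat.le_floor_iff (Real.exp_pos _).le, Nat.cast_one, Real.one_le_exp_iff]
    linarith
  have hu1 : u 1 = 1 := by
    rw [hu]
    simp only [Nat.cast_one, Real.log_one, zero_sub, Real.one_rpow, Complex.ofReal_one, mul_one]
    rw [Pool.Agent.H448R2.GC.cu_one k c _ hc (by linarith)]
    simp
  have hv1 : v 1 = 1 := by
    rw [hv]
    simp [hb1]
  have hw1 : w 1 = 1 := by
    rw [hw]
    simp [ArithmeticFunction.vonMangoldt_apply_one]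
  have hrp : ∀ (n : ℕ) (σ : ℝ), 1 ≤ n → 0 ≤ σ → ‖(((n : ℝ) ^ (-σ) : ℝ) : ℂ)‖ ≤ 1 := by
    intro n σ hn hσ
    rw [Complex.norm_real, Real.norm_of_nonneg (Real.rpow_nonneg (Nat.cast_nonneg _) _)]
    apply Real.rpow_le_one_of_one_le_of_nonpos
    · exact_mod_cast hn
    · linarith
  have hcu : ∀ r : ℝ, ‖(cu k c r : ℂ)‖ ≤ 1 := by
    intro r
    rw [Complex.norm_real, Real.norm_eq_abs, abs_of_nonneg (Pool.Agent.H448R2.GC.cu_nonneg k c _ hc)]
    exact Pool.Agent.H448R2.GC.cu_le_one k c _ hc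
  have hun : ∀ m ∈ F1, ‖u m‖ ≤ 1 := by
    intro m hm
    rw [hF1, Finset.mem_Icc] at hm
    rw [hu]
    simp only [norm_mul]
    exact mul_le_one₀ (hcu _) (norm_nonneg _) (hrp m σ' hm.1 hσ')
  have hvn : ∀ h ∈ F2, ‖v h‖ ≤ 1 := by
    intro h hh
    rw [hF2, Finset.mem_Icc] at hh
    rw [hv]
    simp only [norm_mul]
    exact mul_le_one₀ (hb h) (norm_nonneg _) (hrp h σ hh.1 hσ)
  have hE1 : 1 ≤ Real.exp (D₁ + k * c) := by
    rw [Real.one_le_exp_iff]
    linarith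
  have hwn : ∀ n ∈ F3, ‖w n‖ ≤ 2 * Real.exp (D₁ + k * c) := by
    intro n hn
    rw [hF3, Finset.mem_Icc] at hn
    have hnle : (n : ℝ) ≤ Real.exp (D₁ + k * c) := (Nat.le_floor_iff (Real.exp_pos _).le).mp hn.2
    rw [hw]
    simp only
    refine (norm_sub_le _ _).trans ?_
    have e1 : ‖(if n = 1 then (1 : ℂ) else 0)‖ ≤ 1 := by
      split_ifs <;> simp
    have e2 : ‖((ArithmeticFunction.vonMangoldt n : ℝ) : ℂ) * (cu k c (Real.log n - D₁) : ℂ) *
      (((n : ℝ) ^ (-σ) : ℝ) : ℂ) / L‖ ≤ Real.exp (D₁ + k * c) := by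
      rw [norm_div, norm_mul, norm_mul, Complex.norm_real L, Real.norm_of_nonneg hL0.le]
      have e3 : ‖((ArithmeticFunction.vonMangoldt n : ℝ) : ℂ)‖ ≤ n := by
        rw [Complex.norm_real, Real.norm_eq_abs, abs_of_nonneg ArithmeticFunction.vonMangoldt_nonneg]
        exact vM_le n hn.1
      have e4 : ‖((ArithmeticFunction.vonMangoldt n : ℝ) : ℂ)‖ * ‖(cu k c (Real.log n - D₁) : ℂ)‖ *
          ‖(((n : ℝ) ^ (-σ) : ℝ) : ℂ)‖ ≤ n * 1 * 1 :=
        mul_le_mul (mul_le_mul e3 (hcu _) (norm_nonneg _) (Nat.cast_nonneg _)) (hrp n σ hn.1 hσ)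
          (norm_nonneg _) (by positivity)
      rw [div_le_iff₀ hL0]
      have e5 : Real.exp (D₁ + k * c) ≤ Real.exp (D₁ + k * c) * L :=
        le_mul_of_one_le_right (Real.exp_pos _).le hL
      linarith
    linarith
  -- the triple sum
  set S := F1 ×ˢ F2 ×ˢ F3 with hS
  set a : ℕ × ℕ × ℕ → ℂ := fun x => u x.1 * v x.2.1 * w x.2.2 with ha
  set ω : ℕ × ℕ × ℕ → ℝ := fun x => -(Real.log x.1 + Real.log x.2.1 + Real.log x.2.2) with hω
  have hM : ∑ i ∈ S, ‖a i‖ ≤ Real.exp (D + k * c) * N * (2 * Real.exp (2 * (D₁ + k * c))) := by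
    have e1 : ∀ x ∈ S, ‖a x‖ ≤ 2 * Real.exp (D₁ + k * c) := by
      intro x hx
      rw [hS, Finset.mem_product, Finset.mem_product] at hx
      rw [ha]
      simp only [norm_mul]
      have h1 := hun _ hx.1
      have h2 := hvn _ hx.2.1
      have h3 := hwn _ hx.2.2
      calc ‖u x.1‖ * ‖v x.2.1‖ * ‖w x.2.2‖ ≤ 1 * 1 * (2 * Real.exp (D₁ + k * c)) := by gcongr
        _ = _ := by ring
    refine (Finset.sum_le_sum e1).trans ?_
    rw [Finset.sum_const, nsmul_eq_mul, hS, Finset.card_product, Finset.card_product, hF1, hF2, hF3,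
      Nat.card_Icc, Nat.card_Icc, Nat.card_Icc, Nat.add_sub_cancel, Nat.add_sub_cancel,
      Nat.add_sub_cancel]
    push_cast
    have f1 : (⌊Real.exp (D + k * c)⌋₊ : ℝ) ≤ Real.exp (D + k * c) := Nat.floor_le (Real.exp_pos _).le
    have f3 : (⌊Real.exp (D₁ + k * c)⌋₊ : ℝ) ≤ Real.exp (D₁ + k * c) :=
      Nat.floor_le (Real.exp_pos _).le
    calc (⌊Real.exp (D + k * c)⌋₊ : ℝ) * (N * ⌊Real.exp (D₁ + k * c)⌋₊) *
          (2 * Real.exp (D₁ + k * c)) ≤
        Real.exp (D + k * c) * (N * Real.exp (D₁ + k * c)) * (2 * Real.exp (D₁ + k * c)) := by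
          gcongr
      _ = Real.exp (D + k * c) * N * (2 * (Real.exp (D₁ + k * c) * Real.exp (D₁ + k * c))) := by ring
      _ = _ := by
          rw [← Real.exp_add]
          congr 4
          ring
  have hml := mean_lower S a ω (1, 1, 1)
    (by rw [hS, Finset.mem_product, Finset.mem_product]; exact ⟨hone1, hone2, hone3⟩)
    (by rw [ha]; simp [hu1, hv1, hw1]) (by rw [hω]; simp) (by
      intro x hx hne
      rw [hS, Finset.mem_product, Finset.mem_product, hF1, hF2, hF3, Finset.mem_Icc,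
        Finset.mem_Icc, Finset.mem_Icc] at hx
      obtain ⟨⟨h1, -⟩, ⟨h2, -⟩, ⟨h3, -⟩⟩ := hx
      rw [hω]
      simp only [abs_neg]
      have g1 : 0 ≤ Real.log x.1 := Real.log_natCast_nonneg _
      have g2 : 0 ≤ Real.log x.2.1 := Real.log_natCast_nonneg _
      have g3 : 0 ≤ Real.log x.2.2 := Real.log_natCast_nonneg _
      rw [abs_of_nonneg (by positivity)]
      have hex : 2 ≤ x.1 ∨ 2 ≤ x.2.1 ∨ 2 ≤ x.2.2 := by
        by_contra hcon
        push Not at hcon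
        apply hne
        have e1 : x.1 = 1 := by omega
        have e2 : x.2.1 = 1 := by omega
        have e3 : x.2.2 = 1 := by omega
        exact Prod.ext e1 (Prod.ext e2 e3)
      have hl : ∀ n : ℕ, 2 ≤ n → Real.log 2 ≤ Real.log n := by
        intro n hn
        apply Real.log_le_log (by norm_num)
        exact_mod_cast hn
      rcases hex with h | h | h
      · linarith [hl _ h]
      · linarith [hl _ h]
      · linarith [hl _ h]) _ T hM hT hMT
  refine hml.trans (le_of_eq ?_)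
  apply intervalIntegral.integral_congr
  intro t _
  simp only
  congr 1
  -- expand
  have e1 : cs k c D ((σ' : ℂ) + (t : ℂ) * I) =
      ∑ m ∈ F1, u m * cexp (I * ((-Real.log m : ℝ) : ℂ) * (t : ℂ)) := by
    unfold cs
    refine Finset.sum_congr rfl fun m hm => ?_
    rw [Finset.mem_Icc] at hm
    rw [ncpow_line m hm.1 σ' t, hu]
    ring
  have e2 : DP N b ((σ : ℂ) + (t : ℂ) * I) =
      ∑ h ∈ F2, v h * cexp (I * ((-Real.log h : ℝ) : ℂ) * (t : ℂ)) := by
    unfold DP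
    refine Finset.sum_congr rfl fun h hh => ?_
    rw [Finset.mem_Icc] at hh
    rw [ncpow_line h hh.1 σ t, hv]
    ring
  have e3 : 1 - PP k c D₁ ((σ : ℂ) + (t : ℂ) * I) / L =
      ∑ n ∈ F3, w n * cexp (I * ((-Real.log n : ℝ) : ℂ) * (t : ℂ)) := by
    have h1 : (1 : ℂ) = ∑ n ∈ F3, (if n = 1 then (1 : ℂ) else 0) *
        cexp (I * ((-Real.log n : ℝ) : ℂ) * (t : ℂ)) := by
      rw [Finset.sum_eq_single_of_mem 1 hone3]
      · simp
      · intro n _ hn
        rw [if_neg hn, zero_mul]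
    have h2 : PP k c D₁ ((σ : ℂ) + (t : ℂ) * I) / L = ∑ n ∈ F3,
        (((ArithmeticFunction.vonMangoldt n : ℝ) : ℂ) * (cu k c (Real.log n - D₁) : ℂ) *
      (((n : ℝ) ^ (-σ) : ℝ) : ℂ) / L) * cexp (I * ((-Real.log n : ℝ) : ℂ) * (t : ℂ)) := by
      unfold PP
      rw [Finset.sum_div]
      refine Finset.sum_congr rfl fun n hn => ?_
      rw [Finset.mem_Icc] at hn
      rw [ncpow_line n hn.1 σ t]
      ring
    rw [h2]
    conv_lhs => rw [h1]
    rw [← Finset.sum_sub_distrib]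
    refine Finset.sum_congr rfl fun n _ => ?_
    rw [hw]
    ring
  rw [e1, e2, e3, Finset.sum_mul_sum, hS, Finset.sum_product]
  rw [Finset.sum_mul]
  refine Finset.sum_congr rfl fun m _ => ?_
  rw [Finset.sum_mul, Finset.sum_product]
  refine Finset.sum_congr rfl fun h _ => ?_
  rw [Finset.mul_sum]
  refine Finset.sum_congr rfl fun n _ => ?_
  rw [ha, hω]
  simp only
  have : cexp (I * ((-(Real.log m + Real.log h + Real.log n) : ℝ) : ℂ) * (t : ℂ)) =
      cexp (I * ((-Real.log m : ℝ) : ℂ) * (t : ℂ)) * cexp (I * ((-Real.log h : ℝ) : ℂ) * (t : ℂ)) *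
        cexp (I * ((-Real.log n : ℝ) : ℂ) * (t : ℂ)) := by
    rw [← Complex.exp_add, ← Complex.exp_add]
    congr 1
    push_cast
    ring
  rw [this]
  ring

theorem lb (A a η : ℝ) (hA : 0 ≤ A) (ha : 0 ≤ a) (hη : 0 < η) (hη1 : η ≤ 1) :
    ∃ k₀ : ℕ, ∀ k : ℕ, k₀ ≤ k →
    ∃ T₀ : ℝ, ∀ T : ℝ, T₀ ≤ T → ∀ (N : ℕ) (b : ℕ → ℂ), (∀ h, ‖b h‖ ≤ 1) → b 1 = 1 → 1 ≤ N →
      Real.log N ≤ η * Real.log T →
    T / 2 ≤ ∫ t in (T / 2)..(3 * T),
      ‖riemannZeta (((1 / 2 + A / Real.log T : ℝ) : ℂ) + (t : ℂ) * I) *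
      DP N b (((1 / 2 - A / Real.log T : ℝ) : ℂ) + (t : ℂ) * I) *
      (1 - PP k (η * Real.log T / k) (a * Real.log T)
        (((1 / 2 - A / Real.log T : ℝ) : ℂ) + (t : ℂ) * I) / (Real.log T : ℂ))‖ := by
  obtain ⟨k0, hk0⟩ := Pool.Agent.H448R2.GC.cs_zeta η (1 + 2 * η) (2 * (a + η) + 3) hη (by linarith)
  refine ⟨max k0 1, fun k hk => ?_⟩
  have hkk0 : k0 ≤ k := (le_max_left _ _).trans hk
  have hkk1 : 1 ≤ k := (le_max_right _ _).trans hk
  obtain ⟨T0, hT0⟩ := hk0 k hkk0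
  obtain ⟨T1, hT1⟩ := ev_log (8 * A + 8)
  -- the size condition
  have hsize : ∃ T₂ : ℝ, ∀ T : ℝ, T₂ ≤ T →
      (2 * T ^ (1 + 3 * η + 1 + 2 * (a + η))) *
        (Real.exp (-(T / 10)) + Real.sqrt 2 * Real.exp (-(T / 10))) ≤ 1 / 4 := by
    have h1 : Tendsto (fun T : ℝ => (2 * (1 + Real.sqrt 2)) *
        (T ^ (1 + 3 * η + 1 + 2 * (a + η)) * Real.exp (-(1 / 10) * T))) atTop (𝓝 ((2 * (1 + Real.sqrt 2)) * 0)) := by
      apply Tendsto.const_mul
      exact tendsto_rpow_mul_exp_neg_mul_atTop_nhds_zero _ _ (by norm_num)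
    rw [mul_zero] at h1
    have h2 := (h1.eventually_lt_const (by norm_num : (0 : ℝ) < 1 / 4))
    rw [Filter.eventually_atTop] at h2
    obtain ⟨T2, hT2⟩ := h2
    refine ⟨T2, fun T hT => ?_⟩
    have h3 := (hT2 T hT).le
    refine le_trans (le_of_eq ?_) h3
    have : Real.exp (-(1 / 10) * T) = Real.exp (-(T / 10)) := by congr 1; ring
    rw [this]
    ring
  obtain ⟨T2, hT2⟩ := hsize
  refine ⟨max (max T0 T1) (max T2 64), fun T hT N b hb hb1 hN1 hN => ?_⟩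
  simp only [max_le_iff] at hT
  obtain ⟨⟨hTT0, hTT1⟩, hTT2, hT64⟩ := hT
  have hLA := hT1 T hTT1
  set L := Real.log T with hL
  have hL0 : 0 < L := by linarith
  have hL1 : 1 ≤ L := by linarith
  have hTpos : 0 < T := by linarith
  have hk0' : (0 : ℝ) < k := by exact_mod_cast hkk1
  set c : ℝ := η * L / k with hc
  have hc0 : 0 < c := by positivity
  have hkc : (k : ℝ) * c = η * L := by rw [hc]; field_simp
  have hκ8 : A / L ≤ 1 / 8 := by
    rw [div_le_iff₀ hL0]; linarith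
  have hκ0 : 0 ≤ A / L := by positivity
  set σ : ℝ := 1 / 2 - A / L with hσ
  set σ' : ℝ := 1 / 2 + A / L with hσ'
  have hN0 : (0 : ℝ) < N := by exact_mod_cast hN1
  have hNT : (N : ℝ) ≤ T := by
    rw [← Real.log_le_log_iff hN0 hTpos]
    refine hN.trans ?_
    rw [← hL]
    nlinarith
  have hexp : ∀ x : ℝ, Real.exp (x * L) = T ^ x := by
    intro x
    rw [Real.rpow_def_of_pos hTpos, mul_comm, hL]
  have hmain := lb_poly k c ((1 + 2 * η) * L) (a * L) L hc0 (by positivity) (by positivity) hL1 N b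
    hb hb1 hN1 σ σ' (by rw [hσ]; linarith) (by rw [hσ']; linarith) T (by linarith) (by
      refine le_trans ?_ (hT2 T hTT2)
      apply mul_le_mul_of_nonneg_right _ (by positivity)
      rw [hkc, show (1 + 2 * η) * L + η * L = (1 + 3 * η) * L by ring,
        show 2 * (a * L + η * L) = (2 * (a + η)) * L by ring, hexp, hexp]
      have e9 : T ^ (1 + 3 * η + 1 + 2 * (a + η)) = T ^ (1 + 3 * η) * T * T ^ (2 * (a + η)) := by
        rw [Real.rpow_add hTpos (1 + 3 * η + 1), Real.rpow_add hTpos (1 + 3 * η) 1, Real.rpow_one]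
      rw [e9]
      calc T ^ (1 + 3 * η) * N * (2 * T ^ (2 * (a + η))) ≤
            T ^ (1 + 3 * η) * T * (2 * T ^ (2 * (a + η))) := by gcongr
        _ = _ := by ring)
  -- replace cs by zeta
  have hσ1 : σ' ≠ 1 := by
    rw [hσ']; intro h; linarith
  have cz : Continuous (fun t : ℝ => riemannZeta ((σ' : ℂ) + (t : ℂ) * I)) :=
    Pool.Agent.H448R2.GC.F0.zeta_cont σ' hσ1
  have ccs : Continuous (fun t : ℝ => cs k c ((1 + 2 * η) * L) ((σ' : ℂ) + (t : ℂ) * I)) := by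
    unfold cs
    refine continuous_finsetSum _ fun n hn => ?_
    exact continuous_const.mul
      (Pool.Agent.H448R2.GC.F0.cpow_cont n (Finset.mem_Icc.mp hn).1 σ')
  have cd : Continuous (fun t : ℝ => DP N b ((σ : ℂ) + (t : ℂ) * I)) := DP_line_cont N b σ
  have cp : Continuous (fun t : ℝ => (1 - PP k c (a * L) ((σ : ℂ) + (t : ℂ) * I) / (L : ℂ))) :=
    continuous_const.sub ((PP_cont k c (a * L) σ).div_const _)
  have hmono : ∫ t in (T / 2)..(3 * T), ‖cs k c ((1 + 2 * η) * L) ((σ' : ℂ) + (t : ℂ) * I) *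
      DP N b ((σ : ℂ) + (t : ℂ) * I) * (1 - PP k c (a * L) ((σ : ℂ) + (t : ℂ) * I) / L)‖ ≤
      ∫ t in (T / 2)..(3 * T), (‖riemannZeta ((σ' : ℂ) + (t : ℂ) * I) *
      DP N b ((σ : ℂ) + (t : ℂ) * I) * (1 - PP k c (a * L) ((σ : ℂ) + (t : ℂ) * I) / L)‖ +
      1 / 16) := by
    apply intervalIntegral.integral_mono_on (by linarith)
    · exact (((ccs.mul cd).mul cp).norm).intervalIntegrable _ _
    · exact ((((cz.mul cd).mul cp).norm).add continuous_const).intervalIntegrable _ _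
    · intro t ht
      rw [Set.mem_Icc] at ht
      set d : ℂ := cs k c ((1 + 2 * η) * L) ((σ' : ℂ) + (t : ℂ) * I) -
        riemannZeta ((σ' : ℂ) + (t : ℂ) * I) with hd
      have h1 : ‖d‖ ≤ T ^ (-(2 * (a + η) + 3)) := by
        apply hT0 T hTT0 ((1 + 2 * η) * L) le_rfl le_rfl
        · simp only [add_re, ofReal_re, mul_re, I_re, mul_zero, ofReal_im, I_im, mul_one,
            sub_self, add_zero]
          rw [hσ']; linarith
        · simp only [add_re, ofReal_re, mul_re, I_re, mul_zero, ofReal_im, I_im, mul_one,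
            sub_self, add_zero]
          rw [hσ']; linarith
        · simp only [add_im, ofReal_im, mul_im, ofReal_re, I_im, mul_one, I_re, mul_zero,
            add_zero, zero_add]
          linarith [ht.1]
        · simp only [add_im, ofReal_im, mul_im, ofReal_re, I_im, mul_one, I_re, mul_zero,
            add_zero, zero_add]
          linarith [ht.2]
      have hre : ((σ : ℂ) + (t : ℂ) * I).re = σ := by simp
      have h2 := DP_norm_le N b hb ((σ : ℂ) + (t : ℂ) * I) (by rw [hre, hσ]; linarith)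
      have h3 := PP_norm_le k c (a * L) hc0 ((σ : ℂ) + (t : ℂ) * I) (by rw [hre, hσ]; linarith)
      have h4 : ‖(1 - PP k c (a * L) ((σ : ℂ) + (t : ℂ) * I) / (L : ℂ))‖ ≤
          2 * T ^ (2 * (a + η)) := by
        refine (norm_sub_le _ _).trans ?_
        rw [norm_one, norm_div, Complex.norm_real L, Real.norm_of_nonneg hL0.le]
        rw [hkc, show 2 * (a * L + η * L) = (2 * (a + η)) * L by ring, hexp] at h3
        have h5 : ‖PP k c (a * L) ((σ : ℂ) + (t : ℂ) * I)‖ / L ≤ T ^ (2 * (a + η)) := by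
          rw [div_le_iff₀ hL0]
          refine h3.trans ?_
          exact le_mul_of_one_le_right (Real.rpow_nonneg hTpos.le _) hL1
        have h6 : 1 ≤ T ^ (2 * (a + η)) := Real.one_le_rpow (by linarith) (by positivity)
        linarith
      have h7 : cs k c ((1 + 2 * η) * L) ((σ' : ℂ) + (t : ℂ) * I) =
          riemannZeta ((σ' : ℂ) + (t : ℂ) * I) + d := by rw [hd]; ring
      rw [h7, add_mul, add_mul]
      refine (norm_add_le _ _).trans ?_
      gcongr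
      rw [norm_mul, norm_mul]
      have h8 : T ^ (-(2 * (a + η) + 3)) * T * (2 * T ^ (2 * (a + η))) = 2 / T ^ 2 := by
        have e1 : T ^ (-(2 * (a + η) + 3)) = (T ^ (2 * (a + η)))⁻¹ * (T ^ 3)⁻¹ := by
          rw [Real.rpow_neg hTpos.le, Real.rpow_add hTpos, mul_inv]
          congr 2
          exact_mod_cast Real.rpow_natCast T 3
        rw [e1]
        have : T ^ (2 * (a + η)) ≠ 0 := (Real.rpow_pos_of_pos hTpos _).ne'
        field_simp
      calc ‖d‖ * ‖DP N b ((σ : ℂ) + (t : ℂ) * I)‖ *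
            ‖(1 - PP k c (a * L) ((σ : ℂ) + (t : ℂ) * I) / (L : ℂ))‖ ≤
            T ^ (-(2 * (a + η) + 3)) * T * (2 * T ^ (2 * (a + η))) := by
            apply mul_le_mul _ h4 (norm_nonneg _) (by positivity)
            exact mul_le_mul h1 (h2.trans hNT) (norm_nonneg _) (by positivity)
        _ = 2 / T ^ 2 := h8
        _ ≤ 1 / 16 := by
            rw [div_le_iff₀ (by positivity)]
            nlinarith
  have hsplit : ∫ t in (T / 2)..(3 * T), (‖riemannZeta ((σ' : ℂ) + (t : ℂ) * I) *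
      DP N b ((σ : ℂ) + (t : ℂ) * I) * (1 - PP k c (a * L) ((σ : ℂ) + (t : ℂ) * I) / L)‖ +
      1 / 16) = (∫ t in (T / 2)..(3 * T), ‖riemannZeta ((σ' : ℂ) + (t : ℂ) * I) *
      DP N b ((σ : ℂ) + (t : ℂ) * I) * (1 - PP k c (a * L) ((σ : ℂ) + (t : ℂ) * I) / L)‖) +
      (3 * T - T / 2) * (1 / 16) := by
    rw [intervalIntegral.integral_add, intervalIntegral.integral_const, smul_eq_mul]
    · exact (((cz.mul cd).mul cp).norm).intervalIntegrable _ _
    · exact continuous_const.intervalIntegrable _ _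
  rw [hsplit] at hmono
  linarith

end Pool.Agent.Y857.VP
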