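import Pool.Agent.Y857.VP.Base

/-! From the variance of the problem to `VG`. -/

open Complex MeasureTheory Filter Topology

namespace Pool.Agent.Y857.VP

/-- The weighted number of prime powers in the interval of length `H` centred at `x`. -/
noncomputable def psi (x H : ℝ) : ℝ :=
  ∑ᶠ n ∈ {n : ℕ | 1 ≤ n ∧ x - H / 2 ≤ n ∧ (n : ℝ) ≤ x + H / 2}, ArithmeticFunction.vonMangoldt n

theorem psi_eq (x H : ℝ) (hH : 0 ≤ H) (hx : H / 2 < x) (hn : ∀ n : ℕ, (n : ℝ) ≠ x - H / 2) :
    psi x H = Chebyshev.psi (x + H / 2) - Chebyshev.psi (x - H / 2) := by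
  have h0 : 0 < x - H / 2 := by linarith
  have h1 : 0 < x + H / 2 := by linarith
  have hle : ⌊x - H / 2⌋₊ ≤ ⌊x + H / 2⌋₊ := Nat.floor_le_floor (by linarith)
  have hset : {n : ℕ | 1 ≤ n ∧ x - H / 2 ≤ n ∧ (n : ℝ) ≤ x + H / 2} =
      ((Finset.Ioc ⌊x - H / 2⌋₊ ⌊x + H / 2⌋₊ : Finset ℕ) : Set ℕ) := by
    ext n
    simp only [Set.mem_ofPred_eq, Finset.coe_Ioc, Set.mem_Ioc]
    rw [Nat.floor_lt h0.le, Nat.le_floor_iff h1.le]
    constructor
    · rintro ⟨_, h3, h4⟩
      exact ⟨lt_of_le_of_ne h3 (fun h => hn n h.symm), h4⟩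
    · rintro ⟨h3, h4⟩
      refine ⟨?_, h3.le, h4⟩
      have : (0 : ℝ) < n := lt_trans h0 h3
      exact_mod_cast this
  unfold psi
  rw [hset, finsum_mem_coe_finset]
  unfold Chebyshev.psi
  rw [eq_sub_iff_add_eq, add_comm]
  exact Finset.sum_Ioc_consecutive _ (Nat.zero_le _) hle

theorem AA_diff_bound (x H : ℝ) (hH : 0 ≤ H) (hx : H / 2 < x) (hn : ∀ n : ℕ, (n : ℝ) ≠ x - H / 2) :
    (AA (x + H / 2) - AA (x - H / 2)) ^ 2 ≤ |psi x H - H| ^ 2 / 32 + 1 / 32 := by
  have h0 : 0 < x - H / 2 := by linarith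
  have h1 : 0 < x + H / 2 := by linarith
  rw [AA_eq, AA_eq]
  have h2 := psi_eq x H hH hx hn
  have f1 : (⌊x + H / 2⌋₊ : ℝ) ≤ x + H / 2 := Nat.floor_le h1.le
  have f2 : x + H / 2 < (⌊x + H / 2⌋₊ : ℝ) + 1 := Nat.lt_floor_add_one _
  have f3 : (⌊x - H / 2⌋₊ : ℝ) ≤ x - H / 2 := Nat.floor_le h0.le
  have f4 : x - H / 2 < (⌊x - H / 2⌋₊ : ℝ) + 1 := Nat.lt_floor_add_one _
  set u := psi x H - H with hu
  set e : ℝ := H - (⌊x + H / 2⌋₊ - ⌊x - H / 2⌋₊ : ℝ) with he
  have hee : |e| ≤ 1 := by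
    rw [abs_le]
    constructor <;> linarith
  have h3 : (Chebyshev.psi (x + H / 2) - ⌊x + H / 2⌋₊) / 8 -
      (Chebyshev.psi (x - H / 2) - ⌊x - H / 2⌋₊) / 8 = (u + e) / 8 := by
    rw [hu, he, h2]
    ring
  rw [h3, sq_abs]
  have h4 : e ^ 2 ≤ 1 := by
    rw [← sq_abs e]
    have := abs_nonneg e
    nlinarith
  nlinarith [sq_nonneg (u - e)]

theorem null_set (H : ℝ) : ∀ᵐ x : ℝ, ∀ n : ℕ, (n : ℝ) ≠ x - H / 2 := by
  rw [ae_all_iff]
  intro n
  have : {x : ℝ | ¬ ((n : ℝ) ≠ x - H / 2)} = {(n : ℝ) + H / 2} := by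
    ext x
    simp only [ne_eq, not_not, Set.mem_ofPred_eq, Set.mem_singleton_iff]
    constructor
    · intro h; linarith
    · intro h; linarith
  rw [ae_iff, this]
  exact Real.volume_singleton

theorem psi_meas (H : ℝ) : Measurable (fun x => psi x H) := by
  have : (fun x => psi x H) = fun x => ∑' n : ℕ,
      (if 1 ≤ n ∧ x - H / 2 ≤ n ∧ (n : ℝ) ≤ x + H / 2 then
        ArithmeticFunction.vonMangoldt n else 0) := by
    ext x
    unfold psi
    have hfin : {n : ℕ | 1 ≤ n ∧ x - H / 2 ≤ n ∧ (n : ℝ) ≤ x + H / 2}.Finite := by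
      refine (Set.finite_Icc 0 ⌊x + H / 2⌋₊).subset ?_
      intro n hn
      simp only [Set.mem_ofPred_eq] at hn
      rw [Set.mem_Icc]
      refine ⟨Nat.zero_le _, Nat.le_floor hn.2.2⟩
    rw [finsum_mem_eq_finite_toFinset_sum _ hfin, tsum_eq_sum (s := hfin.toFinset)]
    · refine Finset.sum_congr rfl fun n hn => ?_
      rw [Set.Finite.mem_toFinset, Set.mem_ofPred_eq] at hn
      rw [if_pos hn]
    · intro n hn
      rw [Set.Finite.mem_toFinset, Set.mem_ofPred_eq] at hn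
      rw [if_neg hn]
  rw [this]
  apply Measurable.tsum
  intro n
  refine Measurable.ite ?_ measurable_const measurable_const
  by_cases hn1 : 1 ≤ n
  · have : {x : ℝ | 1 ≤ n ∧ x - H / 2 ≤ n ∧ (n : ℝ) ≤ x + H / 2} =
        Set.Icc ((n : ℝ) - H / 2) (n + H / 2) := by
      ext x
      simp only [Set.mem_ofPred_eq, Set.mem_Icc]
      constructor
      · rintro ⟨_, h1, h2⟩
        constructor <;> linarith
      · rintro ⟨h1, h2⟩
        refine ⟨hn1, by linarith, by linarith⟩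
    rw [this]
    exact measurableSet_Icc
  · have : {x : ℝ | 1 ≤ n ∧ x - H / 2 ≤ n ∧ (n : ℝ) ≤ x + H / 2} = ∅ := by
      ext x
      simp only [Set.mem_ofPred_eq, Set.mem_empty_iff_false, iff_false]
      rintro ⟨h1, _⟩
      exact hn1 h1
    rw [this]
    exact MeasurableSet.empty

theorem psi_bdd (x H M : ℝ) (hx : 0 ≤ x) (hH : 0 ≤ H) (hM : x + H / 2 ≤ M) :
    |psi x H| ≤ Chebyshev.psi M := by
  have hfin : {n : ℕ | 1 ≤ n ∧ x - H / 2 ≤ n ∧ (n : ℝ) ≤ x + H / 2} ⊆
      ((Finset.Ioc 0 ⌊M⌋₊ : Finset ℕ) : Set ℕ) := by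
    intro n hn
    simp only [Set.mem_ofPred_eq] at hn
    simp only [Finset.coe_Ioc, Set.mem_Ioc]
    refine ⟨by omega, ?_⟩
    rw [Nat.le_floor_iff (by linarith)]
    linarith
  have hf : {n : ℕ | 1 ≤ n ∧ x - H / 2 ≤ n ∧ (n : ℝ) ≤ x + H / 2}.Finite :=
    (Finset.finite_toSet _).subset hfin
  have hnn : 0 ≤ psi x H := by
    unfold psi
    rw [finsum_mem_eq_finite_toFinset_sum _ hf]
    exact Finset.sum_nonneg fun n _ => ArithmeticFunction.vonMangoldt_nonneg
  rw [abs_of_nonneg hnn]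
  unfold psi Chebyshev.psi
  classical
  rw [finsum_mem_eq_finite_toFinset_sum _ hf]
  apply Finset.sum_le_sum_of_subset_of_nonneg
  · intro n hn
    rw [Set.Finite.mem_toFinset] at hn
    exact_mod_cast hfin hn
  · intro n _ _
    exact ArithmeticFunction.vonMangoldt_nonneg

theorem sq_ii (H u v : ℝ) (hu : 0 ≤ u) (huv : u ≤ v) (hH : 0 ≤ H) :
    IntervalIntegrable (fun x => |psi x H - H| ^ 2) volume u v := by
  rw [intervalIntegrable_iff_integrableOn_Ioc_of_le huv]
  have hms : AEStronglyMeasurable (fun x => |psi x H - H| ^ 2) volume :=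
    (((psi_meas H).sub measurable_const).norm.pow_const 2).aestronglyMeasurable
  refine Measure.integrableOn_of_bounded (M := (Chebyshev.psi (v + H / 2) + H) ^ 2)
    (by simp) hms ?_
  refine (ae_restrict_mem measurableSet_Ioc).mono fun x hx => ?_
  rw [Real.norm_of_nonneg (by positivity)]
  apply pow_le_pow_left₀ (abs_nonneg _)
  refine (abs_sub _ _).trans ?_
  have := psi_bdd x H (v + H / 2) (by linarith [hx.1]) hH (by linarith [hx.2])
  rw [abs_of_nonneg hH]
  linarith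

theorem VG_le (X H : ℝ) (hX : 1 ≤ X) (hH : 0 ≤ H) (hHX : H < 2 * X) :
    VG X H ≤ (1 / (2 * X) * ∫ x in X..(2 * X), |psi x H - H| ^ 2) / 16 + 1 / 32 := by
  have hX0 : 0 < X := by linarith
  unfold VG
  have hi := sq_ii H X (2 * X) hX0.le (by linarith) hH
  have hAi : IntervalIntegrable (fun x => (AA (x + H / 2) - AA (x - H / 2)) ^ 2) volume X (2 * X) := by
    rw [intervalIntegrable_iff_integrableOn_Ioc_of_le (by linarith)]
    have hms : Measurable (fun x => (AA (x + H / 2) - AA (x - H / 2)) ^ 2) :=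
      ((meas_AA.comp (by fun_prop)).sub (meas_AA.comp (by fun_prop))).pow_const 2
    refine Measure.integrableOn_of_bounded (M := (4 * X + H) ^ 2)
      (by simp) hms.aestronglyMeasurable ?_
    refine (ae_restrict_mem measurableSet_Ioc).mono fun x hx => ?_
    rw [Real.norm_of_nonneg (by positivity), ← sq_abs]
    apply pow_le_pow_left₀ (abs_nonneg _)
    refine (abs_sub _ _).trans ?_
    have h1 := abs_AA_le (x + H / 2)
    have h2 := abs_AA_le (x - H / 2)
    rw [abs_of_nonneg (by linarith [hx.1] : (0 : ℝ) ≤ x + H / 2)] at h1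
    have h3 : |x - H / 2| ≤ x + H / 2 := by
      rw [abs_le]; constructor <;> linarith [hx.1]
    have := hx.2
    rw [abs_le] at h3
    have h4 : |x - H / 2| = x - H / 2 := abs_of_nonneg (by linarith [hx.1])
    rw [h4] at h2
    linarith
  have hmono : ∫ x in X..2 * X, (AA (x + H / 2) - AA (x - H / 2)) ^ 2 ≤
      ∫ x in X..2 * X, (|psi x H - H| ^ 2 / 32 + 1 / 32) := by
    apply intervalIntegral.integral_mono_ae_restrict (by linarith) hAi
      ((hi.div_const _).add (by simp))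
    have h2 := ae_restrict_of_ae (s := Set.Icc X (2 * X)) (null_set H)
    filter_upwards [h2, ae_restrict_mem measurableSet_Icc] with x hx1 hx2
    exact AA_diff_bound x H hH (by linarith [hx2.1]) hx1
  have hsplit : ∫ x in X..2 * X, (|psi x H - H| ^ 2 / 32 + 1 / 32) =
      (∫ x in X..2 * X, |psi x H - H| ^ 2) / 32 + (2 * X - X) * (1 / 32) := by
    rw [intervalIntegral.integral_add (hi.div_const _) (by simp),
      intervalIntegral.integral_div, intervalIntegral.integral_const, smul_eq_mul]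
  rw [hsplit] at hmono
  have h5 : 1 / X * ∫ x in X..2 * X, (AA (x + H / 2) - AA (x - H / 2)) ^ 2 ≤
      1 / X * ((∫ x in X..(2 * X), |psi x H - H| ^ 2) / 32 + (2 * X - X) * (1 / 32)) := by
    apply mul_le_mul_of_nonneg_left _ (by positivity)
    linarith
  refine h5.trans (le_of_eq ?_)
  field_simp
  ring

/-- the mean over `[X / 2, X]` is at most the mean over `[1, X]` -/
theorem mean_le (X H : ℝ) (hX : 2 ≤ X) (hH : 0 ≤ H) :
    1 / X * ∫ x in (X / 2)..X, |psi x H - H| ^ 2 ≤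
      1 / X * ∫ x in (1 : ℝ)..X, |psi x H - H| ^ 2 := by
  apply mul_le_mul_of_nonneg_left _ (by positivity)
  apply intervalIntegral.integral_mono_interval (by linarith) (by linarith) le_rfl
  · exact Eventually.of_forall fun x => by positivity
  · exact sq_ii H 1 X (by norm_num) (by linarith) hH

end Pool.Agent.Y857.VP
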