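import Pool.Agent.Y857.VP.U4
import Pool.Agent.Y857.VP.LB
import Pool.Agent.Y857.VP.Var

/-! The window theorem for the variance of primes in short intervals. -/

set_option autoImplicit false

namespace Pool.Agent.Y857.VP

open Complex Filter Topology MeasureTheory Set
open Pool.Agent.H24R2.DZ (mT MM bb mo ph yy)

/-- the shifted coefficients of the mollifier -/
noncomputable def bs (θ T κ : ℝ) (h : ℕ) : ℂ := bb θ (Real.log T) 0 h * (h : ℂ) ^ (-(2 * κ : ℂ))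

theorem bs_norm (θ T κ : ℝ) (hκ : 0 ≤ κ) (h : ℕ) : ‖bs θ T κ h‖ ≤ 1 := by
  unfold bs Pool.Agent.H24R2.DZ.bb Pool.Agent.H24R2.DZ.mo Pool.Agent.H24R2.DZ.ph
  rcases Nat.eq_zero_or_pos h with h0 | h0
  · rw [h0]
    simp
  · have e1 := norm_ncpow_le h h0 (2 * κ : ℂ) (by
      have : (2 * (κ : ℂ)).re = 2 * κ := by simp
      rw [this]
      linarith)
    have e2 : ‖(((ArithmeticFunction.moebius h : ℝ) *
        Real.smoothTransition (2 - 2 * (Real.log h / (θ * Real.log T))) : ℝ) : ℂ)‖ ≤ 1 := by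
      rw [Complex.norm_real, norm_mul]
      apply mul_le_one₀ _ (norm_nonneg _)
      · rw [Real.norm_of_nonneg (Real.smoothTransition.nonneg _)]
        exact Real.smoothTransition.le_one _
      · rw [Real.norm_eq_abs]
        have := ArithmeticFunction.abs_moebius_le_one (n := h)
        exact_mod_cast this
    rw [norm_mul, norm_mul]
    have e3 : ‖(h : ℂ) ^ (-(0 : ℂ))‖ ≤ 1 := by simp
    exact mul_le_one₀ (mul_le_one₀ e2 (norm_nonneg _) e3) (norm_nonneg _) e1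

theorem bs_one (θ T κ : ℝ) : bs θ T κ 1 = 1 := by
  unfold bs Pool.Agent.H24R2.DZ.bb Pool.Agent.H24R2.DZ.mo Pool.Agent.H24R2.DZ.ph
  simp [Real.smoothTransition.one_of_one_le]

theorem bs_DP (θ T κ : ℝ) (s : ℂ) : DP (yy θ T) (bs θ T κ) s = mT θ T (s + 2 * κ) := by
  unfold DP Pool.Agent.H24R2.DZ.mT Pool.Agent.H24R2.DZ.MM bs
  refine Finset.sum_congr rfl fun h hh => ?_
  rw [Finset.mem_Icc] at hh
  have hn0 : (h : ℂ) ≠ 0 := by exact_mod_cast (by omega : h ≠ 0)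
  rw [neg_add, Complex.cpow_add _ _ hn0]
  ring

theorem alg1 (C1 g L CA Cw b T : ℝ) (hg : 0 < g) (hL : 0 < L) :
    C1 * (g * L * (CA * T) + 1 / (g * L) * (Cw * (g ^ 2 * b * L / 8) * T * L + 1)) =
      (C1 * g * (CA + Cw * b / 8)) * L * T + C1 / (g * L) := by
  field_simp
  ring

theorem alg2 (c₀ E L T g C1 : ℝ) (hc : 0 < c₀) (hE : 0 < E) (hL : 0 < L) :
    2 / (c₀ * E) * (c₀ / 16 * E * T +
      1 / L * ((c₀ * E / 16) * L * T + C1 / (g * L) + 5 * T)) =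
      T / 4 + 2 / (c₀ * E) * (1 / L * (C1 / (g * L) + 5 * T)) := by
  have h1 : 1 / L * ((c₀ * E / 16) * L * T + C1 / (g * L) + 5 * T) =
      c₀ * E / 16 * T + 1 / L * (C1 / (g * L) + 5 * T) := by
    rw [add_assoc, mul_add]
    congr 1
    field_simp
  rw [h1]
  generalize 1 / L * (C1 / (g * L) + 5 * T) = W
  field_simp
  ring

/-- `ζ + ζ' / L` times the mollifier -/
noncomputable def Uf (θ T κ L : ℝ) (t : ℝ) : ℝ :=
  ‖mT θ T (1 / 2 + (κ : ℂ) + (t : ℂ) * I)‖ *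
      ‖riemannZeta (1 / 2 - (κ : ℂ) + (t : ℂ) * I) +
        deriv riemannZeta (1 / 2 - (κ : ℂ) + (t : ℂ) * I) / (L : ℂ)‖

theorem Uf_cont (θ T κ L : ℝ) (hκ : 0 ≤ κ) : Continuous (Uf θ T κ L) := by
  unfold Uf
  apply Continuous.mul
  · exact ((mT_contC θ T).comp (by fun_prop)).norm
  · exact ((z_line_cont κ hκ).add ((zd_line_cont κ hκ).div_const _)).norm

theorem cmp_pt (c₀ θ T κ a η E L : ℝ) (k : ℕ) (hc₀ : 0 < c₀) (hE : 0 < E) (hL : L = Real.log T)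
    (hL0 : 0 < L)
    (hrefl : ∀ κ t : ℝ, 0 ≤ κ → κ ≤ 1 / 2 → 1 ≤ t →
      c₀ * t ^ κ * ‖riemannZeta (1 / 2 + (κ : ℂ) + (t : ℂ) * I)‖ ≤
      ‖riemannZeta (1 / 2 - (κ : ℂ) + (t : ℂ) * I)‖) (hT : 64 ≤ T) (hκ0 : 0 ≤ κ) (hκ8 : κ ≤ 1 / 8)
    (hEe : Real.exp (κ * L) = E) (t : ℝ) (ht : T / 2 ≤ t) :
      ‖riemannZeta (((1 / 2 + κ : ℝ) : ℂ) + (t : ℂ) * I) *
        DP (yy θ T) (bs θ T κ) (((1 / 2 - κ : ℝ) : ℂ) + (t : ℂ) * I) *
      (1 - PP k (η * L / k) (a * L) (((1 / 2 - κ : ℝ) : ℂ) + (t : ℂ) * I) / (L : ℂ))‖ ≤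
      2 / (c₀ * E) * (Uf θ T κ L t + 1 / L * Ef T a η k (yy θ T) (bs θ T κ) (1 / 2 - κ) t) := by
  have hTpos : 0 < T := by linarith
  have ht1 : 1 ≤ t := by linarith
  have h1 := hrefl κ t hκ0 (by linarith) ht1
  have e1 : ((1 / 2 + κ : ℝ) : ℂ) + (t : ℂ) * I = 1 / 2 + (κ : ℂ) + (t : ℂ) * I := by
    push_cast; ring
  have e2 : ((1 / 2 - κ : ℝ) : ℂ) + (t : ℂ) * I = 1 / 2 - (κ : ℂ) + (t : ℂ) * I := by
    push_cast; ring
  have h2 : E / 2 ≤ t ^ κ := by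
    have h3 : (T / 2) ^ κ ≤ t ^ κ := Real.rpow_le_rpow (by linarith) ht hκ0
    refine le_trans ?_ h3
    have h0 : T ^ κ = E := by
      rw [Real.rpow_def_of_pos hTpos, ← hEe, hL, mul_comm]
    rw [Real.div_rpow hTpos.le (by norm_num), h0]
    have h4 : (2 : ℝ) ^ κ ≤ 2 ^ (1 : ℝ) :=
      Real.rpow_le_rpow_of_exponent_le (by norm_num) (by linarith)
    rw [Real.rpow_one] at h4
    have h5 : (0 : ℝ) < 2 ^ κ := Real.rpow_pos_of_pos (by norm_num) _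
    gcongr
  have h6 : ‖riemannZeta (1 / 2 + (κ : ℂ) + (t : ℂ) * I)‖ ≤
      2 / (c₀ * E) * ‖riemannZeta (1 / 2 - (κ : ℂ) + (t : ℂ) * I)‖ := by
    have h7 : c₀ * (E / 2) * ‖riemannZeta (1 / 2 + (κ : ℂ) + (t : ℂ) * I)‖ ≤
        ‖riemannZeta (1 / 2 - (κ : ℂ) + (t : ℂ) * I)‖ := by
      refine le_trans ?_ h1
      gcongr
    rw [div_mul_eq_mul_div, le_div_iff₀ (by positivity)]
    linarith
  have hLc : (L : ℂ) ≠ 0 := by exact_mod_cast hL0.ne'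
  have h8 : DP (yy θ T) (bs θ T κ) (1 / 2 - (κ : ℂ) + (t : ℂ) * I) =
      mT θ T (1 / 2 + (κ : ℂ) + (t : ℂ) * I) := by
    rw [bs_DP]
    congr 1
    ring
  have h10 : Ef T a η k (yy θ T) (bs θ T κ) (1 / 2 - κ) t =
      ‖mT θ T (1 / 2 + (κ : ℂ) + (t : ℂ) * I) *
        (deriv riemannZeta (1 / 2 - (κ : ℂ) + (t : ℂ) * I) +
          riemannZeta (1 / 2 - (κ : ℂ) + (t : ℂ) * I) *
          PP k (η * L / k) (a * L) (1 / 2 - (κ : ℂ) + (t : ℂ) * I))‖ := by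
    unfold Ef
    rw [e2, h8, hL]
  rw [h10, e1, e2, h8]
  unfold Uf
  generalize PP k (η * L / k) (a * L) (1 / 2 - (κ : ℂ) + (t : ℂ) * I) = P
  generalize deriv riemannZeta (1 / 2 - (κ : ℂ) + (t : ℂ) * I) = zd
  revert h6
  generalize riemannZeta (1 / 2 - (κ : ℂ) + (t : ℂ) * I) = z
  generalize riemannZeta (1 / 2 + (κ : ℂ) + (t : ℂ) * I) = z'
  generalize mT θ T (1 / 2 + (κ : ℂ) + (t : ℂ) * I) = Dv
  intro h6
  have h9 : z * Dv * (1 - P / (L : ℂ)) = Dv * (z + zd / L) - 1 / L * (Dv * (zd + z * P)) := by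
    field_simp
    ring
  rw [norm_mul, norm_mul]
  calc ‖z'‖ * ‖Dv‖ * ‖1 - P / (L : ℂ)‖ ≤
        (2 / (c₀ * E) * ‖z‖) * ‖Dv‖ * ‖1 - P / (L : ℂ)‖ := by gcongr
    _ = 2 / (c₀ * E) * ‖z * Dv * (1 - P / (L : ℂ))‖ := by
        rw [norm_mul, norm_mul]
        ring
    _ ≤ 2 / (c₀ * E) * (‖Dv‖ * ‖z + zd / (L : ℂ)‖ + 1 / L * ‖Dv * (zd + z * P)‖) := by
        apply mul_le_mul_of_nonneg_left _ (by positivity)
        rw [h9]
        refine (norm_sub_le _ _).trans ?_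
        rw [norm_mul Dv (z + zd / (L : ℂ)), norm_mul (1 / (L : ℂ))]
        have : ‖(1 / (L : ℂ))‖ = 1 / L := by
          rw [norm_div, norm_one, Complex.norm_real, Real.norm_of_nonneg hL0.le]
        rw [this]

theorem cmp_int (c₀ θ T κ a η E L : ℝ) (k : ℕ) (hc₀ : 0 < c₀) (hE : 0 < E) (hL : L = Real.log T)
    (hL0 : 0 < L)
    (hrefl : ∀ κ t : ℝ, 0 ≤ κ → κ ≤ 1 / 2 → 1 ≤ t →
      c₀ * t ^ κ * ‖riemannZeta (1 / 2 + (κ : ℂ) + (t : ℂ) * I)‖ ≤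
      ‖riemannZeta (1 / 2 - (κ : ℂ) + (t : ℂ) * I)‖) (hT : 64 ≤ T) (hκ0 : 0 ≤ κ) (hκ8 : κ ≤ 1 / 8)
    (hEe : Real.exp (κ * L) = E) :
    ∫ t in (T / 2)..(3 * T),
      ‖riemannZeta (((1 / 2 + κ : ℝ) : ℂ) + (t : ℂ) * I) *
        DP (yy θ T) (bs θ T κ) (((1 / 2 - κ : ℝ) : ℂ) + (t : ℂ) * I) *
      (1 - PP k (η * L / k) (a * L) (((1 / 2 - κ : ℝ) : ℂ) + (t : ℂ) * I) / (L : ℂ))‖ ≤
      2 / (c₀ * E) * ((∫ t in (T / 2)..(3 * T), Uf θ T κ L t) +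
        1 / L * ∫ t in (T / 2)..(3 * T), Ef T a η k (yy θ T) (bs θ T κ) (1 / 2 - κ) t) := by
  have hle : T / 2 ≤ 3 * T := by linarith
  have hσ1 : (1 / 2 - κ : ℝ) ≠ 1 := by
    intro h; linarith
  have hσ' : (1 / 2 + κ : ℝ) ≠ 1 := by
    intro h; linarith
  have cU := Uf_cont θ T κ L hκ0
  have cE : Continuous (Ef T a η k (yy θ T) (bs θ T κ) (1 / 2 - κ)) :=
    Ef_cont T a η k _ _ _ hσ1
  have i1 : IntervalIntegrable (fun t => 2 / (c₀ * E) *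
      (Uf θ T κ L t + 1 / L * Ef T a η k (yy θ T) (bs θ T κ) (1 / 2 - κ) t)) volume
      (T / 2) (3 * T) :=
    ((cU.add (cE.const_mul _)).const_mul _).intervalIntegrable _ _
  have i0 : IntervalIntegrable (fun t : ℝ =>
    ‖riemannZeta (((1 / 2 + κ : ℝ) : ℂ) + (t : ℂ) * I) *
      DP (yy θ T) (bs θ T κ) (((1 / 2 - κ : ℝ) : ℂ) + (t : ℂ) * I) *
    (1 - PP k (η * L / k) (a * L) (((1 / 2 - κ : ℝ) : ℂ) + (t : ℂ) * I) / (L : ℂ))‖) volume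
      (T / 2) (3 * T) := by
    apply Continuous.intervalIntegrable
    have cz : Continuous (fun t : ℝ => riemannZeta (((1 / 2 + κ : ℝ) : ℂ) + (t : ℂ) * I)) :=
      Pool.Agent.H448R2.GC.F0.zeta_cont _ hσ'
    have cd : Continuous (fun t : ℝ =>
        DP (yy θ T) (bs θ T κ) (((1 / 2 - κ : ℝ) : ℂ) + (t : ℂ) * I)) :=
      DP_line_cont _ _ _
    have cp : Continuous (fun t : ℝ =>
        (1 - PP k (η * L / k) (a * L) (((1 / 2 - κ : ℝ) : ℂ) + (t : ℂ) * I) / (L : ℂ))) :=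
      continuous_const.sub ((PP_cont k _ (a * L) _).div_const _)
    exact ((cz.mul cd).mul cp).norm
  have h1 := intervalIntegral.integral_mono_on hle i0 i1 (fun t ht =>
    cmp_pt c₀ θ T κ a η E L k hc₀ hE hL hL0 hrefl hT hκ0 hκ8 hEe t ht.1)
  refine h1.trans (le_of_eq ?_)
  rw [intervalIntegral.integral_const_mul, intervalIntegral.integral_add,
    intervalIntegral.integral_const_mul]
  · exact cU.intervalIntegrable _ _
  · exact (cE.const_mul _).intervalIntegrable _ _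

theorem Z2_bound (θ T A L κ Cm : ℝ) (hθ0 : 0 < θ) (hθ1 : θ ≤ 1 / 200) (hCm : 0 < Cm)
    (hms : ∀ (κ : ℝ) (β : ℂ), 0 ≤ κ → κ ≤ 1 / 4 → ‖β‖ ≤ 1 →
    ∫ t in (T / 4)..(4 * T), ‖riemannZeta (1 / 2 - (κ : ℂ) + (t : ℂ) * I) *
      mT θ T (1 / 2 + (κ : ℂ) + (t : ℂ) * I + β)‖ ^ 2 ≤
    Cm * T * Real.exp (2 * κ * Real.log T) * ((1 + Real.log T * ‖β‖) ^ 20 *
      Real.exp (2 * θ * Real.log T * ‖β‖))) (hL : L = Real.log T) (hA0 : 0 < A) (hT : 0 < T)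
    (hκ0 : 0 ≤ κ) (hκ8 : κ ≤ 1 / 8) (hκL : κ * L = A) :
    ∫ t in (T / 4)..(4 * T), Zf (yy θ T) (bs θ T κ) t ^ 2 ≤
      Cm * ((1 + 2 * A) ^ 20 * Real.exp (4 * A)) * T := by
  have h1 := hms 0 (2 * κ : ℂ) le_rfl (by norm_num) (by
    rw [norm_mul, Complex.norm_real, Real.norm_of_nonneg hκ0]
    simp only [Complex.norm_ofNat]
    linarith)
  have e1 : ‖(2 * κ : ℂ)‖ = 2 * κ := by
    rw [norm_mul, Complex.norm_real, Real.norm_of_nonneg hκ0]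
    simp
  rw [e1, ← hL] at h1
  have e2 : L * (2 * κ) = 2 * A := by linarith
  have e3 : 2 * θ * L * (2 * κ) = 4 * θ * A := by
    rw [show 2 * θ * L * (2 * κ) = 4 * θ * (κ * L) by ring, hκL]
  rw [e2, e3, mul_zero, zero_mul, Real.exp_zero, mul_one] at h1
  have e4 : ∫ t in (T / 4)..(4 * T), Zf (yy θ T) (bs θ T κ) t ^ 2 =
      ∫ t in (T / 4)..(4 * T), ‖riemannZeta (1 / 2 - ((0 : ℝ) : ℂ) + (t : ℂ) * I) *
    mT θ T (1 / 2 + ((0 : ℝ) : ℂ) + (t : ℂ) * I + 2 * κ)‖ ^ 2 := by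
    apply intervalIntegral.integral_congr
    intro t _
    simp only
    unfold Zf
    rw [bs_DP]
    congr 4
    · push_cast; ring
    · push_cast; ring
  rw [e4]
  refine h1.trans ?_
  have e5 : Real.exp (4 * θ * A) ≤ Real.exp (4 * A) := by
    apply Real.exp_le_exp.2
    nlinarith
  calc Cm * T * ((1 + 2 * A) ^ 20 * Real.exp (4 * θ * A)) ≤
        Cm * T * ((1 + 2 * A) ^ 20 * Real.exp (4 * A)) := by gcongr
    _ = _ := by ring

/-- the transfer of the hypothesis -/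
theorem VG_step (a b η g T L : ℝ) (ha : 1 < a) (hηb : a + 1 + 8 * η ≤ b)
    (hT64 : 64 ≤ T) (hL : L = Real.log T) (h64η : 64 ≤ T ^ η) (hg0 : 0 < g)
    (h5 : 1 ≤ g ^ 2 * b * L)
    (hcon : ∀ X H : ℝ, T ^ a ≤ X → X ≤ T ^ b → X / (32 * T) ≤ H → H ≤ 2 * X / T →
      1 / X * ∫ x in (X / 2)..X, |psi x H - H| ^ 2 < g ^ 2 * H * Real.log X) :
    ∀ X H : ℝ, T ^ (a + η) / 4 ≤ X → X ≤ 16 * T ^ (a + η + 1 + 5 * η + η) → X / (16 * T) ≤ H →
      H ≤ 4 * X / T → VG X H ≤ (g ^ 2 * b * L / 8) * H := by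
  intro X H hX1 hX2 hH1 hH2
  have hTpos : 0 < T := by linarith
  have e1 : T ^ (a + η) = T ^ a * T ^ η := by rw [Real.rpow_add hTpos]
  have hTa0 : 0 < T ^ a := Real.rpow_pos_of_pos hTpos _
  have hX3 : 16 * T ^ a ≤ X := by
    refine le_trans ?_ hX1
    rw [e1]
    nlinarith
  have hX4 : 2 * X ≤ T ^ b := by
    have e2 : T ^ (a + η + 1 + 5 * η + η) * T ^ η ≤ T ^ b := by
      rw [← Real.rpow_add hTpos]
      apply Real.rpow_le_rpow_of_exponent_le (by linarith)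
      linarith
    have e3 : 0 < T ^ (a + η + 1 + 5 * η + η) := Real.rpow_pos_of_pos hTpos _
    nlinarith
  have hTa1 : T ≤ T ^ a := by
    calc T = T ^ (1 : ℝ) := (Real.rpow_one T).symm
      _ ≤ T ^ a := Real.rpow_le_rpow_of_exponent_le (by linarith) ha.le
  have hX1' : 1 ≤ X := by linarith
  have hX0 : 0 < X := by linarith
  have hH1' : 1 ≤ H := by
    refine le_trans ?_ hH1
    rw [le_div_iff₀ (by positivity)]
    linarith
  have hHX : H < 2 * X := by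
    refine lt_of_le_of_lt hH2 ?_
    rw [div_lt_iff₀ hTpos]
    nlinarith
  have h1 := hcon (2 * X) H (by linarith) hX4 (by
    refine le_trans (le_of_eq ?_) hH1
    field_simp
    ring) (by
    refine hH2.trans (le_of_eq ?_)
    ring)
  have hX22 : 2 * X / 2 = X := by ring
  rw [hX22] at h1
  have h2 := VG_le X H hX1' (by linarith) hHX
  have h3 : Real.log (2 * X) ≤ b * L := by
    rw [hL, ← Real.log_rpow hTpos]
    exact Real.log_le_log (by positivity) hX4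
  have h4 : g ^ 2 * H * Real.log (2 * X) ≤ g ^ 2 * H * (b * L) :=
    mul_le_mul_of_nonneg_left h3 (by positivity)
  have h6 : 1 ≤ g ^ 2 * b * L * H := by nlinarith
  nlinarith

end Pool.Agent.Y857.VP
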