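import Pool.Agent.H448R2.GC.MV
import Pool.Agent.H448R2.GC.F1a

/-! A lower bound for the mean value of an exponential polynomial with constant term one. -/

open Complex MeasureTheory Filter Topology
open Pool.Agent.H448R2.GC (gw)

namespace Pool.Agent.Y857.VP

theorem gw_tail (τ Δ R : ℝ) (hΔ : 0 < Δ) (hR : 0 ≤ R) (E : Set ℝ) (hE : MeasurableSet E)
    (hER : ∀ t ∈ E, R ≤ |t - τ|) :
    ∫ t in E, gw τ Δ t ≤ Real.sqrt 2 * Real.exp (-(R ^ 2 / (2 * Δ ^ 2))) := by
  have h2 : 0 < Real.sqrt 2 := by positivity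
  have hpi : 0 < Real.sqrt Real.pi := Real.sqrt_pos.2 Real.pi_pos
  have hpt : ∀ t ∈ E, gw τ Δ t ≤
      Real.sqrt 2 * Real.exp (-(R ^ 2 / (2 * Δ ^ 2))) * gw τ (Real.sqrt 2 * Δ) t := by
    intro t ht
    have h3 := hER t ht
    unfold gw
    have h4 : -((t - τ) / Δ) ^ 2 ≤ -(R ^ 2 / (2 * Δ ^ 2)) + -((t - τ) / (Real.sqrt 2 * Δ)) ^ 2 := by
      have h5 : ((t - τ) / (Real.sqrt 2 * Δ)) ^ 2 = (t - τ) ^ 2 / (2 * Δ ^ 2) := by
        rw [div_pow, mul_pow, Real.sq_sqrt (by norm_num)]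
      have h6 : ((t - τ) / Δ) ^ 2 = (t - τ) ^ 2 / (2 * Δ ^ 2) + (t - τ) ^ 2 / (2 * Δ ^ 2) := by
        field_simp
        ring
      rw [h5, h6]
      have h7 : R ^ 2 ≤ (t - τ) ^ 2 := by
        rw [← sq_abs (t - τ)]
        exact pow_le_pow_left₀ hR h3 2
      have h8 : R ^ 2 / (2 * Δ ^ 2) ≤ (t - τ) ^ 2 / (2 * Δ ^ 2) := by gcongr
      linarith
    calc Real.exp (-((t - τ) / Δ) ^ 2) / (Δ * Real.sqrt Real.pi)
        ≤ Real.exp (-(R ^ 2 / (2 * Δ ^ 2)) + -((t - τ) / (Real.sqrt 2 * Δ)) ^ 2) /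
          (Δ * Real.sqrt Real.pi) := by
          gcongr
      _ = Real.sqrt 2 * Real.exp (-(R ^ 2 / (2 * Δ ^ 2))) *
          (Real.exp (-((t - τ) / (Real.sqrt 2 * Δ)) ^ 2) /
            (Real.sqrt 2 * Δ * Real.sqrt Real.pi)) := by
          rw [Real.exp_add]
          field_simp
  have hi1 := Pool.Agent.H448R2.GC.gw_integrable τ Δ hΔ
  have hi2 := Pool.Agent.H448R2.GC.gw_integrable τ (Real.sqrt 2 * Δ) (by positivity)
  calc ∫ t in E, gw τ Δ t ≤
        ∫ t in E, Real.sqrt 2 * Real.exp (-(R ^ 2 / (2 * Δ ^ 2))) * gw τ (Real.sqrt 2 * Δ) t :=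
        setIntegral_mono_on hi1.integrableOn (hi2.const_mul _).integrableOn hE hpt
    _ = Real.sqrt 2 * Real.exp (-(R ^ 2 / (2 * Δ ^ 2))) * ∫ t in E, gw τ (Real.sqrt 2 * Δ) t := by
        rw [integral_const_mul]
    _ ≤ Real.sqrt 2 * Real.exp (-(R ^ 2 / (2 * Δ ^ 2))) * 1 := by
        apply mul_le_mul_of_nonneg_left _ (by positivity)
        rw [← Pool.Agent.H448R2.GC.gw_integral τ (Real.sqrt 2 * Δ) (by positivity)]
        exact setIntegral_le_integral hi2 (Eventually.of_forall fun t =>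
          Pool.Agent.H448R2.GC.F0.gw_pos _ _ _ (by positivity))
    _ = _ := by ring

/-- lower bound for the first mean -/
theorem mean_lower {ι : Type*} [DecidableEq ι] (S : Finset ι) (a : ι → ℂ) (ω : ι → ℝ) (i₀ : ι)
    (hi₀ : i₀ ∈ S) (ha0 : a i₀ = 1) (hω0 : ω i₀ = 0) (hω : ∀ i ∈ S, i ≠ i₀ → Real.log 2 ≤ |ω i|)
    (M T : ℝ) (hM : ∑ i ∈ S, ‖a i‖ ≤ M) (hT : 1 ≤ T)
    (hMT : M * (Real.exp (-(T / 10)) + Real.sqrt 2 * Real.exp (-(T / 10))) ≤ 1 / 4) :
    3 / 4 * T ≤ ∫ t in (T / 2)..(3 * T), ‖∑ i ∈ S, a i * cexp (I * (ω i : ℂ) * (t : ℂ))‖ := by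
  have hT0 : 0 < T := by linarith
  set Δ : ℝ := Real.sqrt T with hΔ
  have hΔ0 : 0 < Δ := Real.sqrt_pos.2 hT0
  have hΔ2 : Δ ^ 2 = T := Real.sq_sqrt hT0.le
  set G : ℝ → ℂ := fun t => ∑ i ∈ S, a i * cexp (I * (ω i : ℂ) * (t : ℂ)) with hG
  have cG : Continuous G := by
    rw [hG]
    apply continuous_finsetSum
    intro i _
    fun_prop
  have hM0 : 0 ≤ M := le_trans (Finset.sum_nonneg fun i _ => norm_nonneg _) hM
  have hnorm1 : ∀ (w t : ℝ), ‖cexp (I * (w : ℂ) * (t : ℂ))‖ = 1 := by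
    intro w t
    rw [Complex.norm_exp]
    simp
  have hGM : ∀ t, ‖G t‖ ≤ M := by
    intro t
    rw [hG]
    refine (norm_sum_le _ _).trans (le_trans ?_ hM)
    refine Finset.sum_le_sum fun i _ => ?_
    rw [norm_mul, hnorm1, mul_one]
  have hlog2 : (1 : ℝ) / 10 ≤ Real.log 2 ^ 2 / 4 := by
    have := Real.log_two_gt_d9
    nlinarith
  have hgint : ∀ τ : ℝ, 1 - M * Real.exp (-(T / 10)) ≤ ∫ t, gw τ Δ t * ‖G t‖ := by
    intro τ
    have h1 : ∫ t, (gw τ Δ t : ℂ) * G t =
        ∑ i ∈ S, a i * (cexp (I * (ω i : ℂ) * τ) *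
          ((Real.exp (-(Δ ^ 2 * (ω i) ^ 2 / 4)) : ℝ) : ℂ)) := by
      have e1 : ∀ t : ℝ, (gw τ Δ t : ℂ) * G t =
          ∑ i ∈ S, a i * ((gw τ Δ t : ℂ) * cexp (I * (ω i : ℂ) * (t : ℂ))) := by
        intro t
        rw [hG]
        simp only
        rw [Finset.mul_sum]
        refine Finset.sum_congr rfl fun i _ => ?_
        ring
      simp_rw [e1]
      rw [integral_finsetSum]
      · refine Finset.sum_congr rfl fun i _ => ?_
        rw [integral_const_mul, Pool.Agent.H448R2.GC.MV.gint (ω i) τ Δ hΔ0]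
      · intro i _
        exact (Pool.Agent.H448R2.GC.MV.ptint τ Δ hΔ0 (ω i)).const_mul _
    have h2 : ‖(∫ t, (gw τ Δ t : ℂ) * G t) - 1‖ ≤ M * Real.exp (-(T / 10)) := by
      rw [h1, ← Finset.add_sum_erase S _ hi₀, ha0, hω0]
      simp only [Complex.ofReal_zero, mul_zero, zero_mul, Complex.exp_zero, one_mul, ne_eq,
        OfNat.ofNat_ne_zero, not_false_eq_true, zero_pow, zero_div, neg_zero, Real.exp_zero,
        Complex.ofReal_one]
      rw [add_sub_cancel_left]
      refine (norm_sum_le _ _).trans ?_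
      have h3 : ∀ i ∈ S.erase i₀, ‖a i * (cexp (I * (ω i : ℂ) * τ) *
          ((Real.exp (-(Δ ^ 2 * (ω i) ^ 2 / 4)) : ℝ) : ℂ))‖ ≤ ‖a i‖ * Real.exp (-(T / 10)) := by
        intro i hi
        rw [Finset.mem_erase] at hi
        rw [norm_mul, norm_mul, hnorm1, one_mul, Complex.norm_real,
          Real.norm_of_nonneg (Real.exp_pos _).le]
        apply mul_le_mul_of_nonneg_left _ (norm_nonneg _)
        apply Real.exp_le_exp.2
        have h4 := hω i hi.2 hi.1
        have h5 : Real.log 2 ^ 2 ≤ (ω i) ^ 2 := by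
          rw [← sq_abs (ω i)]
          exact pow_le_pow_left₀ (Real.log_nonneg (by norm_num)) h4 2
        rw [hΔ2]
        nlinarith
      refine (Finset.sum_le_sum h3).trans ?_
      rw [← Finset.sum_mul]
      apply mul_le_mul_of_nonneg_right _ (Real.exp_pos _).le
      refine le_trans ?_ hM
      exact Finset.sum_le_sum_of_subset_of_nonneg (Finset.erase_subset _ _)
        fun i _ _ => norm_nonneg _
    have h6 : ‖∫ t, (gw τ Δ t : ℂ) * G t‖ ≤ ∫ t, gw τ Δ t * ‖G t‖ := by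
      refine (norm_integral_le_integral_norm _).trans (le_of_eq ?_)
      refine integral_congr_ae (Eventually.of_forall fun t => ?_)
      simp only
      rw [norm_mul, Complex.norm_real,
        Real.norm_of_nonneg (Pool.Agent.H448R2.GC.F0.gw_pos _ _ _ hΔ0)]
    have h7 : 1 - M * Real.exp (-(T / 10)) ≤ ‖∫ t, (gw τ Δ t : ℂ) * G t‖ := by
      have h8 := norm_sub_norm_le (1 : ℂ) (1 - ∫ t, (gw τ Δ t : ℂ) * G t)
      rw [sub_sub_cancel, norm_one] at h8
      rw [norm_sub_rev] at h2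
      linarith
    exact h7.trans h6
  have hGi : ∀ τ : ℝ, Integrable (fun t => gw τ Δ t * ‖G t‖) := by
    intro τ
    exact Pool.Agent.H448R2.GC.F0.gw_mul_integrable τ Δ hΔ0 (fun t => ‖G t‖) cG.norm M 0
      (fun t => by rw [pow_zero, mul_one, abs_of_nonneg (norm_nonneg _)]; exact hGM t)
  set Y : Set ℝ := Set.Icc (T / 2) (3 * T) with hY
  have hloc : ∀ τ ∈ Set.Icc T (2 * T), 3 / 4 ≤ ∫ t in Y, gw τ Δ t * ‖G t‖ := by
    intro τ hτ
    rw [Set.mem_Icc] at hτ
    have h1 := hgint τ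
    have h2 : ∫ t, gw τ Δ t * ‖G t‖ = (∫ t in Y, gw τ Δ t * ‖G t‖) +
        ∫ t in Yᶜ, gw τ Δ t * ‖G t‖ := (integral_add_compl measurableSet_Icc (hGi τ)).symm
    have h3 : ∫ t in Yᶜ, gw τ Δ t * ‖G t‖ ≤ M * (Real.sqrt 2 * Real.exp (-(T / 10))) := by
      have h4 : ∫ t in Yᶜ, gw τ Δ t * ‖G t‖ ≤ ∫ t in Yᶜ, M * gw τ Δ t := by
        apply setIntegral_mono_on (hGi τ).integrableOn
          ((Pool.Agent.H448R2.GC.gw_integrable τ Δ hΔ0).const_mul _).integrableOn
          measurableSet_Icc.compl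
        intro t _
        rw [mul_comm M]
        exact mul_le_mul_of_nonneg_left (hGM t) (Pool.Agent.H448R2.GC.F0.gw_pos _ _ _ hΔ0)
      refine h4.trans ?_
      rw [integral_const_mul]
      apply mul_le_mul_of_nonneg_left _ hM0
      have h5 := gw_tail τ Δ (T / 2) hΔ0 (by linarith) Yᶜ measurableSet_Icc.compl (by
        intro t ht
        rw [hY, Set.mem_compl_iff, Set.mem_Icc, not_and_or, not_le, not_le] at ht
        rcases ht with ht | ht
        · rw [abs_sub_comm]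
          refine le_trans ?_ (le_abs_self _)
          linarith [hτ.1]
        · refine le_trans ?_ (le_abs_self _)
          linarith [hτ.2])
      refine h5.trans ?_
      apply mul_le_mul_of_nonneg_left _ (by positivity)
      apply Real.exp_le_exp.2
      rw [hΔ2]
      have : (T / 2) ^ 2 / (2 * T) = T / 8 := by
        field_simp
        norm_num
      rw [this]
      linarith
    rw [h2] at h1
    have h6 : M * (Real.exp (-(T / 10)) + Real.sqrt 2 * Real.exp (-(T / 10))) =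
      M * Real.exp (-(T / 10)) + M * (Real.sqrt 2 * Real.exp (-(T / 10))) := by ring
    rw [h6] at hMT
    linarith
  -- average over `τ`
  have hsw : ENNReal.ofReal (3 / 4 * T) ≤ ENNReal.ofReal (∫ t in (T / 2)..(3 * T), ‖G t‖) := by
    have m1 : Measurable (fun p : ℝ × ℝ => ENNReal.ofReal (gw p.1 Δ p.2 * ‖G p.2‖)) := by
      apply Measurable.ennreal_ofReal
      apply Continuous.measurable
      unfold gw
      fun_prop
    calc ENNReal.ofReal (3 / 4 * T) = ∫⁻ _ in Set.Icc T (2 * T), ENNReal.ofReal (3 / 4) := by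
          rw [setLIntegral_const, Real.volume_Icc, ← ENNReal.ofReal_mul (by norm_num)]
          congr 1
          ring
      _ ≤ ∫⁻ τ in Set.Icc T (2 * T), ∫⁻ t in Y, ENNReal.ofReal (gw τ Δ t * ‖G t‖) := by
          refine setLIntegral_mono' measurableSet_Icc fun τ hτ => ?_
          rw [← ofReal_integral_eq_lintegral_ofReal (hGi τ).integrableOn
            (Eventually.of_forall fun t => mul_nonneg
              (Pool.Agent.H448R2.GC.F0.gw_pos _ _ _ hΔ0) (norm_nonneg _))]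
          exact ENNReal.ofReal_le_ofReal (hloc τ hτ)
      _ = ∫⁻ t in Y, ∫⁻ τ in Set.Icc T (2 * T), ENNReal.ofReal (gw τ Δ t * ‖G t‖) :=
          lintegral_lintegral_swap m1.aemeasurable
      _ ≤ ∫⁻ t in Y, ENNReal.ofReal ‖G t‖ := by
          refine lintegral_mono fun t => ?_
          have e1 : ∀ τ : ℝ, ENNReal.ofReal (gw τ Δ t * ‖G t‖) =
              ENNReal.ofReal (gw t Δ τ) * ENNReal.ofReal ‖G t‖ := by
            intro τ
            rw [Pool.Agent.H448R2.GC.F1.gw_symm,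
              ENNReal.ofReal_mul (Pool.Agent.H448R2.GC.F0.gw_pos _ _ _ hΔ0)]
          simp_rw [e1]
          rw [lintegral_mul_const _
            (Pool.Agent.H448R2.GC.F0.gw_cont t Δ).measurable.ennreal_ofReal]
          calc _ ≤ 1 * ENNReal.ofReal ‖G t‖ := by
                refine mul_le_mul_left ?_ _
                calc ∫⁻ τ in Set.Icc T (2 * T), ENNReal.ofReal (gw t Δ τ)
                    ≤ ∫⁻ τ, ENNReal.ofReal (gw t Δ τ) := setLIntegral_le_lintegral _ _
                  _ = ENNReal.ofReal (∫ τ, gw t Δ τ) :=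
                      (ofReal_integral_eq_lintegral_ofReal
                        (Pool.Agent.H448R2.GC.gw_integrable t Δ hΔ0)
                        (Eventually.of_forall fun τ =>
                          Pool.Agent.H448R2.GC.F0.gw_pos _ _ _ hΔ0)).symm
                  _ = 1 := by rw [Pool.Agent.H448R2.GC.gw_integral t Δ hΔ0, ENNReal.ofReal_one]
            _ = _ := one_mul _
      _ = ENNReal.ofReal (∫ t in (T / 2)..(3 * T), ‖G t‖) := by
          rw [intervalIntegral.integral_of_le (by linarith), ← integral_Icc_eq_integral_Ioc,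
            ofReal_integral_eq_lintegral_ofReal (cG.norm.integrableOn_Icc)
              (Eventually.of_forall fun t => norm_nonneg _)]
  have hpos : 0 ≤ ∫ t in (T / 2)..(3 * T), ‖G t‖ :=
    intervalIntegral.integral_nonneg (by linarith) fun _ _ => norm_nonneg _
  rwa [ENNReal.ofReal_le_ofReal_iff hpos] at hsw

end Pool.Agent.Y857.VP
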