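import Pool.Agent.Y857.VP.Win

/-! The error representation with a mollifier. -/

open Complex MeasureTheory Filter Topology
open Pool.Agent.H448R2.GC (cu cs ker sm)

namespace Pool.Agent.Y857.VP

/-- Dirichlet polynomial -/
noncomputable def DP (y : ℕ) (b : ℕ → ℂ) (s : ℂ) : ℂ := ∑ h ∈ Finset.Icc 1 y, b h * (h : ℂ) ^ (-s)

theorem norm_ncpow_le (n : ℕ) (hn : 1 ≤ n) (s : ℂ) (hs : 0 ≤ s.re) : ‖(n : ℂ) ^ (-s)‖ ≤ 1 := by
  rw [Complex.norm_natCast_cpow_of_pos (by omega)]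
  apply Real.rpow_le_one_of_one_le_of_nonpos
  · exact_mod_cast hn
  · rw [Complex.neg_re]; linarith

theorem DP_norm_le (y : ℕ) (b : ℕ → ℂ) (hb : ∀ h, ‖b h‖ ≤ 1) (s : ℂ) (hs : 0 ≤ s.re) :
    ‖DP y b s‖ ≤ y := by
  unfold DP
  refine (norm_sum_le _ _).trans ?_
  have h1 : ∀ h ∈ Finset.Icc 1 y, ‖b h * (h : ℂ) ^ (-s)‖ ≤ 1 := by
    intro h hh
    rw [Finset.mem_Icc] at hh
    rw [norm_mul]
    exact mul_le_one₀ (hb h) (norm_nonneg _) (norm_ncpow_le h hh.1 s hs)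
  refine (Finset.sum_le_sum h1).trans ?_
  simp

theorem PP_norm_le (k : ℕ) (c D : ℝ) (hc : 0 < c) (s : ℂ) (hs : 0 ≤ s.re) :
    ‖PP k c D s‖ ≤ Real.exp (2 * (D + k * c)) := by
  unfold PP
  refine (norm_sum_le _ _).trans ?_
  have h1 : ∀ n ∈ Finset.Icc 1 ⌊Real.exp (D + k * c)⌋₊, ‖((ArithmeticFunction.vonMangoldt n : ℝ) : ℂ) *
      (cu k c (Real.log n - D) : ℂ) * (n : ℂ) ^ (-s)‖ ≤ Real.exp (D + k * c) := by
    intro n hn
    rw [Finset.mem_Icc] at hn
    have hn1 : (n : ℝ) ≤ Real.exp (D + k * c) := (Nat.le_floor_iff (Real.exp_pos _).le).mp hn.2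
    rw [norm_mul, norm_mul]
    have e1 : ‖((ArithmeticFunction.vonMangoldt n : ℝ) : ℂ)‖ ≤ n := by
      rw [Complex.norm_real, Real.norm_eq_abs, abs_of_nonneg ArithmeticFunction.vonMangoldt_nonneg]
      exact vM_le n hn.1
    have e2 := norm_ncpow_le n hn.1 s hs
    have e3 : ‖(cu k c (Real.log n - D) : ℂ)‖ ≤ 1 := by
      rw [Complex.norm_real, Real.norm_eq_abs, abs_of_nonneg (Pool.Agent.H448R2.GC.cu_nonneg k c _ hc)]
      exact Pool.Agent.H448R2.GC.cu_le_one k c _ hc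
    calc _ ≤ (n : ℝ) * 1 * 1 := by gcongr
      _ = n := by ring
      _ ≤ _ := hn1
  refine (Finset.sum_le_sum h1).trans ?_
  rw [Finset.sum_const, Nat.card_Icc, nsmul_eq_mul, Nat.add_sub_cancel]
  have hfl : (⌊Real.exp (D + k * c)⌋₊ : ℝ) ≤ Real.exp (D + k * c) := Nat.floor_le (Real.exp_pos _).le
  calc (⌊Real.exp (D + k * c)⌋₊ : ℝ) * Real.exp (D + k * c) ≤
        Real.exp (D + k * c) * Real.exp (D + k * c) :=
        mul_le_mul_of_nonneg_right hfl (Real.exp_pos _).le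
    _ = Real.exp (2 * (D + k * c)) := by rw [← Real.exp_add]; congr 1; ring

theorem line_cont (F : ℂ → ℂ) (hF : Continuous F) (s : ℂ) (x : ℝ) :
    Continuous (fun y : ℝ => F (s + ((x : ℂ) + (y : ℂ) * I))) := by
  apply hF.comp
  fun_prop

theorem ncpow_cont (n : ℕ) (hn : 1 ≤ n) : Continuous (fun s : ℂ => (n : ℂ) ^ (-s)) := by
  have hn0 : (n : ℂ) ≠ 0 := by
    exact_mod_cast (by omega : n ≠ 0)
  exact Continuous.const_cpow (by fun_prop) (Or.inl hn0)

theorem PP_contC (k : ℕ) (c D : ℝ) : Continuous (PP k c D) := by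
  unfold PP
  apply continuous_finsetSum
  intro n hn
  exact continuous_const.mul (ncpow_cont n (Finset.mem_Icc.1 hn).1)

theorem DP_contC (y : ℕ) (b : ℕ → ℂ) : Continuous (DP y b) := by
  unfold DP
  apply continuous_finsetSum
  intro n hn
  exact continuous_const.mul (ncpow_cont n (Finset.mem_Icc.1 hn).1)

/-- integrability of the basic integrand -/
theorem q_int (k : ℕ) (hk : 3 ≤ k) (c D₀ D₁ D₂ x : ℝ) (hc : 0 < c) (hx : 0 < x) (s : ℂ)
    (h1 : 1 / 8 ≤ s.re + x) (h2 : s.re + x ≤ 7 / 8) (G : ℂ → ℂ) (hG : Continuous G) (M : ℝ)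
    (hM : ∀ w : ℂ, 0 ≤ w.re → ‖G w‖ ≤ M) :
    Integrable (fun y : ℝ => riemannZeta (s + ((x : ℂ) + (y : ℂ) * I)) *
      G (s + ((x : ℂ) + (y : ℂ) * I)) *
        (PP k c D₂ (s + ((x : ℂ) + (y : ℂ) * I)) -
         PP k c D₁ (s + ((x : ℂ) + (y : ℂ) * I))) * ker k c D₀ x y) := by
  have h := Pool.Agent.H448R2.GC.E.kz_int k hk c D₀ x hc hx s h1 h2
  have hre : ∀ y : ℝ, (s + ((x : ℂ) + (y : ℂ) * I)).re = s.re + x := by
    intro y; simp
  have h3 : Integrable (fun y : ℝ => (G (s + ((x : ℂ) + (y : ℂ) * I)) *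
        (PP k c D₂ (s + ((x : ℂ) + (y : ℂ) * I)) -
         PP k c D₁ (s + ((x : ℂ) + (y : ℂ) * I)))) *
         (riemannZeta (s + ((x : ℂ) + (y : ℂ) * I)) * ker k c D₀ x y)) := by
    refine h.bdd_mul (c := M * (Real.exp (2 * (D₂ + k * c)) + Real.exp (2 * (D₁ + k * c)))) ?_ ?_
    · apply Continuous.aestronglyMeasurable
      exact (line_cont _ hG s x).mul ((line_cont _ (PP_contC k c D₂) s x).sub
        (line_cont _ (PP_contC k c D₁) s x))
    · refine Filter.Eventually.of_forall fun y => ?_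
      rw [norm_mul]
      have hr : 0 ≤ (s + ((x : ℂ) + (y : ℂ) * I)).re := by rw [hre]; linarith
      have e1 := hM _ hr
      have e2 := PP_norm_le k c D₂ hc _ hr
      have e3 := PP_norm_le k c D₁ hc _ hr
      apply mul_le_mul e1 ((norm_sub_le _ _).trans (add_le_add e2 e3)) (norm_nonneg _)
        ((norm_nonneg _).trans e1)
  refine h3.congr (Filter.Eventually.of_forall fun y => ?_)
  simp only
  ring

theorem mrep (a η B K : ℝ) (ha : 1 < a) (hη : 0 < η) (hB : a + 1 + 3 * η ≤ B) :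
    ∃ k₀ : ℕ, ∀ k : ℕ, k₀ ≤ k → ∃ T₀ : ℝ, ∀ T : ℝ,
    T₀ ≤ T → ∀ (N : ℕ) (b : ℕ → ℂ), (∀ h, ‖b h‖ ≤ 1) → ∀ D₀ D₂ : ℝ,
    (a + 1 + 3 * η) * Real.log T + Real.log N ≤ D₀ → D₀ + η * Real.log T ≤ D₂ →
    D₂ ≤ B * Real.log T → ∀ s : ℂ, 5 / 16 ≤ s.re → s.re ≤ 11 / 16 → T / 4 ≤ s.im → s.im ≤ 4 * T →
    ∀ x : ℝ, 1 / Real.log T ≤ x → x ≤ 1 / 8 →
    ‖DP N b s * (deriv riemannZeta s +
        riemannZeta s * PP k (η * Real.log T / k) (a * Real.log T) s) +
      (1 / (2 * Real.pi)) * ∫ y : ℝ,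
      riemannZeta (s + ((x : ℂ) + (y : ℂ) * I)) * DP N b (s + ((x : ℂ) + (y : ℂ) * I)) *
        (PP k (η * Real.log T / k) D₂ (s + ((x : ℂ) + (y : ℂ) * I)) -
         PP k (η * Real.log T / k) (a * Real.log T) (s + ((x : ℂ) + (y : ℂ) * I))) *
        ker k (η * Real.log T / k) D₀ x y‖ ≤ N * T ^ (-K) := by
  obtain ⟨k0, hk0⟩ := err_repr a η B K ha hη hB
  refine ⟨max k0 3, fun k hk => ?_⟩
  have hkk0 : k0 ≤ k := (le_max_left _ _).trans hk
  have hkk3 : 3 ≤ k := (le_max_right _ _).trans hk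
  obtain ⟨T0, hT0⟩ := hk0 k hkk0
  refine ⟨max T0 (Real.exp 1),
    fun T hT N b hb D₀ D₂ hD0 hD02 hD2 s hs1 hs2 hs3 hs4 x hx1 hx2 => ?_⟩
  have hTT0 : T0 ≤ T := (le_max_left _ _).trans hT
  have hTe : Real.exp 1 ≤ T := (le_max_right _ _).trans hT
  have hTpos : 0 < T := lt_of_lt_of_le (Real.exp_pos _) hTe
  set L : ℝ := Real.log T with hL
  have hL1 : 1 ≤ L := (Real.le_log_iff_exp_le hTpos).mpr hTe
  have hL0 : 0 < L := by linarith
  have hkpos : (0 : ℝ) < k := by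
    have : 0 < k := by omega
    exact_mod_cast this
  set c : ℝ := η * L / k with hc
  have hc0 : 0 < c := by positivity
  have hx0 : 0 < x := lt_of_lt_of_le (by positivity) hx1
  have hre : ∀ y : ℝ, (s + ((x : ℂ) + (y : ℂ) * I)).re = s.re + x := by
    intro y; simp
  -- one term
  have hone : ∀ h ∈ Finset.Icc 1 N, ‖b h * (h : ℂ) ^ (-s) * ((deriv riemannZeta s +
        riemannZeta s * PP k c (a * L) s) +
      (1 / (2 * Real.pi)) * ∫ y : ℝ,
      riemannZeta (s + ((x : ℂ) + (y : ℂ) * I)) *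
        (PP k c D₂ (s + ((x : ℂ) + (y : ℂ) * I)) -
         PP k c (a * L) (s + ((x : ℂ) + (y : ℂ) * I))) *
        ker k c (D₀ - Real.log h) x y)‖ ≤ T ^ (-K) := by
    intro h hh
    rw [Finset.mem_Icc] at hh
    have hh0 : (0 : ℝ) < h := by exact_mod_cast hh.1
    have hl1 : 0 ≤ Real.log h := Real.log_natCast_nonneg h
    have hl2 : Real.log h ≤ Real.log N := Real.log_le_log hh0 (by exact_mod_cast hh.2)
    have h1 := hT0 T hTT0 (D₀ - Real.log h) D₂ (by rw [← hL]; linarith) (by rw [← hL]; linarith)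
      (by rw [← hL]; exact hD2) s hs1 hs2 hs3 hs4 x hx1 hx2
    rw [← hL, ← hc] at h1
    rw [norm_mul, norm_mul]
    have e1 := norm_ncpow_le h hh.1 s (by linarith)
    calc _ ≤ 1 * 1 * T ^ (-K) := by
          apply mul_le_mul (mul_le_mul (hb h) e1 (norm_nonneg _) zero_le_one) h1 (norm_nonneg _)
            (by norm_num)
      _ = _ := by ring
  -- the sum
  have hsum : DP N b s * (deriv riemannZeta s + riemannZeta s * PP k c (a * L) s) +
      (1 / (2 * Real.pi)) * ∫ y : ℝ,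
      riemannZeta (s + ((x : ℂ) + (y : ℂ) * I)) * DP N b (s + ((x : ℂ) + (y : ℂ) * I)) *
        (PP k c D₂ (s + ((x : ℂ) + (y : ℂ) * I)) -
         PP k c (a * L) (s + ((x : ℂ) + (y : ℂ) * I))) *
        ker k c D₀ x y =
      ∑ h ∈ Finset.Icc 1 N, b h * (h : ℂ) ^ (-s) * ((deriv riemannZeta s +
        riemannZeta s * PP k c (a * L) s) +
      (1 / (2 * Real.pi)) * ∫ y : ℝ,
      riemannZeta (s + ((x : ℂ) + (y : ℂ) * I)) *
        (PP k c D₂ (s + ((x : ℂ) + (y : ℂ) * I)) -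
         PP k c (a * L) (s + ((x : ℂ) + (y : ℂ) * I))) *
        ker k c (D₀ - Real.log h) x y) := by
    have e1 : ∀ y : ℝ, riemannZeta (s + ((x : ℂ) + (y : ℂ) * I)) *
        DP N b (s + ((x : ℂ) + (y : ℂ) * I)) *
        (PP k c D₂ (s + ((x : ℂ) + (y : ℂ) * I)) -
         PP k c (a * L) (s + ((x : ℂ) + (y : ℂ) * I))) *
        ker k c D₀ x y = ∑ h ∈ Finset.Icc 1 N, b h * (h : ℂ) ^ (-s) *
        (riemannZeta (s + ((x : ℂ) + (y : ℂ) * I)) *
        (PP k c D₂ (s + ((x : ℂ) + (y : ℂ) * I)) -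
         PP k c (a * L) (s + ((x : ℂ) + (y : ℂ) * I))) *
        ker k c (D₀ - Real.log h) x y) := by
      intro y
      unfold DP
      rw [Finset.mul_sum, Finset.sum_mul, Finset.sum_mul]
      refine Finset.sum_congr rfl fun h hh => ?_
      rw [Finset.mem_Icc] at hh
      have hn0 : (h : ℂ) ≠ 0 := by
        have : h ≠ 0 := by omega
        exact_mod_cast this
      rw [Pool.Agent.H448R2.GC.E.ker_shift k c D₀ x y h hh.1, neg_add, Complex.cpow_add _ _ hn0]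
      ring
    have e2 : ∫ y : ℝ, riemannZeta (s + ((x : ℂ) + (y : ℂ) * I)) *
        DP N b (s + ((x : ℂ) + (y : ℂ) * I)) *
        (PP k c D₂ (s + ((x : ℂ) + (y : ℂ) * I)) -
         PP k c (a * L) (s + ((x : ℂ) + (y : ℂ) * I))) *
        ker k c D₀ x y = ∑ h ∈ Finset.Icc 1 N, b h * (h : ℂ) ^ (-s) * ∫ y : ℝ,
        (riemannZeta (s + ((x : ℂ) + (y : ℂ) * I)) *
        (PP k c D₂ (s + ((x : ℂ) + (y : ℂ) * I)) -
         PP k c (a * L) (s + ((x : ℂ) + (y : ℂ) * I))) *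
        ker k c (D₀ - Real.log h) x y) := by
      rw [show (fun y : ℝ => riemannZeta (s + ((x : ℂ) + (y : ℂ) * I)) *
        DP N b (s + ((x : ℂ) + (y : ℂ) * I)) *
        (PP k c D₂ (s + ((x : ℂ) + (y : ℂ) * I)) -
         PP k c (a * L) (s + ((x : ℂ) + (y : ℂ) * I))) *
        ker k c D₀ x y) = fun y : ℝ => ∑ h ∈ Finset.Icc 1 N, b h * (h : ℂ) ^ (-s) *
        (riemannZeta (s + ((x : ℂ) + (y : ℂ) * I)) *
        (PP k c D₂ (s + ((x : ℂ) + (y : ℂ) * I)) -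
         PP k c (a * L) (s + ((x : ℂ) + (y : ℂ) * I))) *
        ker k c (D₀ - Real.log h) x y) from funext e1]
      rw [integral_finsetSum]
      · refine Finset.sum_congr rfl fun h _ => ?_
        rw [integral_const_mul]
      · intro h _
        apply Integrable.const_mul
        have h3 := q_int k hkk3 c (D₀ - Real.log h) (a * L) D₂ x hc0 hx0 s (by linarith)
          (by linarith) (fun _ => 1) continuous_const 1 (fun _ _ => by simp)
        refine h3.congr (Filter.Eventually.of_forall fun y => ?_)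
        simp only
        ring
    rw [e2]
    unfold DP
    rw [Finset.sum_mul, Finset.mul_sum, ← Finset.sum_add_distrib]
    refine Finset.sum_congr rfl fun h _ => ?_
    ring
  rw [hsum]
  refine (norm_sum_le _ _).trans ((Finset.sum_le_sum hone).trans ?_)
  rw [Finset.sum_const, Nat.card_Icc, nsmul_eq_mul, Nat.add_sub_cancel]

end Pool.Agent.Y857.VP
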