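import Pool.Agent.H448R2.GC.E

/-! The exact identity for the von Mangoldt function. -/

open Complex MeasureTheory Filter Topology
open Pool.Agent.H448R2.GC (cu cs ker)

namespace Pool.Agent.Y857.VP

/-- smoothed partial sums of `-ζ'/ζ` -/
noncomputable def PP (k : ℕ) (c D : ℝ) (s : ℂ) : ℂ :=
  ∑ n ∈ Finset.Icc 1 ⌊Real.exp (D + k * c)⌋₊,
    ((ArithmeticFunction.vonMangoldt n : ℝ) : ℂ) * (cu k c (Real.log n - D) : ℂ) * (n : ℂ) ^ (-s)

/-- smoothed partial sums of `-ζ'` -/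
noncomputable def dl (k : ℕ) (c D : ℝ) (s : ℂ) : ℂ :=
  ∑ n ∈ Finset.Icc 1 ⌊Real.exp (D + k * c)⌋₊,
    ((Real.log n : ℝ) : ℂ) * (cu k c (Real.log n - D) : ℂ) * (n : ℂ) ^ (-s)

theorem lam_sum (N : ℕ) (g : ℕ → ℂ) :
    ∑ d ∈ Finset.Icc 1 N, ((ArithmeticFunction.vonMangoldt d : ℝ) : ℂ) *
      ∑ m ∈ Finset.Icc 1 (N / d), g (d * m) = ∑ n ∈ Finset.Icc 1 N, ((Real.log n : ℝ) : ℂ) * g n := by
  have h1 : ∀ d ∈ Finset.Icc 1 N, ((ArithmeticFunction.vonMangoldt d : ℝ) : ℂ) *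
      ∑ m ∈ Finset.Icc 1 (N / d), g (d * m) =
      ∑ n ∈ (Finset.Icc 1 N).filter (fun n => d ∣ n),
        ((ArithmeticFunction.vonMangoldt d : ℝ) : ℂ) * g n := by
    intro d hd
    rw [Finset.mem_Icc] at hd
    rw [Pool.Agent.H448R2.GC.TaskI.inner_reindex N d hd.1 g, Finset.mul_sum]
  rw [Finset.sum_congr rfl h1]
  have h2 : ∑ d ∈ Finset.Icc 1 N, ∑ n ∈ (Finset.Icc 1 N).filter (fun n => d ∣ n),
        ((ArithmeticFunction.vonMangoldt d : ℝ) : ℂ) * g n =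
      ∑ n ∈ Finset.Icc 1 N, ∑ d ∈ n.divisors, ((ArithmeticFunction.vonMangoldt d : ℝ) : ℂ) * g n := by
    refine Finset.sum_comm' ?_
    intro d n
    rw [Finset.mem_Icc, Finset.mem_filter, Finset.mem_Icc, Nat.mem_divisors]
    constructor
    · rintro ⟨hd, hn, hdn⟩
      exact ⟨⟨hdn, by omega⟩, hn⟩
    · rintro ⟨⟨hdn, h0⟩, hn⟩
      refine ⟨⟨Nat.pos_of_dvd_of_pos hdn (by omega), (Nat.le_of_dvd (by omega) hdn).trans hn.2⟩,
        hn, hdn⟩
  rw [h2]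
  refine Finset.sum_congr rfl fun n _ => ?_
  rw [← Finset.sum_mul, ← Complex.ofReal_sum, ArithmeticFunction.vonMangoldt_sum]

theorem lam_identity (k : ℕ) (c D : ℝ) (s : ℂ) :
    ∑ d ∈ Finset.Icc 1 ⌊Real.exp (D + k * c)⌋₊,
      ((ArithmeticFunction.vonMangoldt d : ℝ) : ℂ) * (d : ℂ) ^ (-s) * cs k c (D - Real.log d) s =
      dl k c D s := by
  set N := ⌊Real.exp (D + k * c)⌋₊ with hN
  have h1 : ∀ d ∈ Finset.Icc 1 N,
      ((ArithmeticFunction.vonMangoldt d : ℝ) : ℂ) * (d : ℂ) ^ (-s) * cs k c (D - Real.log d) s =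
      ((ArithmeticFunction.vonMangoldt d : ℝ) : ℂ) * ∑ m ∈ Finset.Icc 1 (N / d),
        (fun n : ℕ => (cu k c (Real.log n - D) : ℂ) * (n : ℂ) ^ (-s)) (d * m) := by
    intro d hd
    rw [Finset.mem_Icc] at hd
    have hd0 : (0 : ℝ) < d := by exact_mod_cast hd.1
    rw [mul_assoc]
    congr 1
    unfold Pool.Agent.H448R2.GC.cs
    have h2 : ⌊Real.exp (D - Real.log d + k * c)⌋₊ = N / d := by
      rw [hN, ← Nat.floor_div_natCast]
      congr 1
      rw [show D - Real.log d + k * c = (D + k * c) - Real.log d by ring, Real.exp_sub,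
        Real.exp_log hd0]
    rw [h2, Finset.mul_sum]
    refine Finset.sum_congr rfl ?_
    intro m hm
    rw [Finset.mem_Icc] at hm
    have hm0 : (0 : ℝ) < m := by exact_mod_cast hm.1
    simp only
    rw [Nat.cast_mul, Nat.cast_mul, Real.log_mul hd0.ne' hm0.ne']
    rw [Complex.natCast_mul_natCast_cpow]
    rw [show Real.log m - (D - Real.log d) = Real.log d + Real.log m - D by ring]
    ring
  rw [Finset.sum_congr rfl h1, lam_sum N
    (fun n : ℕ => (cu k c (Real.log n - D) : ℂ) * (n : ℂ) ^ (-s))]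
  unfold dl
  rw [← hN]
  refine Finset.sum_congr rfl fun n _ => ?_
  ring

/-- extension of the range of summation -/
theorem PP_ext (k : ℕ) (c D : ℝ) (hc : 0 < c) (N : ℕ) (hN : ⌊Real.exp (D + k * c)⌋₊ ≤ N) (w : ℂ) :
    PP k c D w = ∑ n ∈ Finset.Icc 1 N,
      ((ArithmeticFunction.vonMangoldt n : ℝ) : ℂ) * (cu k c (Real.log n - D) : ℂ) *
        (n : ℂ) ^ (-w) := by
  unfold PP
  refine Finset.sum_subset (Finset.Icc_subset_Icc le_rfl hN) ?_
  intro n hn hn'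
  rw [Finset.mem_Icc] at hn hn'
  have h1 : ⌊Real.exp (D + k * c)⌋₊ < n := by
    by_contra h
    exact hn' ⟨hn.1, by omega⟩
  have h2 : Real.exp (D + k * c) < n := (Nat.floor_lt (Real.exp_pos _).le).mp h1
  have h3 : D + k * c < Real.log n := (Real.lt_log_iff_exp_lt (by
    have : (0 : ℝ) < Real.exp (D + k * c) := Real.exp_pos _
    linarith)).mpr h2
  rw [Pool.Agent.H448R2.GC.cu_zero k c _ hc (by linarith)]
  simp

/-- the finite identity -/
theorem coreP (k : ℕ) (hk : 3 ≤ k) (c D₀ D₁ D₂ x : ℝ) (hc : 0 < c) (hx : 0 < x)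
    (hD : D₁ ≤ D₂) (hD2 : D₀ + k * c ≤ D₂) (s : ℂ) (h1 : 1 / 8 ≤ s.re + x)
    (h2 : s.re + x ≤ 7 / 8) :
    (deriv riemannZeta s + riemannZeta s * PP k c D₁ s) +
      (1 / (2 * Real.pi)) * ∫ y : ℝ,
      riemannZeta (s + ((x : ℂ) + (y : ℂ) * I)) *
        (PP k c D₂ (s + ((x : ℂ) + (y : ℂ) * I)) -
         PP k c D₁ (s + ((x : ℂ) + (y : ℂ) * I))) * ker k c D₀ x y =
    (deriv riemannZeta s + dl k c D₀ s) -
    (∑ n ∈ Finset.Icc 1 ⌊Real.exp (D₂ + k * c)⌋₊,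
      ((ArithmeticFunction.vonMangoldt n : ℝ) : ℂ) *
        ((cu k c (Real.log n - D₂) : ℂ) - (cu k c (Real.log n - D₁) : ℂ)) *
        (n : ℂ) ^ (-s) * (cs k c (D₀ - Real.log n) s - (1 / (2 * Real.pi)) * ∫ y : ℝ,
      riemannZeta (s + ((x : ℂ) + (y : ℂ) * I)) * ker k c (D₀ - Real.log n) x y)) -
    ∑ n ∈ Finset.Icc 1 ⌊Real.exp (D₁ + k * c)⌋₊,
      ((ArithmeticFunction.vonMangoldt n : ℝ) : ℂ) * (cu k c (Real.log n - D₁) : ℂ) *
        (n : ℂ) ^ (-s) * (cs k c (D₀ - Real.log n) s - riemannZeta s) := by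
  set N : ℕ := ⌊Real.exp (D₂ + k * c)⌋₊ with hN
  have hkc : 0 ≤ (k : ℝ) * c := by positivity
  have hN1 : ⌊Real.exp (D₁ + k * c)⌋₊ ≤ N :=
    Nat.floor_le_floor (Real.exp_le_exp.mpr (by linarith))
  have hN2 : ⌊Real.exp (D₀ + k * c)⌋₊ ≤ N :=
    Nat.floor_le_floor (Real.exp_le_exp.mpr (by linarith))
  have hfs2 : ∀ w, PP k c D₂ w = ∑ n ∈ Finset.Icc 1 N,
      ((ArithmeticFunction.vonMangoldt n : ℝ) : ℂ) * (cu k c (Real.log n - D₂) : ℂ) *
        (n : ℂ) ^ (-w) := fun w => PP_ext k c D₂ hc N le_rfl w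
  have hfs1 : ∀ w, PP k c D₁ w = ∑ n ∈ Finset.Icc 1 N,
      ((ArithmeticFunction.vonMangoldt n : ℝ) : ℂ) * (cu k c (Real.log n - D₁) : ℂ) *
        (n : ℂ) ^ (-w) := fun w => PP_ext k c D₁ hc N hN1 w
  -- the identity
  have hone : ∑ n ∈ Finset.Icc 1 N,
      ((ArithmeticFunction.vonMangoldt n : ℝ) : ℂ) * (cu k c (Real.log n - D₂) : ℂ) *
        (n : ℂ) ^ (-s) * cs k c (D₀ - Real.log n) s = dl k c D₀ s := by
    rw [← lam_identity k c D₀ s]
    symm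
    have hstep : ∑ d ∈ Finset.Icc 1 ⌊Real.exp (D₀ + k * c)⌋₊,
        ((ArithmeticFunction.vonMangoldt d : ℝ) : ℂ) * (d : ℂ) ^ (-s) * cs k c (D₀ - Real.log d) s =
        ∑ n ∈ Finset.Icc 1 ⌊Real.exp (D₀ + k * c)⌋₊,
      ((ArithmeticFunction.vonMangoldt n : ℝ) : ℂ) * (cu k c (Real.log n - D₂) : ℂ) *
        (n : ℂ) ^ (-s) * cs k c (D₀ - Real.log n) s := by
      refine Finset.sum_congr rfl fun n hn => ?_
      rw [Finset.mem_Icc] at hn
      have h3 : (n : ℝ) ≤ Real.exp (D₀ + k * c) := (Nat.le_floor_iff (Real.exp_pos _).le).mp hn.2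
      have h4 : Real.log n ≤ D₀ + k * c := by
        rw [Real.log_le_iff_le_exp (by exact_mod_cast hn.1)]
        exact h3
      rw [Pool.Agent.H448R2.GC.cu_one k c _ hc (by linarith)]
      push_cast
      ring
    rw [hstep]
    refine Finset.sum_subset (Finset.Icc_subset_Icc le_rfl hN2) ?_
    intro n hn hn'
    rw [Finset.mem_Icc] at hn hn'
    have h3 : ⌊Real.exp (D₀ + k * c)⌋₊ < n := by
      by_contra h
      exact hn' ⟨hn.1, by omega⟩
    have h4 : Real.exp (D₀ + k * c) < n := (Nat.floor_lt (Real.exp_pos _).le).mp h3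
    have h5 : D₀ + k * c < Real.log n := (Real.lt_log_iff_exp_lt (by
      have : (0 : ℝ) < Real.exp (D₀ + k * c) := Real.exp_pos _
      linarith)).mpr h4
    have h6 : cs k c (D₀ - Real.log n) s = 0 := by
      unfold Pool.Agent.H448R2.GC.cs
      have h7 : ⌊Real.exp (D₀ - Real.log n + k * c)⌋₊ = 0 := by
        rw [Nat.floor_eq_zero]
        rw [Real.exp_lt_one_iff]
        linarith
      rw [h7]
      simp
    rw [h6, mul_zero]
  -- second sum extended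
  have hsec : ∑ n ∈ Finset.Icc 1 ⌊Real.exp (D₁ + k * c)⌋₊,
      ((ArithmeticFunction.vonMangoldt n : ℝ) : ℂ) * (cu k c (Real.log n - D₁) : ℂ) *
        (n : ℂ) ^ (-s) * (cs k c (D₀ - Real.log n) s - riemannZeta s) =
      ∑ n ∈ Finset.Icc 1 N,
      ((ArithmeticFunction.vonMangoldt n : ℝ) : ℂ) * (cu k c (Real.log n - D₁) : ℂ) *
        (n : ℂ) ^ (-s) * (cs k c (D₀ - Real.log n) s - riemannZeta s) := by
    refine Finset.sum_subset (Finset.Icc_subset_Icc le_rfl hN1) ?_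
    intro n hn hn'
    rw [Finset.mem_Icc] at hn hn'
    have h3 : ⌊Real.exp (D₁ + k * c)⌋₊ < n := by
      by_contra h
      exact hn' ⟨hn.1, by omega⟩
    have h4 : Real.exp (D₁ + k * c) < n := (Nat.floor_lt (Real.exp_pos _).le).mp h3
    have h5 : D₁ + k * c < Real.log n := (Real.lt_log_iff_exp_lt (by
      have : (0 : ℝ) < Real.exp (D₁ + k * c) := Real.exp_pos _
      linarith)).mpr h4
    rw [Pool.Agent.H448R2.GC.cu_zero k c _ hc (by linarith)]
    simp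
  -- the integral
  have hint : ∫ y : ℝ, riemannZeta (s + ((x : ℂ) + (y : ℂ) * I)) *
        (PP k c D₂ (s + ((x : ℂ) + (y : ℂ) * I)) -
         PP k c D₁ (s + ((x : ℂ) + (y : ℂ) * I))) * ker k c D₀ x y =
      ∑ n ∈ Finset.Icc 1 N, ((ArithmeticFunction.vonMangoldt n : ℝ) : ℂ) *
        ((cu k c (Real.log n - D₂) : ℂ) - (cu k c (Real.log n - D₁) : ℂ)) *
        (n : ℂ) ^ (-s) * ∫ y : ℝ,
      riemannZeta (s + ((x : ℂ) + (y : ℂ) * I)) * ker k c (D₀ - Real.log n) x y := by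
    have hpt : ∀ y : ℝ, riemannZeta (s + ((x : ℂ) + (y : ℂ) * I)) *
        (PP k c D₂ (s + ((x : ℂ) + (y : ℂ) * I)) -
         PP k c D₁ (s + ((x : ℂ) + (y : ℂ) * I))) * ker k c D₀ x y =
        ∑ n ∈ Finset.Icc 1 N, ((ArithmeticFunction.vonMangoldt n : ℝ) : ℂ) *
        ((cu k c (Real.log n - D₂) : ℂ) - (cu k c (Real.log n - D₁) : ℂ)) *
        (n : ℂ) ^ (-s) *
        (riemannZeta (s + ((x : ℂ) + (y : ℂ) * I)) * ker k c (D₀ - Real.log n) x y) := by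
      intro y
      rw [hfs2, hfs1, ← Finset.sum_sub_distrib, Finset.mul_sum, Finset.sum_mul]
      refine Finset.sum_congr rfl fun n hn => ?_
      rw [Finset.mem_Icc] at hn
      have hn0 : (n : ℂ) ≠ 0 := by
        have : n ≠ 0 := by omega
        exact_mod_cast this
      rw [Pool.Agent.H448R2.GC.E.ker_shift k c D₀ x y n hn.1, neg_add, Complex.cpow_add _ _ hn0]
      ring
    rw [show (fun y : ℝ => riemannZeta (s + ((x : ℂ) + (y : ℂ) * I)) *
        (PP k c D₂ (s + ((x : ℂ) + (y : ℂ) * I)) -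
         PP k c D₁ (s + ((x : ℂ) + (y : ℂ) * I))) * ker k c D₀ x y) =
        fun y : ℝ => ∑ n ∈ Finset.Icc 1 N, ((ArithmeticFunction.vonMangoldt n : ℝ) : ℂ) *
        ((cu k c (Real.log n - D₂) : ℂ) - (cu k c (Real.log n - D₁) : ℂ)) *
        (n : ℂ) ^ (-s) *
        (riemannZeta (s + ((x : ℂ) + (y : ℂ) * I)) * ker k c (D₀ - Real.log n) x y) from
      funext hpt]
    rw [integral_finsetSum]
    · refine Finset.sum_congr rfl fun n _ => ?_
      rw [integral_const_mul]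
    · intro n _
      exact (Pool.Agent.H448R2.GC.E.kz_int k hk c (D₀ - Real.log n) x hc hx s h1 h2).const_mul _
  rw [hint, hsec, hfs1 s]
  rw [← hone, Finset.mul_sum, Finset.mul_sum]
  rw [sub_sub, ← Finset.sum_add_distrib, add_sub_assoc, ← Finset.sum_sub_distrib, add_assoc,
    ← Finset.sum_add_distrib]
  congr 1
  refine Finset.sum_congr rfl fun n _ => ?_
  ring

end Pool.Agent.Y857.VP
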