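import Pool.Agent.Y857.VP.Rep0

/-! The error representation for the von Mangoldt function. -/

open Complex MeasureTheory Filter Topology
open Pool.Agent.H448R2.GC (cu cs ker)

namespace Pool.Agent.Y857.VP

/-- `cs_repr` without the lower bound for `D` -/
theorem cs_repr' (η B K : ℝ) (hη : 0 < η) (hB : 0 < B) : ∃ k₀ : ℕ, ∀ k : ℕ, k₀ ≤ k → ∃ T₀ : ℝ, ∀ T : ℝ,
    T₀ ≤ T → ∀ D : ℝ, D ≤ B * Real.log T → ∀ s : ℂ,
    1 / 4 ≤ s.re → s.re ≤ 3 / 4 → T / 8 ≤ s.im → s.im ≤ 8 * T → ∀ x : ℝ, 1 / Real.log T ≤ x →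
    x ≤ 1 / 8 →
    ‖cs k (η * Real.log T / k) D s - (1 / (2 * Real.pi)) * ∫ y : ℝ,
      riemannZeta (s + ((x : ℂ) + (y : ℂ) * I)) * ker k (η * Real.log T / k) D x y‖ ≤ T ^ (-K) := by
  obtain ⟨N, hN⟩ := Pool.Agent.H448R2.GC.S2.G_bdd 0
  obtain ⟨k₂, hk₂⟩ := exists_nat_ge (2 * (B + η + K))
  refine ⟨max N (max k₂ 1), fun k hk => ?_⟩
  have hkN : N ≤ k := le_trans (le_max_left _ _) hk
  have hk2 : k₂ ≤ k := le_trans (le_trans (le_max_left _ _) (le_max_right _ _)) hk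
  have hk3 : 1 ≤ k := le_trans (le_trans (le_max_right _ _) (le_max_right _ _)) hk
  obtain ⟨T₂, hT₂, h2⟩ := Pool.Agent.H448R2.GC.S2.res_small η B K hη hB k hk3
    (le_trans hk₂ (by exact_mod_cast hk2))
  refine ⟨T₂, ?_⟩
  intro T hT D hD2 s hs1 hs2 hs3 hs4 x hx1 hx2
  have hT8 : 8 ≤ T := le_trans hT₂ hT
  have hT0 : 0 < T := by linarith
  have hL : 0 < Real.log T := Real.log_pos (by linarith)
  have hx0 : 0 < x := lt_of_lt_of_le (by positivity) hx1
  have hk0 : (0 : ℝ) < k := by exact_mod_cast hk3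
  set c := η * Real.log T / k with hc
  have hcpos : 0 < c := by positivity
  obtain ⟨C, hC⟩ := hN k hkN c D hcpos s hs1 hs2
  have hshift := Pool.Agent.H448R2.GC.shift1 (Pool.Agent.H448R2.GC.S2.G k c D s) 0 (1 - s) x 1 C
    (Pool.Agent.H448R2.GC.S2.G_diff k c D s)
    (by simpa using hx0) (by simp; linarith) (by simp; linarith)
    (fun z hz1 hz2 => hC z (by linarith) hz2)
  have e1 : (fun y : ℝ => Pool.Agent.H448R2.GC.S2.G k c D s (((1 : ℝ) : ℂ) + (y : ℂ) * I) /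
      (((((1 : ℝ) : ℂ) + (y : ℂ) * I) - 0) * ((((1 : ℝ) : ℂ) + (y : ℂ) * I) - (1 - s)))) =
      fun y : ℝ => riemannZeta (s + (((1 : ℝ) : ℂ) + (y : ℂ) * I)) * ker k c D 1 y := by
    funext y
    exact Pool.Agent.H448R2.GC.S2.G_line k c D 1 y s (by norm_num) (by intro h; linarith)
  have e2 : (fun y : ℝ => Pool.Agent.H448R2.GC.S2.G k c D s ((x : ℂ) + (y : ℂ) * I) /
      ((((x : ℂ) + (y : ℂ) * I) - 0) * (((x : ℂ) + (y : ℂ) * I) - (1 - s)))) =
      fun y : ℝ => riemannZeta (s + ((x : ℂ) + (y : ℂ) * I)) * ker k c D x y := by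
    funext y
    exact Pool.Agent.H448R2.GC.S2.G_line k c D x y s hx0.ne' (by intro h; linarith)
  rw [e1, e2] at hshift
  have hline := Pool.Agent.H448R2.GC.cs_line k hk3 c D 1 hcpos one_pos s (by linarith)
  have hpi : (2 * (Real.pi : ℂ)) ≠ 0 := by
    have := Real.pi_ne_zero
    simp [this]
  have hkey : cs k c D s - (1 / (2 * (Real.pi : ℂ))) * ∫ y : ℝ,
        riemannZeta (s + ((x : ℂ) + (y : ℂ) * I)) * ker k c D x y =
        Pool.Agent.H448R2.GC.S2.G k c D s (1 - s) / ((1 - s) - 0) := by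
    rw [hline]
    rw [sub_eq_iff_eq_add] at hshift
    rw [hshift]
    generalize (∫ y : ℝ, riemannZeta (s + ((x : ℂ) + (y : ℂ) * I)) * ker k c D x y) = J
    generalize Pool.Agent.H448R2.GC.S2.G k c D s (1 - s) / ((1 - s) - 0) = R
    field_simp
    ring
  rw [hkey]
  exact h2 T hT D hD2 s hs1 hs2 hs3

theorem cs_hasDeriv (k : ℕ) (c D : ℝ) (s : ℂ) : HasDerivAt (cs k c D) (-dl k c D s) s := by
  have h : HasDerivAt (fun w : ℂ => ∑ m ∈ Finset.Icc 1 ⌊Real.exp (D + k * c)⌋₊,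
      (cu k c (Real.log m - D) : ℂ) * (m : ℂ) ^ (-w))
      (∑ m ∈ Finset.Icc 1 ⌊Real.exp (D + k * c)⌋₊,
      (cu k c (Real.log m - D) : ℂ) * ((m : ℂ) ^ (-s) * Complex.log m * (-1))) s := by
    apply HasDerivAt.fun_sum
    intro m hm
    rw [Finset.mem_Icc] at hm
    have hm0 : (m : ℂ) ≠ 0 := by
      have : m ≠ 0 := by omega
      exact_mod_cast this
    apply HasDerivAt.const_mul
    exact (hasDerivAt_neg s).const_cpow (Or.inl hm0)
  have e : ∑ m ∈ Finset.Icc 1 ⌊Real.exp (D + k * c)⌋₊,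
      (cu k c (Real.log m - D) : ℂ) * ((m : ℂ) ^ (-s) * Complex.log m * (-1)) = -dl k c D s := by
    unfold dl
    rw [← Finset.sum_neg_distrib]
    refine Finset.sum_congr rfl fun m _ => ?_
    rw [← Complex.natCast_log]
    ring
  rw [e] at h
  exact h

theorem dl_zeta (η B K : ℝ) (hη : 0 < η) (hB : 0 < B) : ∃ k₀ : ℕ, ∀ k : ℕ, k₀ ≤ k → ∃ T₀ : ℝ, ∀ T : ℝ,
    T₀ ≤ T → ∀ D : ℝ, (1 + 2 * η) * Real.log T ≤ D → D ≤ B * Real.log T → ∀ s : ℂ,
    5 / 16 ≤ s.re → s.re ≤ 11 / 16 → T / 4 ≤ s.im → s.im ≤ 4 * T →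
    ‖deriv riemannZeta s + dl k (η * Real.log T / k) D s‖ ≤ 16 * T ^ (-K) := by
  obtain ⟨k₀, h⟩ := Pool.Agent.H448R2.GC.cs_zeta η B K hη hB
  refine ⟨k₀, fun k hk => ?_⟩
  obtain ⟨T₀, hT₀⟩ := h k hk
  refine ⟨max T₀ 8, fun T hT D hD1 hD2 s hs1 hs2 hs3 hs4 => ?_⟩
  have hTT : T₀ ≤ T := (le_max_left _ _).trans hT
  have hT8 : 8 ≤ T := (le_max_right _ _).trans hT
  set c := η * Real.log T / k
  have hne : ∀ w : ℂ, w.re ≤ 3 / 4 → w ≠ 1 := by
    intro w hw h1
    rw [h1] at hw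
    norm_num at hw
  have hd : deriv (fun w => cs k c D w - riemannZeta w) s = -(deriv riemannZeta s + dl k c D s) := by
    have h1 := (cs_hasDeriv k c D s).sub
      (differentiableAt_riemannZeta (hne s (by linarith))).hasDerivAt
    have h2 := h1.deriv
    have h3 : (cs k c D - riemannZeta) = fun w => cs k c D w - riemannZeta w := rfl
    rw [h3] at h2
    rw [h2]
    ring
  have hreg : ∀ w ∈ Metric.closedBall s (1 / 16), 1 / 4 ≤ w.re ∧ w.re ≤ 3 / 4 ∧ T / 8 ≤ w.im ∧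
      w.im ≤ 8 * T := by
    intro w hw
    rw [Metric.mem_closedBall, dist_eq_norm] at hw
    have h1 := (Complex.abs_re_le_norm (w - s)).trans hw
    have h2 := (Complex.abs_im_le_norm (w - s)).trans hw
    rw [Complex.sub_re, abs_le] at h1
    rw [Complex.sub_im, abs_le] at h2
    refine ⟨by linarith [h1.1], by linarith [h1.2], by linarith [h2.1], by linarith [h2.2]⟩
  have hb := Complex.norm_deriv_le_of_forall_mem_sphere_norm_le (c := s) (R := 1 / 16)
    (C := T ^ (-K)) (f := fun w => cs k c D w - riemannZeta w) (by norm_num) ?_ ?_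
  · rw [hd, norm_neg] at hb
    calc _ ≤ T ^ (-K) / (1 / 16) := hb
      _ = _ := by ring
  · apply DifferentiableOn.diffContOnCl
    rw [closure_ball _ (by norm_num)]
    intro w hw
    have hw' := hreg w hw
    exact ((cs_hasDeriv k c D w).differentiableAt.sub
      (differentiableAt_riemannZeta (hne w hw'.2.1))).differentiableWithinAt
  · intro w hw
    have hw' := hreg w (Metric.sphere_subset_closedBall hw)
    exact hT₀ T hTT D hD1 hD2 w hw'.1 hw'.2.1 hw'.2.2.1 hw'.2.2.2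

theorem vM_le (n : ℕ) (hn : 1 ≤ n) : ArithmeticFunction.vonMangoldt n ≤ n := by
  have h1 := ArithmeticFunction.vonMangoldt_le_log (n := n)
  have hn0 : (0 : ℝ) < n := by exact_mod_cast hn
  have h2 := Real.log_le_sub_one_of_pos hn0
  linarith

/-- the error representation -/
theorem err_repr (a η B K : ℝ) (ha : 1 < a) (hη : 0 < η) (hB : a + 1 + 3 * η ≤ B) :
    ∃ k₀ : ℕ, ∀ k : ℕ, k₀ ≤ k → ∃ T₀ : ℝ, ∀ T : ℝ,
    T₀ ≤ T → ∀ D₀ D₂ : ℝ, (a + 1 + 3 * η) * Real.log T ≤ D₀ → D₀ + η * Real.log T ≤ D₂ →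
    D₂ ≤ B * Real.log T → ∀ s : ℂ, 5 / 16 ≤ s.re → s.re ≤ 11 / 16 → T / 4 ≤ s.im → s.im ≤ 4 * T →
    ∀ x : ℝ, 1 / Real.log T ≤ x → x ≤ 1 / 8 →
    ‖(deriv riemannZeta s + riemannZeta s * PP k (η * Real.log T / k) (a * Real.log T) s) +
      (1 / (2 * Real.pi)) * ∫ y : ℝ,
      riemannZeta (s + ((x : ℂ) + (y : ℂ) * I)) *
        (PP k (η * Real.log T / k) D₂ (s + ((x : ℂ) + (y : ℂ) * I)) -
         PP k (η * Real.log T / k) (a * Real.log T) (s + ((x : ℂ) + (y : ℂ) * I))) *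
        ker k (η * Real.log T / k) D₀ x y‖ ≤ T ^ (-K) := by
  have hB0 : 0 < B := by linarith
  obtain ⟨k1, hk1⟩ := Pool.Agent.H448R2.GC.cs_zeta η B (K + 2 * a + 2 * η + 4) hη hB0
  obtain ⟨k2, hk2⟩ := cs_repr' η B (K + 2 * B + 2 * η + 4) hη hB0
  obtain ⟨k4, hk4⟩ := dl_zeta η B (K + 6) hη hB0
  refine ⟨max (max (max k1 k2) k4) 3, fun k hk => ?_⟩
  have hkk1 : k1 ≤ k := (le_max_left _ _).trans ((le_max_left _ _).trans ((le_max_left _ _).trans hk))
  have hkk2 : k2 ≤ k := (le_max_right _ _).trans ((le_max_left _ _).trans ((le_max_left _ _).trans hk))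
  have hkk4 : k4 ≤ k := (le_max_right _ _).trans ((le_max_left _ _).trans hk)
  have hkk3 : 3 ≤ k := (le_max_right _ _).trans hk
  obtain ⟨T1, hT1⟩ := hk1 k hkk1
  obtain ⟨T2, hT2⟩ := hk2 k hkk2
  obtain ⟨T4, hT4⟩ := hk4 k hkk4
  refine ⟨max (max (max T1 T2) T4) (Real.exp 1),
    fun T hT D₀ D₂ hD0 hD02 hD2 s hs1 hs2 hs3 hs4 x hx1 hx2 => ?_⟩
  have hTT1 : T1 ≤ T := (le_max_left _ _).trans ((le_max_left _ _).trans ((le_max_left _ _).trans hT))
  have hTT2 : T2 ≤ T := (le_max_right _ _).trans ((le_max_left _ _).trans ((le_max_left _ _).trans hT))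
  have hTT4 : T4 ≤ T := (le_max_right _ _).trans ((le_max_left _ _).trans hT)
  have hTe : Real.exp 1 ≤ T := (le_max_right _ _).trans hT
  have hT0 : 0 < T := lt_of_lt_of_le (Real.exp_pos _) hTe
  set L : ℝ := Real.log T with hL
  have hL1 : 1 ≤ L := (Real.le_log_iff_exp_le hT0).mpr hTe
  have hL0 : 0 < L := by linarith
  have hk0 : (0 : ℝ) < k := by
    have : 0 < k := by omega
    exact_mod_cast this
  set c : ℝ := η * L / k with hc
  have hc0 : 0 < c := by positivity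
  have hkc : (k : ℝ) * c = η * L := by rw [hc]; field_simp
  have hηL : 0 < η * L := by positivity
  have hx0 : 0 < x := lt_of_lt_of_le (by positivity) hx1
  have hD12 : a * L ≤ D₂ := by nlinarith
  have hcore := coreP k hkk3 c D₀ (a * L) D₂ x hc0 hx0 hD12 (by rw [hkc]; exact hD02) s
    (by linarith) (by linarith)
  rw [hcore]
  -- bounds
  have hterm : ∀ n : ℕ, 1 ≤ n → ∀ (b : ℂ), ‖b‖ ≤ 1 →
      ‖((ArithmeticFunction.vonMangoldt n : ℝ) : ℂ) * b * (n : ℂ) ^ (-s)‖ ≤ n := by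
    intro n hn b hb
    rw [norm_mul, norm_mul]
    have e1 : ‖((ArithmeticFunction.vonMangoldt n : ℝ) : ℂ)‖ ≤ n := by
      rw [Complex.norm_real, Real.norm_eq_abs, abs_of_nonneg ArithmeticFunction.vonMangoldt_nonneg]
      exact vM_le n hn
    have e2 : ‖(n : ℂ) ^ (-s)‖ ≤ 1 := by
      rw [Complex.norm_natCast_cpow_of_pos (by omega)]
      apply Real.rpow_le_one_of_one_le_of_nonpos
      · exact_mod_cast hn
      · rw [Complex.neg_re]; linarith
    calc ‖((ArithmeticFunction.vonMangoldt n : ℝ) : ℂ)‖ * ‖b‖ * ‖(n : ℂ) ^ (-s)‖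
        ≤ n * 1 * 1 := by gcongr
      _ = n := by ring
  have hcu0 : ∀ r, 0 ≤ cu k c r := fun r => Pool.Agent.H448R2.GC.cu_nonneg k c r hc0
  have hcu1 : ∀ r, cu k c r ≤ 1 := fun r => Pool.Agent.H448R2.GC.cu_le_one k c r hc0
  have hexpT : ∀ u : ℝ, T ^ u = Real.exp (u * L) := fun u => by
    rw [Real.rpow_def_of_pos hT0, mul_comm]
  have hsum1 : ‖∑ n ∈ Finset.Icc 1 ⌊Real.exp (D₂ + k * c)⌋₊,
      ((ArithmeticFunction.vonMangoldt n : ℝ) : ℂ) *
        ((cu k c (Real.log n - D₂) : ℂ) - (cu k c (Real.log n - a * L) : ℂ)) *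
        (n : ℂ) ^ (-s) * (cs k c (D₀ - Real.log n) s -
          (1 / (2 * Real.pi)) * ∫ y : ℝ,
      riemannZeta (s + ((x : ℂ) + (y : ℂ) * I)) *
        ker k c (D₀ - Real.log n) x y)‖ ≤
      Real.exp (-(K + 4) * L) := by
    have hb : ∀ n ∈ Finset.Icc 1 ⌊Real.exp (D₂ + k * c)⌋₊,
        ‖((ArithmeticFunction.vonMangoldt n : ℝ) : ℂ) *
        ((cu k c (Real.log n - D₂) : ℂ) - (cu k c (Real.log n - a * L) : ℂ)) *
        (n : ℂ) ^ (-s) * (cs k c (D₀ - Real.log n) s -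
          (1 / (2 * Real.pi)) * ∫ y : ℝ,
      riemannZeta (s + ((x : ℂ) + (y : ℂ) * I)) *
        ker k c (D₀ - Real.log n) x y)‖ ≤ Real.exp (D₂ + k * c) * T ^ (-(K + 2 * B + 2 * η + 4)) := by
      intro n hn
      rw [Finset.mem_Icc] at hn
      have hn1 : (n : ℝ) ≤ Real.exp (D₂ + k * c) :=
        (Nat.le_floor_iff (Real.exp_pos _).le).mp hn.2
      have hn3 : 0 ≤ Real.log n := Real.log_natCast_nonneg n
      rw [norm_mul]
      have e1 := hT2 T hTT2 (D₀ - Real.log n) (by rw [← hL]; nlinarith) s (by linarith)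
        (by linarith) (by linarith) (by linarith) x hx1 hx2
      rw [← hL, ← hc] at e1
      have e2 := hterm n hn.1 ((cu k c (Real.log n - D₂) : ℂ) -
        (cu k c (Real.log n - a * L) : ℂ)) (by
          rw [← Complex.ofReal_sub, Complex.norm_real, Real.norm_eq_abs, abs_le]
          have := hcu0 (Real.log n - D₂)
          have := hcu1 (Real.log n - D₂)
          have := hcu0 (Real.log n - a * L)
          have := hcu1 (Real.log n - a * L)
          constructor <;> linarith)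
      exact mul_le_mul (e2.trans hn1) e1 (norm_nonneg _) (Real.exp_pos _).le
    refine (norm_sum_le _ _).trans ((Finset.sum_le_sum hb).trans ?_)
    rw [Finset.sum_const, Nat.card_Icc, nsmul_eq_mul, Nat.add_sub_cancel]
    have hfl : (⌊Real.exp (D₂ + k * c)⌋₊ : ℝ) ≤ Real.exp (D₂ + k * c) :=
      Nat.floor_le (Real.exp_pos _).le
    rw [hexpT]
    calc (⌊Real.exp (D₂ + k * c)⌋₊ : ℝ) *
          (Real.exp (D₂ + k * c) * Real.exp (-(K + 2 * B + 2 * η + 4) * L))
        ≤ Real.exp (D₂ + k * c) * (Real.exp (D₂ + k * c) * Real.exp (-(K + 2 * B + 2 * η + 4) * L)) := by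
          gcongr
      _ = Real.exp (2 * (D₂ + k * c) + -(K + 2 * B + 2 * η + 4) * L) := by
          rw [← Real.exp_add, ← Real.exp_add]
          congr 1
          ring
      _ ≤ Real.exp (-(K + 4) * L) := by
          apply Real.exp_le_exp.2
          rw [hkc]
          nlinarith
  have hsum2 : ‖∑ n ∈ Finset.Icc 1 ⌊Real.exp (a * L + k * c)⌋₊,
      ((ArithmeticFunction.vonMangoldt n : ℝ) : ℂ) * (cu k c (Real.log n - a * L) : ℂ) *
        (n : ℂ) ^ (-s) * (cs k c (D₀ - Real.log n) s - riemannZeta s)‖ ≤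
      Real.exp (-(K + 4) * L) := by
    have hb : ∀ n ∈ Finset.Icc 1 ⌊Real.exp (a * L + k * c)⌋₊,
        ‖((ArithmeticFunction.vonMangoldt n : ℝ) : ℂ) * (cu k c (Real.log n - a * L) : ℂ) *
        (n : ℂ) ^ (-s) * (cs k c (D₀ - Real.log n) s - riemannZeta s)‖ ≤
        Real.exp (a * L + k * c) * T ^ (-(K + 2 * a + 2 * η + 4)) := by
      intro n hn
      rw [Finset.mem_Icc] at hn
      have hn1 : (n : ℝ) ≤ Real.exp (a * L + k * c) :=
        (Nat.le_floor_iff (Real.exp_pos _).le).mp hn.2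
      have hn2 : Real.log n ≤ a * L + k * c := by
        rw [Real.log_le_iff_le_exp (by exact_mod_cast hn.1)]
        exact hn1
      have hn3 : 0 ≤ Real.log n := Real.log_natCast_nonneg n
      rw [hkc] at hn2
      rw [norm_mul]
      have e1 := hT1 T hTT1 (D₀ - Real.log n) (by rw [← hL]; nlinarith)
        (by rw [← hL]; nlinarith) s (by linarith) (by linarith) (by linarith) (by linarith)
      rw [← hL, ← hc] at e1
      have e2 := hterm n hn.1 (cu k c (Real.log n - a * L) : ℂ) (by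
          rw [Complex.norm_real, Real.norm_eq_abs, abs_le]
          have := hcu0 (Real.log n - a * L)
          have := hcu1 (Real.log n - a * L)
          constructor <;> linarith)
      exact mul_le_mul (e2.trans hn1) e1 (norm_nonneg _) (Real.exp_pos _).le
    refine (norm_sum_le _ _).trans ((Finset.sum_le_sum hb).trans ?_)
    rw [Finset.sum_const, Nat.card_Icc, nsmul_eq_mul, Nat.add_sub_cancel]
    have hfl : (⌊Real.exp (a * L + k * c)⌋₊ : ℝ) ≤
        Real.exp (a * L + k * c) := Nat.floor_le (Real.exp_pos _).le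
    rw [hexpT]
    calc (⌊Real.exp (a * L + k * c)⌋₊ : ℝ) *
          (Real.exp (a * L + k * c) * Real.exp (-(K + 2 * a + 2 * η + 4) * L))
        ≤ Real.exp (a * L + k * c) *
          (Real.exp (a * L + k * c) * Real.exp (-(K + 2 * a + 2 * η + 4) * L)) := by
          gcongr
      _ = Real.exp (-(K + 4) * L) := by
          rw [← Real.exp_add, ← Real.exp_add, hkc]
          congr 1
          ring
  have hd := hT4 T hTT4 D₀ (by rw [← hL]; nlinarith) (by rw [← hL]; linarith) s hs1 hs2 hs3 hs4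
  rw [← hL, ← hc] at hd
  refine (norm_sub_le _ _).trans ?_
  refine (add_le_add (norm_sub_le _ _) le_rfl).trans ?_
  refine (add_le_add (add_le_add hd hsum1) hsum2).trans ?_
  rw [hexpT, hexpT]
  have e1 : Real.exp (-(K + 6) * L) ≤ Real.exp (-K * L) * Real.exp (-6) := by
    rw [← Real.exp_add]
    apply Real.exp_le_exp.mpr
    nlinarith
  have e2 : Real.exp (-(K + 4) * L) ≤ Real.exp (-K * L) * Real.exp (-4) := by
    rw [← Real.exp_add]
    apply Real.exp_le_exp.mpr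
    nlinarith
  have e3 : Real.exp (-6) ≤ 1 / 64 := by
    rw [Real.exp_neg, inv_le_comm₀ (Real.exp_pos _) (by norm_num)]
    have h1 : Real.exp 6 = (Real.exp 1) ^ 6 := by rw [← Real.exp_nat_mul]; norm_num
    have h2 : (2 : ℝ) ≤ Real.exp 1 := by
      have := Real.add_one_le_exp (1 : ℝ)
      linarith
    rw [h1]
    calc (1 / 64 : ℝ)⁻¹ = 2 ^ 6 := by norm_num
      _ ≤ (Real.exp 1) ^ 6 := pow_le_pow_left₀ (by norm_num) h2 6
  have e4 : Real.exp (-4) ≤ 1 / 16 := by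
    rw [Real.exp_neg, inv_le_comm₀ (Real.exp_pos _) (by norm_num)]
    have h1 : Real.exp 4 = (Real.exp 1) ^ 4 := by rw [← Real.exp_nat_mul]; norm_num
    have h2 : (2 : ℝ) ≤ Real.exp 1 := by
      have := Real.add_one_le_exp (1 : ℝ)
      linarith
    rw [h1]
    calc (1 / 16 : ℝ)⁻¹ = 2 ^ 4 := by norm_num
      _ ≤ (Real.exp 1) ^ 4 := pow_le_pow_left₀ (by norm_num) h2 4
  have e5 : 0 < Real.exp (-K * L) := Real.exp_pos _
  have e6 := mul_le_mul_of_nonneg_left e3 e5.le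
  have e7 := mul_le_mul_of_nonneg_left e4 e5.le
  linarith

end Pool.Agent.Y857.VP
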