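import Pool.Agent.W655.SD.SC2
import Pool.Agent.W261.SD.SSq
import Pool.Agent.W688.SD.SHar

/-! The logarithmic derivative of zeta to the left of the critical line at good points. -/

set_option autoImplicit false

namespace Pool.Agent.Y857.VP

open Complex Filter Topology MeasureTheory Set
open Pool.Agent.H24R2.JP (XX HH Om)
open Pool.Agent.H24R2.DZ

theorem sc2 : SC2 := Pool.Agent.W655.SD.sc2 Pool.Agent.W261.SD.ssq Pool.Agent.W688.SD.shar

/-- the logarithmic derivative of `XX` -/
theorem ld_XX {w : ℂ} (hw : 0 < w.im) (h1 : DifferentiableAt ℂ HH w) (h2 : HH w ≠ 0)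
    (h3 : riemannZeta (1 / 2 + w) ≠ 0) :
    logDeriv XX w = logDeriv HH w + logDeriv riemannZeta (1 / 2 + w) := by
  have e1 : XX w = HH w * riemannZeta (1 / 2 + w) := Pool.Agent.H24R2.JP.zetaS.1 w hw
  have hne : (1 / 2 + w : ℂ) ≠ 1 := by
    intro he
    have := congrArg Complex.im he
    simp at this
    linarith
  have hd : DifferentiableAt ℂ riemannZeta (1 / 2 + w) := differentiableAt_riemannZeta hne
  have hd2 : DifferentiableAt ℂ (fun v : ℂ => riemannZeta (1 / 2 + v)) w :=
    hd.comp w ((differentiableAt_const _).add differentiableAt_id)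
  have hev : XX =ᶠ[𝓝 w] fun v => HH v * riemannZeta (1 / 2 + v) := by
    have : ∀ᶠ v : ℂ in 𝓝 w, 0 < v.im := (isOpen_lt continuous_const continuous_im).mem_nhds hw
    filter_upwards [this] with v hv
    exact Pool.Agent.H24R2.JP.zetaS.1 v hv
  have e2 : logDeriv XX w = logDeriv (fun v => HH v * riemannZeta (1 / 2 + v)) w := by
    rw [logDeriv_apply, logDeriv_apply, hev.deriv_eq, hev.eq_of_nhds]
  rw [e2, logDeriv_mul (f := HH) (g := fun v => riemannZeta (1 / 2 + v)) w h2 h3 h1 hd2]
  congr 1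
  rw [logDeriv_apply, logDeriv_apply, deriv_comp_const_add]

/-- the symmetry for the logarithmic derivative -/
theorem ld_symm {F : ℂ → ℂ}
    (hs : ∀ z : ℂ, F (-((starRingEnd ℂ) z)) = (starRingEnd ℂ) (F z)) :
    logDeriv F (-1) = -(starRingEnd ℂ) (logDeriv F 1) := by
  have h1 : ∀ z : ℂ, F (-z) = (starRingEnd ℂ) (F ((starRingEnd ℂ) z)) := by
    intro z
    have := hs ((starRingEnd ℂ) z)
    rwa [Complex.conj_conj] at this
  have h5 : (fun z => F (-z)) = (starRingEnd ℂ) ∘ F ∘ (starRingEnd ℂ) := funext h1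
  have h2 : deriv (fun z => F (-z)) 1 = -(deriv F (-1)) := deriv_comp_neg F 1
  have h3 : deriv (fun z => F (-z)) 1 = (starRingEnd ℂ) (deriv F 1) := by
    rw [h5, deriv_conj_conj]
    simp
  rw [h3] at h2
  have h7 := h1 1
  rw [map_one] at h7
  rw [logDeriv_apply, logDeriv_apply, h7, map_div₀, h2]
  ring

/-- At a good point `ζ' / ζ` is close to `- log T` to the left of the critical line. -/
theorem good_pt (η : ℝ) (hη : 0 < η) : ∃ η1 ε1 : ℝ, 0 < η1 ∧ 0 < ε1 ∧ ∀ θ : ℝ, 0 < θ → θ ≤ 1 / 200 →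
    ∃ a0 K T0 : ℝ, 0 < K ∧ ∀ T a t : ℝ, T0 ≤ T → a0 ≤ a → 0 < a → a ≤ Real.log T / 200 →
    T / 2 ≤ t → t ≤ 3 * T → Gd θ η1 ε1 T a t →
    ‖riemannZeta (1 / 2 + (I * t - ra T a)) +
        deriv riemannZeta (1 / 2 + (I * t - ra T a)) / (Real.log T : ℂ)‖ ≤
      (η + K / Real.log T) * ‖riemannZeta (1 / 2 + (I * t - ra T a))‖ := by
  obtain ⟨η1, ε1, h1, h2, h⟩ := sc2 η hη
  refine ⟨η1, ε1, h1, h2, fun θ hθ hθ2 => ?_⟩
  obtain ⟨a0, T1, hN⟩ := h θ hθ hθ2
  obtain ⟨K, hK1, hH⟩ := Pool.Agent.H986R2.K4.hh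
  obtain ⟨T2, hT2, hH⟩ := hH 1 le_rfl
  refine ⟨a0, K + 1, max (max T1 (2 * T2)) 3, by linarith, fun T a t hT ha ha0 haL ht1 ht2 hG => ?_⟩
  simp only [max_le_iff] at hT
  obtain ⟨⟨hTT1, hTT2⟩, hT3⟩ := hT
  have hTpos : 0 < T := by linarith
  set L := Real.log T with hL
  have hL1 : 1 ≤ L := by
    rw [hL, Real.le_log_iff_exp_le hTpos]
    have := Real.exp_one_lt_d9
    linarith
  have hL0 : 0 < L := by linarith
  set r := ra T a with hr
  have hre : r = a / (L / 2) := rfl
  have hr0 : 0 < r := by rw [hre]; positivity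
  have hr1 : r ≤ 1 := by
    rw [hre, div_le_one (by positivity)]
    linarith
  have hNN := hN T a t hTT1 ha haL ht1 ht2 hG
  set F : ℂ → ℂ := fun z => XX (I * t + ra T a * z) with hF
  obtain ⟨hF1, hF2⟩ := hNN.far 1 (by norm_num) (by norm_num)
  have hsym := ld_symm hNN.symm
  have hXd : Differentiable ℂ XX := by
    have h : Differentiable ℂ completedRiemannZeta₀ := differentiable_completedZeta₀
    unfold Pool.Agent.H24R2.JP.XX
    fun_prop
  have hFm : F (-1) ≠ 0 := by
    have := hNN.symm 1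
    rw [map_one] at this
    rw [this]
    exact (map_ne_zero _).2 hF1
  -- the logarithmic derivative of `F` at `-1`
  have hld : logDeriv F (-1) = (r : ℂ) * logDeriv XX (I * t - r) := by
    have e1 : F = fun z => XX ((r : ℂ) * z + I * t) := by
      rw [hF]
      ext z
      rw [add_comm]
    have e2 : HasDerivAt F (deriv XX (I * t - r) * r) (-1) := by
      have e3 : HasDerivAt XX (deriv XX (I * t - r)) ((r : ℂ) * (-1) + I * t) := by
        have : (r : ℂ) * (-1) + I * t = I * t - r := by ring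
        rw [this]
        exact (hXd _).hasDerivAt
      have e4 : HasDerivAt (fun z : ℂ => (r : ℂ) * z + I * t) r (-1) := by
        simpa using ((hasDerivAt_id (-1 : ℂ)).const_mul (r : ℂ)).add_const (I * (t : ℂ))
      rw [e1]
      exact HasDerivAt.comp (-1 : ℂ) e3 e4
    have e5 : F (-1) = XX (I * t - r) := by
      rw [e1]
      simp only
      congr 1
      ring
    rw [logDeriv_apply, logDeriv_apply, e2.deriv, e5]
    ring
  have hXm : XX (I * t - r) ≠ 0 := by
    have e5 : F (-1) = XX (I * t - r) := by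
      rw [hF]
      simp only
      congr 1
      ring
    rwa [e5] at hFm
  have ht0 : 0 < t := by linarith
  have htT2 : T2 ≤ t := by linarith
  obtain ⟨g1, g2, g3, -, -⟩ := hH t (-(r : ℂ)) htT2 (by
    rw [norm_neg, Complex.norm_real, Real.norm_of_nonneg hr0.le]; exact hr1)
  rw [← sub_eq_add_neg] at g1 g2 g3
  have him : 0 < (I * t - r : ℂ).im := by
    simp [ht0]
  have hz : riemannZeta (1 / 2 + (I * t - r)) ≠ 0 := by
    intro h0
    apply hXm
    rw [Pool.Agent.H24R2.JP.zetaS.1 _ him, h0, mul_zero]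
  have hldX := ld_XX him g1 g2 hz
  -- size
  have hA : ‖logDeriv F (-1) + a‖ ≤ η * a := by
    rw [hsym]
    have : -(starRingEnd ℂ) (logDeriv F 1) + (a : ℂ) = -((starRingEnd ℂ) (logDeriv F 1 - a)) := by
      rw [map_sub, Complex.conj_ofReal]
      ring
    rw [this, norm_neg, Complex.norm_conj]
    exact hF2
  have hB : ‖logDeriv XX (I * t - r) + (L / 2 : ℝ)‖ ≤ η * (L / 2) := by
    rw [hld] at hA
    have e1 : (r : ℂ) * logDeriv XX (I * t - r) + a =
        (r : ℂ) * (logDeriv XX (I * t - r) + (L / 2 : ℝ)) := by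
      have : (a : ℂ) = (r : ℂ) * ((L / 2 : ℝ) : ℂ) := by
        rw [← Complex.ofReal_mul, hre]
        congr 1
        field_simp
      rw [mul_add, ← this]
    rw [e1, norm_mul, Complex.norm_real, Real.norm_of_nonneg hr0.le] at hA
    have e2 : η * a = r * (η * (L / 2)) := by
      rw [hre]
      field_simp
    rw [e2] at hA
    exact le_of_mul_le_mul_left hA hr0
  have hC : ‖logDeriv riemannZeta (1 / 2 + (I * t - r)) + (L : ℂ)‖ ≤ η * L + (K + 1) := by
    have e1 : logDeriv riemannZeta (1 / 2 + (I * t - r)) + (L : ℂ) =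
        (logDeriv XX (I * t - r) + (L / 2 : ℝ)) - (logDeriv HH (I * t - r) - (Om t : ℂ)) +
          ((L / 2 - Om t : ℝ) : ℂ) := by
      rw [hldX]
      push_cast
      ring
    have e2 : ‖((L / 2 - Om t : ℝ) : ℂ)‖ ≤ 1 := by
      rw [Complex.norm_real, Real.norm_eq_abs]
      unfold Pool.Agent.H24R2.JP.Om
      have f1 : Real.log t ≤ Real.log 3 + L := by
        rw [hL, ← Real.log_mul (by norm_num) hTpos.ne']
        exact Real.log_le_log ht0 ht2
      have f2 : L - Real.log 2 ≤ Real.log t := by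
        rw [hL, ← Real.log_div hTpos.ne' (by norm_num)]
        exact Real.log_le_log (by positivity) ht1
      have f3 : Real.log 3 ≤ 2 := by
        rw [Real.log_le_iff_le_exp (by norm_num)]
        have := Real.add_one_le_exp (2 : ℝ)
        linarith
      have f4 : Real.log 2 ≤ 1 := by
        have := Real.log_two_lt_d9
        linarith
      rw [abs_le]
      constructor <;> linarith
    rw [e1]
    refine (norm_add_le _ _).trans ?_
    have e3 := norm_sub_le (logDeriv XX (I * t - r) + (L / 2 : ℝ)) (logDeriv HH (I * t - r) - (Om t : ℂ))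
    nlinarith
  have hLc : (L : ℂ) ≠ 0 := by exact_mod_cast hL0.ne'
  have e1 : riemannZeta (1 / 2 + (I * t - r)) +
      deriv riemannZeta (1 / 2 + (I * t - r)) / (L : ℂ) =
      (logDeriv riemannZeta (1 / 2 + (I * t - r)) + (L : ℂ)) / L *
        riemannZeta (1 / 2 + (I * t - r)) := by
    rw [logDeriv_apply]
    revert hz
    generalize riemannZeta (1 / 2 + (I * t - r)) = Z
    generalize deriv riemannZeta (1 / 2 + (I * t - r)) = Z'
    intro hz
    field_simp
    ring
  rw [e1, norm_mul, norm_div, Complex.norm_real, Real.norm_of_nonneg hL0.le]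
  apply mul_le_mul_of_nonneg_right _ (norm_nonneg _)
  rw [div_le_iff₀ hL0]
  have : (η + (K + 1) / L) * L = η * L + (K + 1) := by
    field_simp
  rw [this]
  exact hC

end Pool.Agent.Y857.VP
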