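import Pool.Agent.H448R2.GC.X1
import Pool.Agent.W186.SD.MainD

/-! Mean squares of zeta and its derivative, mollified, to the left of the critical line. -/

set_option autoImplicit false

namespace Pool.Agent.Y857.VP

open Complex Filter Topology MeasureTheory Set
open Pool.Agent.H24R2.DZ (mT MM bb mo ph yy SMV2)

theorem zeta_upr : ∃ C : ℝ, 0 < C ∧ ∀ κ t : ℝ, 0 ≤ κ → κ ≤ 1 / 4 → 1 ≤ t →
    ‖riemannZeta (1 / 2 - (κ : ℂ) + (t : ℂ) * I)‖ ≤
      C * (1 + t) ^ κ * ‖riemannZeta (1 / 2 + (κ : ℂ) + (t : ℂ) * I)‖ := by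
  obtain ⟨C, hC, h⟩ := Pool.Agent.H448R2.GC.XX_upper 1
  refine ⟨C, hC, ?_⟩
  intro κ t h0 h1 ht
  set w : ℂ := 1 / 2 + (κ : ℂ) + (t : ℂ) * I with hw
  have hre : w.re = 1 / 2 + κ := by rw [hw]; simp
  have him : w.im = t := by rw [hw]; simp
  have hw1 : w ≠ 1 := by
    intro h
    have : w.im = 0 := by rw [h]; simp
    rw [him] at this
    linarith
  have e1 : (1 / 2 - (κ : ℂ) + (t : ℂ) * I) = (starRingEnd ℂ) (1 - w) := by
    apply Complex.ext
    · rw [Complex.conj_re, Complex.sub_re, hre]; simp; ring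
    · rw [Complex.conj_im, Complex.sub_im, him]; simp
  rw [e1, riemannZeta_conj, RCLike.norm_conj,
    Pool.Agent.H448R2.GC.zeta_fe w (by rw [hre]; linarith) hw1, norm_mul]
  apply mul_le_mul_of_nonneg_right _ (norm_nonneg _)
  have h2 := h w (by rw [hre]; linarith) (by rw [hre]; linarith)
  rw [him, hre, abs_of_nonneg (by linarith)] at h2
  have e2 : (1 / 2 + κ - 1 / 2 : ℝ) = κ := by ring
  rwa [e2] at h2

theorem mT_contC (θ T : ℝ) : Continuous (mT θ T) := by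
  unfold Pool.Agent.H24R2.DZ.mT Pool.Agent.H24R2.DZ.MM
  apply continuous_finsetSum
  intro n hn
  rw [Finset.mem_Icc] at hn
  have hn0 : (n : ℂ) ≠ 0 := by
    exact_mod_cast (by omega : n ≠ 0)
  exact continuous_const.mul (Continuous.const_cpow (by fun_prop) (Or.inl hn0))

/-- continuity of zeta on a family of points -/
theorem zeta_comp_cont {X : Type*} [TopologicalSpace X] (f : X → ℂ) (hf : Continuous f)
    (h : ∀ x, f x ≠ 1) : Continuous (fun x => riemannZeta (f x)) := by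
  rw [continuous_iff_continuousAt]
  intro x
  have h2 : ContinuousAt riemannZeta (f x) := (differentiableAt_riemannZeta (h x)).continuousAt
  exact ContinuousAt.comp (f := f) h2 hf.continuousAt

/-- mean square to the left of the line -/
theorem ms_left (θ : ℝ) (hθ : 0 < θ) (hθ2 : θ ≤ 1 / 200) : ∃ C T0 : ℝ, 0 < C ∧ 2 ≤ T0 ∧
    ∀ (T κ : ℝ) (β : ℂ), T0 ≤ T → 0 ≤ κ → κ ≤ 1 / 4 → ‖β‖ ≤ 1 →
    ∫ t in (T / 4)..(4 * T), ‖riemannZeta (1 / 2 - (κ : ℂ) + (t : ℂ) * I) *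
      mT θ T (1 / 2 + (κ : ℂ) + (t : ℂ) * I + β)‖ ^ 2 ≤
    C * T * Real.exp (2 * κ * Real.log T) * ((1 + Real.log T * ‖β‖) ^ 20 *
      Real.exp (2 * θ * Real.log T * ‖β‖)) := by
  obtain ⟨C, T0, hC, hT0, h⟩ := Pool.Agent.W186.SD.smv2 θ hθ hθ2
  obtain ⟨C1, hC1, hz⟩ := zeta_upr
  refine ⟨C1 ^ 2 * 5 * C, max T0 4, by positivity, hT0.trans (le_max_left _ _),
    fun T κ β hT hκ hκ2 hβ => ?_⟩
  have hT1 : T0 ≤ T := (le_max_left _ _).trans hT
  have hT4 : 4 ≤ T := (le_max_right _ _).trans hT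
  have hTpos : 0 < T := by linarith
  have h1 := h T (1 / 2 + κ) β hT1 (by linarith) (by linarith) hβ
  have cz1 : Continuous (fun t : ℝ => riemannZeta (1 / 2 - (κ : ℂ) + (t : ℂ) * I)) := by
    apply zeta_comp_cont _ (by fun_prop)
    intro t ht
    have := congrArg Complex.re ht
    simp at this
    linarith
  have cz2 : Continuous (fun t : ℝ => riemannZeta (((1 / 2 + κ : ℝ) : ℂ) + (t : ℂ) * I)) := by
    apply zeta_comp_cont _ (by fun_prop)
    intro t ht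
    have := congrArg Complex.re ht
    simp at this
    linarith
  have cm1 : Continuous (fun t : ℝ => mT θ T (1 / 2 + (κ : ℂ) + (t : ℂ) * I + β)) :=
    (mT_contC θ T).comp (by fun_prop)
  have cm2 : Continuous (fun t : ℝ => mT θ T (((1 / 2 + κ : ℝ) : ℂ) + (t : ℂ) * I + β)) :=
    (mT_contC θ T).comp (by fun_prop)
  have hpt : ∀ t ∈ Set.Icc (T / 4) (4 * T), ‖riemannZeta (1 / 2 - (κ : ℂ) + (t : ℂ) * I) *
      mT θ T (1 / 2 + (κ : ℂ) + (t : ℂ) * I + β)‖ ^ 2 ≤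
      (C1 ^ 2 * 5 * Real.exp (2 * κ * Real.log T)) *
      ‖riemannZeta (((1 / 2 + κ : ℝ) : ℂ) + (t : ℂ) * I) *
        mT θ T (((1 / 2 + κ : ℝ) : ℂ) + (t : ℂ) * I + β)‖ ^ 2 := by
    intro t ht
    rw [Set.mem_Icc] at ht
    have e1 : ((1 / 2 + κ : ℝ) : ℂ) + (t : ℂ) * I = 1 / 2 + (κ : ℂ) + (t : ℂ) * I := by
      push_cast; ring
    rw [e1, norm_mul, norm_mul]
    have h2 := hz κ t hκ hκ2 (by linarith [ht.1])
    have h3 : (1 + t) ^ κ ≤ 5 ^ κ * Real.exp (κ * Real.log T) := by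
      have : Real.exp (κ * Real.log T) = T ^ κ := by
        rw [Real.rpow_def_of_pos hTpos, mul_comm]
      rw [this, ← Real.mul_rpow (by norm_num) hTpos.le]
      apply Real.rpow_le_rpow (by linarith [ht.1]) _ hκ
      linarith [ht.2]
    have h4 : (5 : ℝ) ^ κ ≤ 5 ^ (1 / 2 : ℝ) :=
      Real.rpow_le_rpow_of_exponent_le (by norm_num) (by linarith)
    have h5 : ((5 : ℝ) ^ (1 / 2 : ℝ)) ^ 2 = 5 := by
      rw [← Real.sqrt_eq_rpow, Real.sq_sqrt (by norm_num)]
    set m := ‖mT θ T (1 / 2 + (κ : ℂ) + (t : ℂ) * I + β)‖ with hm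
    set z := ‖riemannZeta (1 / 2 + (κ : ℂ) + (t : ℂ) * I)‖ with hzz
    have hm0 : 0 ≤ m := norm_nonneg _
    have hz0 : 0 ≤ z := norm_nonneg _
    have h6 : ‖riemannZeta (1 / 2 - (κ : ℂ) + (t : ℂ) * I)‖ ≤
        C1 * (5 ^ (1 / 2 : ℝ) * Real.exp (κ * Real.log T)) * z := by
      refine h2.trans ?_
      apply mul_le_mul_of_nonneg_right _ hz0
      apply mul_le_mul_of_nonneg_left _ hC1.le
      exact h3.trans (mul_le_mul_of_nonneg_right h4 (Real.exp_pos _).le)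
    have h7 : Real.exp (κ * Real.log T) ^ 2 = Real.exp (2 * κ * Real.log T) := by
      rw [← Real.exp_nat_mul]
      congr 1
      push_cast
      ring
    calc (‖riemannZeta (1 / 2 - (κ : ℂ) + (t : ℂ) * I)‖ * m) ^ 2 ≤
        (C1 * (5 ^ (1 / 2 : ℝ) * Real.exp (κ * Real.log T)) * z * m) ^ 2 := by gcongr
      _ = C1 ^ 2 * ((5 : ℝ) ^ (1 / 2 : ℝ)) ^ 2 * Real.exp (κ * Real.log T) ^ 2 * (z * m) ^ 2 := by
          ring
      _ = _ := by rw [h5, h7]
  calc _ ≤ ∫ t in (T / 4)..(4 * T), (C1 ^ 2 * 5 * Real.exp (2 * κ * Real.log T)) *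
      ‖riemannZeta (((1 / 2 + κ : ℝ) : ℂ) + (t : ℂ) * I) *
        mT θ T (((1 / 2 + κ : ℝ) : ℂ) + (t : ℂ) * I + β)‖ ^ 2 := by
        apply intervalIntegral.integral_mono_on (by linarith) _ _ hpt
        · exact (((cz1.mul cm1).norm).pow 2).intervalIntegrable _ _
        · exact ((((cz2.mul cm2).norm).pow 2).const_mul _).intervalIntegrable _ _
    _ = (C1 ^ 2 * 5 * Real.exp (2 * κ * Real.log T)) *
        ∫ t in (T / 4)..(4 * T), ‖riemannZeta (((1 / 2 + κ : ℝ) : ℂ) + (t : ℂ) * I) *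
        mT θ T (((1 / 2 + κ : ℝ) : ℂ) + (t : ℂ) * I + β)‖ ^ 2 := by
        rw [intervalIntegral.integral_const_mul]
    _ ≤ (C1 ^ 2 * 5 * Real.exp (2 * κ * Real.log T)) *
        (C * T * (1 + Real.log T * ‖β‖) ^ 20 * Real.exp (2 * θ * Real.log T * ‖β‖)) := by
        apply mul_le_mul_of_nonneg_left h1 (by positivity)
    _ = _ := by ring

/-- Cauchy's estimate in mean square -/
theorem cauchy_sq (f : ℂ → ℂ) (s : ℂ) (ρ : ℝ) (hρ : 0 < ρ)
    (hf : ∀ z ∈ Metric.closedBall s ρ, DifferentiableAt ℂ f z) :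
    ‖deriv f s‖ ^ 2 ≤ 1 / (2 * Real.pi * ρ ^ 2) *
      ∫ φ in (0 : ℝ)..(2 * Real.pi), ‖f (circleMap s ρ φ)‖ ^ 2 := by
  have hd : DifferentiableOn ℂ f (Metric.closedBall s ρ) := fun z hz =>
    (hf z hz).differentiableWithinAt
  have h1 := DifferentiableOn.deriv_eq_smul_circleIntegral hρ hd
  have hcm : Continuous (fun φ : ℝ => f (circleMap s ρ φ)) := by
    rw [continuous_iff_continuousAt]
    intro φ
    have : circleMap s ρ φ ∈ Metric.closedBall s ρ := circleMap_mem_closedBall s hρ.le φ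
    exact ContinuousAt.comp (f := circleMap s ρ) (hf _ this).continuousAt
      (continuous_circleMap s ρ).continuousAt
  have h2 : ‖(2 * Real.pi * I : ℂ) • deriv f s‖ ≤
      ∫ φ in (0 : ℝ)..(2 * Real.pi), ‖f (circleMap s ρ φ)‖ / ρ := by
    rw [← h1]
    unfold circleIntegral
    refine (intervalIntegral.norm_integral_le_integral_norm (by positivity)).trans (le_of_eq ?_)
    apply intervalIntegral.integral_congr
    intro φ _
    simp only
    rw [norm_smul, norm_smul, deriv_circleMap, norm_mul, norm_div, norm_pow, norm_one,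
      norm_circleMap_zero, Complex.norm_I, mul_one]
    have : ‖circleMap s ρ φ - s‖ = ρ := by
      rw [circleMap_sub_center, norm_circleMap_zero, abs_of_pos hρ]
    rw [this, abs_of_pos hρ]
    field_simp
  have h3 : ‖(2 * Real.pi * I : ℂ) • deriv f s‖ = 2 * Real.pi * ‖deriv f s‖ := by
    rw [norm_smul, norm_mul, norm_mul, Complex.norm_I, Complex.norm_real,
      Real.norm_of_nonneg Real.pi_pos.le]
    simp
  rw [h3, intervalIntegral.integral_div] at h2
  set J := ∫ φ in (0 : ℝ)..(2 * Real.pi), ‖f (circleMap s ρ φ)‖ with hJ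
  have hJ0 : 0 ≤ J := intervalIntegral.integral_nonneg (by positivity) fun _ _ => norm_nonneg _
  -- Cauchy-Schwarz
  have h4 : J ^ 2 ≤ 2 * Real.pi * ∫ φ in (0 : ℝ)..(2 * Real.pi), ‖f (circleMap s ρ φ)‖ ^ 2 := by
    set Q := ∫ φ in (0 : ℝ)..(2 * Real.pi), ‖f (circleMap s ρ φ)‖ ^ 2 with hQ
    have h5 : 0 ≤ ∫ φ in (0 : ℝ)..(2 * Real.pi), (‖f (circleMap s ρ φ)‖ - J / (2 * Real.pi)) ^ 2 :=
      intervalIntegral.integral_nonneg (by positivity) fun _ _ => sq_nonneg _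
    have h6 : ∫ φ in (0 : ℝ)..(2 * Real.pi), (‖f (circleMap s ρ φ)‖ - J / (2 * Real.pi)) ^ 2 =
        Q - 2 * (J / (2 * Real.pi)) * J + 2 * Real.pi * (J / (2 * Real.pi)) ^ 2 := by
      have e1 : ∀ φ : ℝ, (‖f (circleMap s ρ φ)‖ - J / (2 * Real.pi)) ^ 2 =
          ‖f (circleMap s ρ φ)‖ ^ 2 - 2 * (J / (2 * Real.pi)) * ‖f (circleMap s ρ φ)‖ +
          (J / (2 * Real.pi)) ^ 2 := by
        intro φ
        ring
      simp_rw [e1]
      rw [intervalIntegral.integral_add, intervalIntegral.integral_sub,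
        intervalIntegral.integral_const_mul, intervalIntegral.integral_const, smul_eq_mul, sub_zero]
      · exact (hcm.norm.pow 2).intervalIntegrable _ _
      · exact (hcm.norm.const_mul _).intervalIntegrable _ _
      · exact ((hcm.norm.pow 2).sub (hcm.norm.const_mul _)).intervalIntegrable _ _
      · exact continuous_const.intervalIntegrable _ _
    rw [h6] at h5
    have hpi := Real.pi_pos
    have h7 : Q - 2 * (J / (2 * Real.pi)) * J + 2 * Real.pi * (J / (2 * Real.pi)) ^ 2 =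
        Q - J ^ 2 / (2 * Real.pi) := by
      field_simp
      ring
    rw [h7] at h5
    have h8 : J ^ 2 / (2 * Real.pi) ≤ Q := by linarith
    rw [div_le_iff₀ (by positivity)] at h8
    linarith
  have hpi := Real.pi_pos
  have h9 : ‖deriv f s‖ ≤ J / (2 * Real.pi * ρ) := by
    rw [le_div_iff₀ (by positivity)]
    rw [le_div_iff₀ hρ] at h2
    linarith
  calc ‖deriv f s‖ ^ 2 ≤ (J / (2 * Real.pi * ρ)) ^ 2 :=
        pow_le_pow_left₀ (norm_nonneg _) h9 2
    _ = J ^ 2 / (2 * Real.pi * ρ) ^ 2 := by rw [div_pow]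
    _ ≤ (2 * Real.pi * ∫ φ in (0 : ℝ)..(2 * Real.pi), ‖f (circleMap s ρ φ)‖ ^ 2) /
        (2 * Real.pi * ρ) ^ 2 := by gcongr
    _ = _ := by
        field_simp

end Pool.Agent.Y857.VP
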