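import Pool.Agent.Y857.VP.U2

/-! Mean square of the derivative of zeta, mollified, to the left of the critical line. -/

set_option autoImplicit false

namespace Pool.Agent.Y857.VP

open Complex Filter Topology MeasureTheory Set
open Pool.Agent.H24R2.DZ (mT MM bb mo ph yy SMV2)

theorem ms_deriv (θ : ℝ) (hθ : 0 < θ) (hθ2 : θ ≤ 1 / 200) : ∃ C T0 : ℝ, 0 < C ∧ 2 ≤ T0 ∧
    ∀ (T κ : ℝ), T0 ≤ T → 1 / Real.log T ≤ κ → κ ≤ 1 / 8 →
    ∫ t in (T / 2)..(3 * T), ‖deriv riemannZeta (1 / 2 - (κ : ℂ) + (t : ℂ) * I) *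
      mT θ T (1 / 2 + (κ : ℂ) + (t : ℂ) * I)‖ ^ 2 ≤
    C * Real.log T ^ 2 * T * Real.exp (2 * κ * Real.log T) := by
  obtain ⟨C, T0, hC, hT0, h⟩ := ms_left θ hθ hθ2
  refine ⟨C * (Real.exp 2 * (2 ^ 20 * Real.exp 1)), max T0 (Real.exp 8), by positivity,
    hT0.trans (le_max_left _ _), fun T κ hT hκ1 hκ2 => ?_⟩
  have hT1 : T0 ≤ T := (le_max_left _ _).trans hT
  have hT8 : Real.exp 8 ≤ T := (le_max_right _ _).trans hT
  have hTpos : 0 < T := lt_of_lt_of_le (Real.exp_pos _) hT8
  have hL8 : 8 ≤ Real.log T := (Real.le_log_iff_exp_le hTpos).mpr hT8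
  have hT9 : 9 ≤ T := by
    have := Real.add_one_le_exp (8 : ℝ)
    linarith
  set L := Real.log T with hL
  have hL0 : 0 < L := by linarith
  set ρ : ℝ := 1 / L with hρ
  have hρ0 : 0 < ρ := by positivity
  have hρ8 : ρ ≤ 1 / 8 := by
    rw [hρ]
    exact one_div_le_one_div_of_le (by norm_num) hL8
  have hpi := Real.pi_pos
  -- the joint function
  set g : ℝ → ℝ → ℝ := fun t φ => ‖riemannZeta (circleMap (1 / 2 - (κ : ℂ) + (t : ℂ) * I) ρ φ) *
      mT θ T (1 / 2 + (κ : ℂ) + (t : ℂ) * I)‖ ^ 2 with hg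
  have hne : ∀ p : ℝ × ℝ, circleMap (1 / 2 - (κ : ℂ) + (p.1 : ℂ) * I) ρ p.2 ≠ 1 := by
    intro p hp
    have h1 := congrArg Complex.re hp
    have h2 : (circleMap (1 / 2 - (κ : ℂ) + (p.1 : ℂ) * I) ρ p.2).re ≤ 1 / 2 - κ + ρ := by
      have h3 := Complex.abs_re_le_norm
        (circleMap (1 / 2 - (κ : ℂ) + (p.1 : ℂ) * I) ρ p.2 - (1 / 2 - (κ : ℂ) + (p.1 : ℂ) * I))
      rw [circleMap_sub_center, norm_circleMap_zero, abs_of_pos hρ0] at h3
      have h4 := (abs_le.1 h3).2
      have h5 : (1 / 2 - (κ : ℂ) + (p.1 : ℂ) * I).re = 1 / 2 - κ := by simp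
      have h6 : (circleMap 0 ρ p.2).re = (circleMap (1 / 2 - (κ : ℂ) + (p.1 : ℂ) * I) ρ p.2).re -
          (1 / 2 - κ) := by
        rw [← circleMap_sub_center (1 / 2 - (κ : ℂ) + (p.1 : ℂ) * I), Complex.sub_re, h5]
      rw [h6] at h4
      linarith
    rw [h1, one_re] at h2
    have : 0 < 1 / L := hρ0
    linarith
  have hgc : Continuous (Function.uncurry g) := by
    have e1 : Continuous (fun p : ℝ × ℝ =>
        riemannZeta (circleMap (1 / 2 - (κ : ℂ) + (p.1 : ℂ) * I) ρ p.2)) := by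
      apply zeta_comp_cont _ _ hne
      unfold circleMap
      fun_prop
    have e2 : Continuous (fun p : ℝ × ℝ => mT θ T (1 / 2 + (κ : ℂ) + (p.1 : ℂ) * I)) :=
      (mT_contC θ T).comp (by fun_prop)
    exact ((e1.mul e2).norm).pow 2
  -- pointwise
  have hpt : ∀ t ∈ Set.Icc (T / 2) (3 * T),
      ‖deriv riemannZeta (1 / 2 - (κ : ℂ) + (t : ℂ) * I) *
      mT θ T (1 / 2 + (κ : ℂ) + (t : ℂ) * I)‖ ^ 2 ≤
      1 / (2 * Real.pi * ρ ^ 2) * ∫ φ in (0 : ℝ)..(2 * Real.pi), g t φ := by
    intro t ht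
    rw [norm_mul, mul_pow]
    have h1 := cauchy_sq riemannZeta (1 / 2 - (κ : ℂ) + (t : ℂ) * I) ρ hρ0 (by
      intro z hz
      apply differentiableAt_riemannZeta
      intro hz1
      rw [hz1, Metric.mem_closedBall, dist_eq_norm] at hz
      have h2 := (Complex.abs_re_le_norm _).trans hz
      have h3 : (1 - (1 / 2 - (κ : ℂ) + (t : ℂ) * I)).re = 1 / 2 + κ := by
        simp
        ring
      rw [h3, abs_of_nonneg (by linarith)] at h2
      linarith)
    have e1 : ∫ φ in (0 : ℝ)..(2 * Real.pi), g t φ =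
        (∫ φ in (0 : ℝ)..(2 * Real.pi),
          ‖riemannZeta (circleMap (1 / 2 - (κ : ℂ) + (t : ℂ) * I) ρ φ)‖ ^ 2) *
        ‖mT θ T (1 / 2 + (κ : ℂ) + (t : ℂ) * I)‖ ^ 2 := by
      rw [← intervalIntegral.integral_mul_const]
      apply intervalIntegral.integral_congr
      intro φ _
      simp only [hg, norm_mul, mul_pow]
    rw [e1, ← mul_assoc]
    exact mul_le_mul_of_nonneg_right h1 (by positivity)
  -- the inner integral
  have hinner : ∀ φ ∈ Set.Icc (0 : ℝ) (2 * Real.pi), ∫ t in (T / 2)..(3 * T), g t φ ≤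
      C * T * (Real.exp (2 * κ * L) * Real.exp 2) * (2 ^ 20 * Real.exp 1) := by
    intro φ _
    set κ₁ : ℝ := κ - ρ * Real.cos φ with hκ₁
    set β : ℂ := (ρ * Real.cos φ : ℝ) - (ρ * Real.sin φ : ℝ) * I with hβ
    have hcos := Real.neg_one_le_cos φ
    have hcos2 := Real.cos_le_one φ
    have hsin := Real.neg_one_le_sin φ
    have hsin2 := Real.sin_le_one φ
    have hκ10 : 0 ≤ κ₁ := by
      rw [hκ₁]
      nlinarith
    have hκ14 : κ₁ ≤ 1 / 4 := by
      rw [hκ₁]
      nlinarith
    have hβn : ‖β‖ = ρ := by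
      rw [hβ]
      have e1 : ((ρ * Real.cos φ : ℝ) : ℂ) - ((ρ * Real.sin φ : ℝ) : ℂ) * I =
          (ρ : ℂ) * cexp (((-φ : ℝ) : ℂ) * I) := by
        rw [Complex.exp_mul_I, ← Complex.ofReal_cos, ← Complex.ofReal_sin, Real.cos_neg,
          Real.sin_neg]
        push_cast
        ring
      rw [e1, norm_mul, Complex.norm_exp_ofReal_mul_I, mul_one, Complex.norm_real,
        Real.norm_of_nonneg hρ0.le]
    have h1 := h T κ₁ β hT1 hκ10 hκ14 (by rw [hβn]; linarith)
    rw [hβn] at h1
    have e2 : L * ρ = 1 := by rw [hρ]; field_simp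
    have e3 : 2 * θ * L * ρ = 2 * θ := by rw [mul_assoc, e2, mul_one]
    rw [← hL, e2, e3] at h1
    set G : ℝ → ℝ := fun u => ‖riemannZeta (1 / 2 - (κ₁ : ℂ) + (u : ℂ) * I) *
      mT θ T (1 / 2 + (κ₁ : ℂ) + (u : ℂ) * I + β)‖ ^ 2 with hG
    have hGc : Continuous G := by
      have cz1 : Continuous (fun t : ℝ => riemannZeta (1 / 2 - (κ₁ : ℂ) + (t : ℂ) * I)) := by
        apply zeta_comp_cont _ (by fun_prop)
        intro t ht
        have := congrArg Complex.re ht
        simp at this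
        linarith
      exact ((cz1.mul ((mT_contC θ T).comp (by fun_prop))).norm).pow 2
    have hgG : ∀ t : ℝ, g t φ = G (t + ρ * Real.sin φ) := by
      intro t
      rw [hg, hG]
      simp only
      congr 4
      · unfold circleMap
        rw [Complex.exp_mul_I, ← Complex.ofReal_cos, ← Complex.ofReal_sin, hκ₁]
        push_cast
        ring
      · rw [hκ₁, hβ]
        push_cast
        ring
    have hρT : ρ ≤ T / 8 := by
      linarith
    calc ∫ t in (T / 2)..(3 * T), g t φ = ∫ t in (T / 2)..(3 * T), G (t + ρ * Real.sin φ) := by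
          apply intervalIntegral.integral_congr
          intro t _
          exact hgG t
      _ = ∫ u in (T / 2 + ρ * Real.sin φ)..(3 * T + ρ * Real.sin φ), G u := by
          rw [intervalIntegral.integral_comp_add_right]
      _ ≤ ∫ u in (T / 4)..(4 * T), G u := by
          apply intervalIntegral.integral_mono_interval
          · nlinarith
          · nlinarith
          · nlinarith
          · exact Eventually.of_forall fun u => sq_nonneg _
          · exact hGc.intervalIntegrable _ _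
      _ ≤ C * T * Real.exp (2 * κ₁ * L) * ((1 + 1) ^ 20 * Real.exp (2 * θ)) := h1
      _ ≤ C * T * (Real.exp (2 * κ * L) * Real.exp 2) * (2 ^ 20 * Real.exp 1) := by
          have e4 : Real.exp (2 * κ₁ * L) ≤ Real.exp (2 * κ * L) * Real.exp 2 := by
            rw [← Real.exp_add]
            apply Real.exp_le_exp.2
            have e5 : κ₁ * L = κ * L - Real.cos φ := by
              rw [hκ₁, sub_mul]
              have : ρ * Real.cos φ * L = Real.cos φ * (L * ρ) := by ring
              rw [this, e2, mul_one]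
            have e6 : 2 * κ₁ * L = 2 * (κ₁ * L) := by ring
            rw [e6, e5]
            linarith
          have e7 : Real.exp (2 * θ) ≤ Real.exp 1 := Real.exp_le_exp.2 (by linarith)
          have e8 : (1 + 1 : ℝ) ^ 20 = 2 ^ 20 := by norm_num
          rw [e8]
          gcongr
  clear_value g
  have hswap : ∫ t in (T / 2)..(3 * T), ∫ φ in (0 : ℝ)..(2 * Real.pi), g t φ =
      ∫ φ in (0 : ℝ)..(2 * Real.pi), ∫ t in (T / 2)..(3 * T), g t φ := by
    apply intervalIntegral_intervalIntegral_swap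
    have hK : IsCompact (Set.uIcc (T / 2) (3 * T) ×ˢ Set.uIcc (0 : ℝ) (2 * Real.pi)) :=
      isCompact_uIcc.prod isCompact_uIcc
    exact (hgc.continuousOn.integrableOn_compact hK).mono_set
      (Set.prod_mono Set.uIoc_subset_uIcc Set.uIoc_subset_uIcc)
  have hgt : Continuous (fun t : ℝ => ∫ φ in (0 : ℝ)..(2 * Real.pi), g t φ) :=
    intervalIntegral.continuous_parametric_intervalIntegral_of_continuous' hgc _ _
  have hgp : Continuous (fun φ : ℝ => ∫ t in (T / 2)..(3 * T), g t φ) := by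
    have : Continuous (Function.uncurry fun φ t => g t φ) := by
      have h9 : (Function.uncurry fun φ t => g t φ) =
          (fun p : ℝ × ℝ => Function.uncurry g (p.2, p.1)) := rfl
      rw [h9]
      exact hgc.comp (continuous_snd.prodMk continuous_fst)
    exact intervalIntegral.continuous_parametric_intervalIntegral_of_continuous' this _ _
  have hdc : Continuous (fun t : ℝ => deriv riemannZeta (1 / 2 - (κ : ℂ) + (t : ℂ) * I)) := by
    rw [continuous_iff_continuousAt]
    intro t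
    have h1 : (1 / 2 - (κ : ℂ) + (t : ℂ) * I) ≠ 1 := by
      intro h
      have := congrArg Complex.re h
      simp at this
      have : 0 < 1 / L := hρ0
      linarith
    have hd : DifferentiableOn ℂ riemannZeta {1}ᶜ := fun z hz =>
      (differentiableAt_riemannZeta hz).differentiableWithinAt
    have ho : IsOpen ({1}ᶜ : Set ℂ) := isOpen_compl_singleton
    have h2 : ContinuousAt (deriv riemannZeta) (1 / 2 - (κ : ℂ) + (t : ℂ) * I) :=
      ((hd.deriv ho).differentiableAt (ho.mem_nhds h1)).continuousAt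
    exact ContinuousAt.comp (f := fun t : ℝ => 1 / 2 - (κ : ℂ) + (t : ℂ) * I) h2 (by fun_prop)
  calc _ ≤ ∫ t in (T / 2)..(3 * T), 1 / (2 * Real.pi * ρ ^ 2) *
        ∫ φ in (0 : ℝ)..(2 * Real.pi), g t φ := by
        apply intervalIntegral.integral_mono_on (by linarith) _ _ hpt
        · exact (((hdc.mul ((mT_contC θ T).comp (by fun_prop))).norm).pow 2).intervalIntegrable _ _
        · exact (hgt.const_mul _).intervalIntegrable _ _
    _ = 1 / (2 * Real.pi * ρ ^ 2) *
        ∫ φ in (0 : ℝ)..(2 * Real.pi), ∫ t in (T / 2)..(3 * T), g t φ := by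
        rw [intervalIntegral.integral_const_mul, hswap]
    _ ≤ 1 / (2 * Real.pi * ρ ^ 2) * ∫ _ in (0 : ℝ)..(2 * Real.pi),
        C * T * (Real.exp (2 * κ * L) * Real.exp 2) * (2 ^ 20 * Real.exp 1) := by
        apply mul_le_mul_of_nonneg_left _ (by positivity)
        apply intervalIntegral.integral_mono_on (by positivity) (hgp.intervalIntegrable _ _)
          (continuous_const.intervalIntegrable _ _) hinner
    _ = C * (Real.exp 2 * (2 ^ 20 * Real.exp 1)) * L ^ 2 * T * Real.exp (2 * κ * L) := by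
        rw [intervalIntegral.integral_const, smul_eq_mul, sub_zero, hρ]
        field_simp

end Pool.Agent.Y857.VP
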