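import Pool.Agent.Y857.VP.U1
import Pool.Agent.Y857.VP.U3

/-! The upper bound: `ζ + ζ' / L` is small in mean to the left of the critical line. -/

set_option autoImplicit false

namespace Pool.Agent.Y857.VP

open Complex Filter Topology MeasureTheory Set
open Pool.Agent.H24R2.DZ (mT MM bb mo ph yy SMV2 Gd ra)

theorem zd_line_cont (κ : ℝ) (hκ : 0 ≤ κ) :
    Continuous (fun t : ℝ => deriv riemannZeta (1 / 2 - (κ : ℂ) + (t : ℂ) * I)) := by
  rw [continuous_iff_continuousAt]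
  intro t
  have h1 : (1 / 2 - (κ : ℂ) + (t : ℂ) * I) ≠ 1 := by
    intro h
    have := congrArg Complex.re h
    simp at this
    linarith
  have hd : DifferentiableOn ℂ riemannZeta {1}ᶜ := fun z hz =>
    (differentiableAt_riemannZeta hz).differentiableWithinAt
  have ho : IsOpen ({1}ᶜ : Set ℂ) := isOpen_compl_singleton
  have h2 : ContinuousAt (deriv riemannZeta) (1 / 2 - (κ : ℂ) + (t : ℂ) * I) :=
    ((hd.deriv ho).differentiableAt (ho.mem_nhds h1)).continuousAt
  exact ContinuousAt.comp (f := fun t : ℝ => 1 / 2 - (κ : ℂ) + (t : ℂ) * I) h2 (by fun_prop)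

theorem z_line_cont (κ : ℝ) (hκ : 0 ≤ κ) :
    Continuous (fun t : ℝ => riemannZeta (1 / 2 - (κ : ℂ) + (t : ℂ) * I)) := by
  apply zeta_comp_cont _ (by fun_prop)
  intro t ht
  have := congrArg Complex.re ht
  simp at this
  linarith

theorem upper_U (θ : ℝ) (hθ : 0 < θ) (hθ2 : θ ≤ 1 / 200) (ε : ℝ) (hε : 0 < ε) :
    ∃ A T0 : ℝ, 1 ≤ A ∧ ∀ T : ℝ, T0 ≤ T →
    ∫ t in (T / 2)..(3 * T), ‖mT θ T (1 / 2 + ((A / Real.log T : ℝ) : ℂ) + (t : ℂ) * I)‖ *
      ‖riemannZeta (1 / 2 - ((A / Real.log T : ℝ) : ℂ) + (t : ℂ) * I) +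
        deriv riemannZeta (1 / 2 - ((A / Real.log T : ℝ) : ℂ) + (t : ℂ) * I) / (Real.log T : ℂ)‖ ≤
      ε * Real.exp A * T := by
  obtain ⟨Cm, Tm, hCm, hTm, hms⟩ := ms_left θ hθ hθ2
  obtain ⟨Cd, Td, hCd, hTd, hmd⟩ := ms_deriv θ hθ hθ2
  set η₂ : ℝ := ε / (2 * (Cm + 5)) with hη₂
  have hη₂0 : 0 < η₂ := by positivity
  obtain ⟨η1, ε1, hη1, hε1, hgp⟩ := good_pt η₂ hη₂0
  obtain ⟨θg, c, C', a0', Tg, hθg, hθg2, hc, hC', ha0', hTg, hsc1⟩ :=
    Pool.Agent.W186.SD.sc1 η1 ε1 hη1 hε1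
  obtain ⟨a0, K, Tp, hK, hgp⟩ := hgp θg hθg hθg2
  -- choice of `a`
  have hlim : Tendsto (fun a : ℝ => ((Cm + Cd) / 2 + C') * Real.exp (-(c / 2) * a)) atTop
      (𝓝 (((Cm + Cd) / 2 + C') * 0)) := by
    apply Tendsto.const_mul
    have : Tendsto (fun a : ℝ => -(c / 2) * a) atTop atBot := by
      apply Tendsto.const_mul_atTop_of_neg (by linarith) tendsto_id
    exact Real.tendsto_exp_atBot.comp this
  rw [mul_zero] at hlim
  have hev := (hlim.eventually_lt_const (by linarith : (0 : ℝ) < ε / 2))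
  rw [Filter.eventually_atTop] at hev
  obtain ⟨a1, ha1⟩ := hev
  set a : ℝ := max (max a0 a0') (max a1 1) with ha
  have haa0 : a0 ≤ a := (le_max_left _ _).trans (le_max_left _ _)
  have haa0' : a0' ≤ a := (le_max_right _ _).trans (le_max_left _ _)
  have haa1 : a1 ≤ a := (le_max_left _ _).trans (le_max_right _ _)
  have haone : 1 ≤ a := (le_max_right _ _).trans (le_max_right _ _)
  have hsmall := (ha1 a haa1).le
  have ha00 : 0 < a := by linarith
  clear_value a
  -- T large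
  obtain ⟨Tl, hTl⟩ : ∃ T₀ : ℝ, ∀ T : ℝ, T₀ ≤ T → max (200 * a) (K / η₂) ≤ Real.log T := by
    refine ⟨Real.exp (max (200 * a) (K / η₂)), fun T hT => ?_⟩
    rw [Real.le_log_iff_exp_le (lt_of_lt_of_le (Real.exp_pos _) hT)]
    exact hT
  refine ⟨2 * a, max (max Tm Td) (max (max Tg Tp) (max Tl 4)), by linarith, fun T hT => ?_⟩
  simp only [max_le_iff] at hT
  obtain ⟨⟨hT1, hT2⟩, ⟨hT3, hT4⟩, hT5, hT6⟩ := hT
  have hLL := hTl T hT5
  simp only [max_le_iff] at hLL
  obtain ⟨hL1, hL2⟩ := hLL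
  have hTpos : 0 < T := by linarith
  set L := Real.log T with hL
  have hL0 : 0 < L := by linarith
  set κ : ℝ := 2 * a / L with hκ
  have hκ0 : 0 < κ := by positivity
  have hκ8 : κ ≤ 1 / 8 := by
    rw [hκ, div_le_iff₀ hL0]; linarith
  have hκL : 1 / L ≤ κ := by
    rw [hκ]; gcongr; linarith
  have hκe : κ * L = 2 * a := by rw [hκ]; field_simp
  have hra : ra T a = κ := by
    unfold Pool.Agent.H24R2.DZ.ra
    rw [hκ, ← hL]
    field_simp
  have hKL : K / L ≤ η₂ := by
    rw [div_le_iff₀ hL0]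
    rw [div_le_iff₀ hη₂0] at hL2
    linarith
  -- the functions
  set m : ℝ → ℂ := fun t => mT θ T (1 / 2 + (κ : ℂ) + (t : ℂ) * I) with hm
  set z : ℝ → ℂ := fun t => riemannZeta (1 / 2 - (κ : ℂ) + (t : ℂ) * I) with hz
  set zd : ℝ → ℂ := fun t => deriv riemannZeta (1 / 2 - (κ : ℂ) + (t : ℂ) * I) with hzd
  have cm : Continuous m := (mT_contC θ T).comp (by fun_prop)
  have cz : Continuous z := z_line_cont κ hκ0.le
  have czd : Continuous zd := zd_line_cont κ hκ0.le
  set Z : ℝ → ℝ := fun t => ‖z t * m t‖ with hZ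
  set D : ℝ → ℝ := fun t => ‖zd t * m t‖ / L with hD
  have cZ : Continuous Z := (cz.mul cm).norm
  have cD : Continuous D := ((czd.mul cm).norm).div_const _
  have Z0 : ∀ t, 0 ≤ Z t := fun t => norm_nonneg _
  have D0 : ∀ t, 0 ≤ D t := fun t => by positivity
  -- mean squares
  have hle : T / 2 ≤ 3 * T := by linarith
  have hE : Real.exp (2 * κ * L) = Real.exp (2 * a) ^ 2 := by
    rw [← Real.exp_nat_mul]
    congr 1
    push_cast
    linarith
  have hZms : ∫ t in (T / 2)..(3 * T), Z t ^ 2 ≤ Cm * T * Real.exp (2 * a) ^ 2 := by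
    have h1 := hms T κ 0 hT1 hκ0.le (by linarith) (by simp)
    simp only [norm_zero, mul_zero, add_zero, one_pow, Real.exp_zero, mul_one] at h1
    rw [hE] at h1
    refine le_trans ?_ h1
    have h2 : ∫ t in (T / 2)..(3 * T), Z t ^ 2 ≤ ∫ t in (T / 4)..(4 * T), Z t ^ 2 := by
      apply intervalIntegral.integral_mono_interval (by linarith) hle (by linarith)
      · exact Eventually.of_forall fun u => sq_nonneg _
      · exact (cZ.pow 2).intervalIntegrable _ _
    exact h2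
  have hDms : ∫ t in (T / 2)..(3 * T), D t ^ 2 ≤ Cd * T * Real.exp (2 * a) ^ 2 := by
    have h1 := hmd T κ hT2 hκL hκ8
    rw [← hL, hE] at h1
    have h2 : ∫ t in (T / 2)..(3 * T), D t ^ 2 =
        (∫ t in (T / 2)..(3 * T), ‖zd t * m t‖ ^ 2) / L ^ 2 := by
      rw [← intervalIntegral.integral_div]
      apply intervalIntegral.integral_congr
      intro t _
      simp only [hD, div_pow]
    rw [h2, div_le_iff₀ (by positivity)]
    refine h1.trans (le_of_eq ?_)
    ring
  -- the bad set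
  set B : Set ℝ := {t0 : ℝ | T / 2 ≤ t0 ∧ t0 ≤ 3 * T ∧ ¬ Gd θg η1 ε1 T a t0} with hB
  have hBv := hsc1 T a hT3 haa0' (by linarith)
  rw [← hB] at hBv
  set B' := toMeasurable volume B with hB'
  have hB'm : MeasurableSet B' := measurableSet_toMeasurable _ _
  have hBB' : B ⊆ B' := subset_toMeasurable _ _
  have hB'v : volume B' ≤ ENNReal.ofReal (C' * T * Real.exp (-(c * a))) := by
    rw [hB', measure_toMeasurable]
    exact hBv
  set ind : ℝ → ℝ := B'.indicator (fun _ => (1 : ℝ)) with hind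
  have hind0 : ∀ t, 0 ≤ ind t := fun t => Set.indicator_nonneg (fun _ _ => zero_le_one) t
  have hindi : IntervalIntegrable ind volume (T / 2) (3 * T) := by
    rw [intervalIntegrable_iff_integrableOn_Ioc_of_le hle]
    exact (integrable_const (1 : ℝ)).indicator hB'm
  have hindv : ∫ t in (T / 2)..(3 * T), ind t ≤ C' * T * Real.exp (-(c * a)) := by
    rw [intervalIntegral.integral_of_le hle, hind, setIntegral_indicator hB'm,
      setIntegral_const, smul_eq_mul, mul_one]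
    have h1 : volume (Ioc (T / 2) (3 * T) ∩ B') ≤ volume B' := measure_mono Set.inter_subset_right
    have h2 := ENNReal.toReal_mono ENNReal.ofReal_ne_top (h1.trans hB'v)
    rw [ENNReal.toReal_ofReal (by positivity)] at h2
    exact h2
  -- the pointwise bound
  set E := Real.exp (2 * a) with hEE
  have hE0 : 0 < E := Real.exp_pos _
  set r : ℝ := E⁻¹ * Real.exp (-(c / 2) * a) with hr
  have hr0 : 0 < r := by positivity
  have hpt : ∀ t ∈ Set.Icc (T / 2) (3 * T), ‖m t‖ * ‖z t + zd t / (L : ℂ)‖ ≤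
      2 * η₂ * (1 / 2 * (E⁻¹ * Z t ^ 2 + E)) + (r / 2 * (Z t ^ 2 + D t ^ 2) + 1 / r * ind t) := by
    intro t ht
    rw [Set.mem_Icc] at ht
    have am : ∀ x : ℝ, x ≤ 1 / 2 * (E⁻¹ * x ^ 2 + E) := by
      intro x
      have h1 : 0 ≤ E⁻¹ * (x - E) ^ 2 := by positivity
      have h2 : E⁻¹ * (x - E) ^ 2 = E⁻¹ * x ^ 2 - 2 * x + E := by
        field_simp
        ring
      linarith
    have hpos1 : 0 ≤ 2 * η₂ * (1 / 2 * (E⁻¹ * Z t ^ 2 + E)) := by positivity
    have hpos2 : 0 ≤ r / 2 * (Z t ^ 2 + D t ^ 2) := by positivity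
    by_cases hb : t ∈ B'
    · have hi : ind t = 1 := by rw [hind, Set.indicator_of_mem hb]
      rw [hi]
      have h1 : ‖m t‖ * ‖z t + zd t / (L : ℂ)‖ ≤ Z t + D t := by
        have h2 := norm_add_le (z t) (zd t / (L : ℂ))
        rw [norm_div, Complex.norm_real, Real.norm_of_nonneg hL0.le] at h2
        calc ‖m t‖ * ‖z t + zd t / (L : ℂ)‖ ≤ ‖m t‖ * (‖z t‖ + ‖zd t‖ / L) := by gcongr
          _ = Z t + D t := by
              rw [hZ, hD]
              simp only [norm_mul]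
              ring
      have am2 : ∀ x : ℝ, x ≤ r / 2 * x ^ 2 + 1 / (2 * r) := by
        intro x
        have h1 : 0 ≤ (r * x - 1) ^ 2 / (2 * r) := by positivity
        have h2 : (r * x - 1) ^ 2 / (2 * r) = r / 2 * x ^ 2 + 1 / (2 * r) - x := by
          field_simp
          ring
        linarith
      have h3 := am2 (Z t)
      have h4 := am2 (D t)
      have h5 : 1 / r * 1 = 1 / (2 * r) + 1 / (2 * r) := by
        field_simp
        norm_num
      rw [h5]
      linarith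
    · have hg : Gd θg η1 ε1 T a t := by
        by_contra hcon
        exact hb (hBB' ⟨ht.1, ht.2, hcon⟩)
      have h1 := hgp T a t hT4 haa0 ha00 (by rw [← hL]; linarith) ht.1 ht.2 hg
      rw [hra, ← hL] at h1
      have e1 : (1 / 2 + (I * (t : ℂ) - (κ : ℂ)) : ℂ) = 1 / 2 - (κ : ℂ) + (t : ℂ) * I := by ring
      rw [e1] at h1
      have h2 : ‖m t‖ * ‖z t + zd t / (L : ℂ)‖ ≤ (2 * η₂) * Z t := by
        have h3 : ‖z t + zd t / (L : ℂ)‖ ≤ (2 * η₂) * ‖z t‖ := by
          refine h1.trans ?_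
          apply mul_le_mul_of_nonneg_right _ (norm_nonneg _)
          linarith
        calc _ ≤ ‖m t‖ * ((2 * η₂) * ‖z t‖) := by gcongr
          _ = (2 * η₂) * Z t := by
              rw [hZ]
              simp only [norm_mul]
              ring
      have h3 : (2 * η₂) * Z t ≤ 2 * η₂ * (1 / 2 * (E⁻¹ * Z t ^ 2 + E)) := by
        apply mul_le_mul_of_nonneg_left (am _) (by positivity)
      have h4 : 0 ≤ 1 / r * ind t := mul_nonneg (by positivity) (hind0 t)
      linarith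
  have iZ : IntervalIntegrable (fun t => Z t ^ 2) volume (T / 2) (3 * T) :=
    (cZ.pow 2).intervalIntegrable _ _
  have iD : IntervalIntegrable (fun t => D t ^ 2) volume (T / 2) (3 * T) :=
    (cD.pow 2).intervalIntegrable _ _
  have iC : IntervalIntegrable (fun _ : ℝ => E) volume (T / 2) (3 * T) :=
    continuous_const.intervalIntegrable _ _
  have i1 : IntervalIntegrable (fun t => 2 * η₂ * (1 / 2 * (E⁻¹ * Z t ^ 2 + E))) volume
      (T / 2) (3 * T) := (((iZ.const_mul _).add iC).const_mul _).const_mul _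
  have i2 : IntervalIntegrable (fun t => r / 2 * (Z t ^ 2 + D t ^ 2)) volume (T / 2) (3 * T) :=
    (iZ.add iD).const_mul _
  have i3 : IntervalIntegrable (fun t => 1 / r * ind t) volume (T / 2) (3 * T) :=
    hindi.const_mul _
  have hmain : ∫ t in (T / 2)..(3 * T), ‖m t‖ * ‖z t + zd t / (L : ℂ)‖ ≤
      ∫ t in (T / 2)..(3 * T), (2 * η₂ * (1 / 2 * (E⁻¹ * Z t ^ 2 + E)) +
        (r / 2 * (Z t ^ 2 + D t ^ 2) + 1 / r * ind t)) := by
    apply intervalIntegral.integral_mono_on hle _ (i1.add (i2.add i3)) hpt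
    exact (cm.norm.mul (cz.add (czd.div_const _)).norm).intervalIntegrable _ _
  have hval : ∫ t in (T / 2)..(3 * T), (2 * η₂ * (1 / 2 * (E⁻¹ * Z t ^ 2 + E)) +
        (r / 2 * (Z t ^ 2 + D t ^ 2) + 1 / r * ind t)) =
      2 * η₂ * (1 / 2 * (E⁻¹ * (∫ t in (T / 2)..(3 * T), Z t ^ 2) + (3 * T - T / 2) * E)) +
        (r / 2 * ((∫ t in (T / 2)..(3 * T), Z t ^ 2) + ∫ t in (T / 2)..(3 * T), D t ^ 2) +
          1 / r * ∫ t in (T / 2)..(3 * T), ind t) := by
    rw [intervalIntegral.integral_add i1 (i2.add i3), intervalIntegral.integral_add i2 i3,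
      intervalIntegral.integral_const_mul, intervalIntegral.integral_const_mul,
      intervalIntegral.integral_const_mul, intervalIntegral.integral_const_mul,
      intervalIntegral.integral_add (iZ.const_mul _) iC, intervalIntegral.integral_add iZ iD,
      intervalIntegral.integral_const_mul, intervalIntegral.integral_const, smul_eq_mul]
  rw [hval] at hmain
  -- final estimate
  have hfin : 2 * η₂ * (1 / 2 * (E⁻¹ * (∫ t in (T / 2)..(3 * T), Z t ^ 2) + (3 * T - T / 2) * E)) +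
        (r / 2 * ((∫ t in (T / 2)..(3 * T), Z t ^ 2) + ∫ t in (T / 2)..(3 * T), D t ^ 2) +
          1 / r * ∫ t in (T / 2)..(3 * T), ind t) ≤
      2 * η₂ * (1 / 2 * (E⁻¹ * (Cm * T * E ^ 2) + (3 * T - T / 2) * E)) +
        (r / 2 * ((Cm * T * E ^ 2) + (Cd * T * E ^ 2)) +
          1 / r * (C' * T * Real.exp (-(c * a)))) := by
    gcongr
  have e1 : E⁻¹ * (Cm * T * E ^ 2) = Cm * T * E := by field_simp
  have e2 : r * E ^ 2 = E * Real.exp (-(c / 2) * a) := by
    rw [hr]; field_simp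
  have e3 : 1 / r * (C' * T * Real.exp (-(c * a))) = C' * T * (E * Real.exp (-(c / 2) * a)) := by
    have h1 : Real.exp (-(c * a)) = Real.exp (-(c / 2) * a) * Real.exp (-(c / 2) * a) := by
      rw [← Real.exp_add]
      congr 1
      ring
    rw [h1, hr]
    have h2 : Real.exp (-(c / 2) * a) ≠ 0 := (Real.exp_pos _).ne'
    field_simp
  rw [e1, e3] at hfin
  set q := Real.exp (-(c / 2) * a) with hq
  have e4 : r / 2 * ((Cm * T * E ^ 2) + (Cd * T * E ^ 2)) = (Cm + Cd) / 2 * T * (r * E ^ 2) := by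
    ring
  rw [e4, e2] at hfin
  have e5 : 2 * η₂ * (1 / 2 * (Cm * T * E + (3 * T - T / 2) * E)) ≤ ε / 2 * (E * T) := by
    have h1 : 2 * η₂ * (1 / 2 * (Cm * T * E + (3 * T - T / 2) * E)) =
        η₂ * (Cm + 5 / 2) * (E * T) := by ring
    rw [h1]
    apply mul_le_mul_of_nonneg_right _ (by positivity)
    rw [hη₂, div_mul_eq_mul_div, div_le_iff₀ (by positivity)]
    nlinarith
  have e6 : (Cm + Cd) / 2 * T * (E * q) + C' * T * (E * q) = ((Cm + Cd) / 2 + C') * q * (E * T) := by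
    ring
  have e7 : ((Cm + Cd) / 2 + C') * q * (E * T) ≤ ε / 2 * (E * T) :=
    mul_le_mul_of_nonneg_right hsmall (by positivity)
  calc _ ≤ _ := hmain
    _ ≤ _ := hfin
    _ = 2 * η₂ * (1 / 2 * (Cm * T * E + (3 * T - T / 2) * E)) +
        ((Cm + Cd) / 2 * T * (E * q) + C' * T * (E * q)) := by ring
    _ ≤ ε / 2 * (E * T) + ε / 2 * (E * T) := by
        rw [e6]
        exact add_le_add e5 e7
    _ = ε * E * T := by ring

end Pool.Agent.Y857.VP
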