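import Pool.Agent.H448R2.GC.Defs
import Pool.Agent.H448R2.GC.K1
import Pool.Agent.H448R2.GC.PL
import Pool.Agent.Y857.VP.SV

/-! The tail polynomial is small in mean square (adaptation of `H448R2.GC.VA` to the von Mangoldt function). -/

open Complex MeasureTheory Filter Topology
open Pool.Agent.H448R2.GC (cu sm)

namespace Pool.Agent.Y857.VP

namespace VA

/-- the weight -/
noncomputable def be (k : ℕ) (c p q r : ℝ) : ℝ := cu k c (r - q) - cu k c (r - p)

noncomputable def be' (k : ℕ) (c p q r : ℝ) : ℝ :=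
  (cu (k + 1) c (r - q) - cu (k + 1) c (r - q - c)) / c -
    (cu (k + 1) c (r - p) - cu (k + 1) c (r - p - c)) / c

theorem be_zero_left {k : ℕ} {c p q r : ℝ} (hc : 0 < c) (hpq : p ≤ q) (hr : r ≤ p) :
    be k c p q r = 0 := by
  unfold be
  rw [Pool.Agent.H448R2.GC.cu_one k c _ hc (by linarith), Pool.Agent.H448R2.GC.cu_one k c _ hc (by linarith)]
  ring

theorem be_zero_right {k : ℕ} {c p q r : ℝ} (hc : 0 < c) (hpq : p ≤ q) (hr : q + k * c < r) :
    be k c p q r = 0 := by
  unfold be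
  rw [Pool.Agent.H448R2.GC.cu_zero k c _ hc (by linarith), Pool.Agent.H448R2.GC.cu_zero k c _ hc (by linarith)]
  ring

theorem be_abs {k : ℕ} {c p q r : ℝ} (hc : 0 < c) : |be k c p q r| ≤ 1 := by
  unfold be
  have h1 := Pool.Agent.H448R2.GC.cu_nonneg k c (r - q) hc
  have h2 := Pool.Agent.H448R2.GC.cu_nonneg k c (r - p) hc
  have h3 := Pool.Agent.H448R2.GC.cu_le_one k c (r - q) hc
  have h4 := Pool.Agent.H448R2.GC.cu_le_one k c (r - p) hc
  rw [abs_le]
  constructor <;> linarith

theorem be_deriv (k : ℕ) {c : ℝ} (p q r : ℝ) (hc : 0 < c) :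
    HasDerivAt (be (k + 2) c p q) (be' k c p q r) r := by
  have h1 := (Pool.Agent.H448R2.GC.cu_deriv k c (r - q) hc).comp_sub_const r q
  have h2 := (Pool.Agent.H448R2.GC.cu_deriv k c (r - p) hc).comp_sub_const r p
  exact h1.sub h2

theorem be'_abs (k : ℕ) {c : ℝ} (p q r : ℝ) (hc : 0 < c) : |be' k c p q r| ≤ 1 / c := by
  have a1 := Pool.Agent.H448R2.GC.cu_anti (k + 1) c hc (show r - q - c ≤ r - q by linarith)
  have a2 := Pool.Agent.H448R2.GC.cu_anti (k + 1) c hc (show r - p - c ≤ r - p by linarith)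
  have h1 := Pool.Agent.H448R2.GC.cu_nonneg (k + 1) c (r - q) hc
  have h2 := Pool.Agent.H448R2.GC.cu_nonneg (k + 1) c (r - p) hc
  have h3 := Pool.Agent.H448R2.GC.cu_le_one (k + 1) c (r - q - c) hc
  have h4 := Pool.Agent.H448R2.GC.cu_le_one (k + 1) c (r - p - c) hc
  unfold be'
  rw [← sub_div, abs_div, abs_of_pos hc]
  apply div_le_div_of_nonneg_right _ hc.le
  rw [abs_le]
  constructor <;> linarith

theorem be'_cont (k : ℕ) {c : ℝ} (p q : ℝ) (hc : 0 < c) : Continuous (be' k c p q) := by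
  have h := Pool.Agent.H448R2.GC.cu_cont k c hc
  unfold be'
  fun_prop

theorem Mer_eq (t : ℝ) :
    AA t = ∑ k ∈ Finset.Icc 0 ⌊t⌋₊, lm k := by
  unfold AA
  apply Finset.sum_subset
  · intro n hn
    simp only [Finset.mem_Icc] at hn ⊢
    omega
  · intro n hn hn'
    simp only [Finset.mem_Icc] at hn hn'
    have : n = 0 := by omega
    subst this
    simp [lm]

theorem Mer_meas : Measurable AA := meas_AA

theorem Mer_abs {x : ℝ} (hx : 0 ≤ x) : |AA x| ≤ x := by
  have := abs_AA_le x
  rwa [abs_of_nonneg hx] at this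

/-- Abel summation -/
theorem abel (k : ℕ) {c : ℝ} (p q : ℝ) {x x' : ℝ} (hc : 0 < c) (hx : 0 < x) (hxx : x ≤ x') :
    ∑ n ∈ Finset.Ioc ⌊x⌋₊ ⌊x'⌋₊, be (k + 2) c p q (Real.log n) *
      lm n =
    be (k + 2) c p q (Real.log x') * (AA x' - AA x) -
      ∫ t in x..x', be' k c p q (Real.log t) / t * (AA t - AA x) := by
  have hd : ∀ t ∈ Set.Icc x x', HasDerivAt (fun t => be (k + 2) c p q (Real.log t))
      (be' k c p q (Real.log t) / t) t := by
    intro t ht
    have ht0 : 0 < t := lt_of_lt_of_le hx ht.1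
    have := (be_deriv k p q (Real.log t) hc).comp t (Real.hasDerivAt_log ht0.ne')
    simpa [div_eq_mul_inv, Function.comp_def] using this
  have hcont : ContinuousOn (fun t => be' k c p q (Real.log t) / t) (Set.Icc x x') := by
    apply ContinuousOn.div
    · exact (be'_cont k p q hc).comp_continuousOn
        (Real.continuousOn_log.mono (fun t ht => (lt_of_lt_of_le hx ht.1).ne'))
    · exact continuousOn_id
    · intro t ht
      exact (lt_of_lt_of_le hx ht.1).ne'
  have hderiv : Set.EqOn (deriv (fun t => be (k + 2) c p q (Real.log t)))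
      (fun t => be' k c p q (Real.log t) / t) (Set.Icc x x') := fun t ht => (hd t ht).deriv
  have hint : IntegrableOn (deriv (fun t => be (k + 2) c p q (Real.log t))) (Set.Icc x x') := by
    rw [integrableOn_congr_fun hderiv measurableSet_Icc]
    exact hcont.integrableOn_Icc
  have hii : IntervalIntegrable (fun t => be' k c p q (Real.log t) / t) volume x x' := by
    apply ContinuousOn.intervalIntegrable
    rwa [Set.uIcc_of_le hxx]
  have key := sum_mul_eq_sub_sub_integral_mul
    lm hx.le hxx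
    (fun t ht => (hd t ht).differentiableAt) hint
  simp only [← Mer_eq] at key
  rw [key, ← intervalIntegral.integral_of_le hxx]
  have hftc : ∫ t in x..x', be' k c p q (Real.log t) / t =
      be (k + 2) c p q (Real.log x') - be (k + 2) c p q (Real.log x) := by
    apply intervalIntegral.integral_eq_sub_of_hasDerivAt
    · intro t ht
      rw [Set.uIcc_of_le hxx] at ht
      exact hd t ht
    · exact hii
  have h1 : ∫ t in x..x', deriv (fun t => be (k + 2) c p q (Real.log t)) t * AA t =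
      ∫ t in x..x', be' k c p q (Real.log t) / t * AA t := by
    apply intervalIntegral.integral_congr
    intro t ht
    rw [Set.uIcc_of_le hxx] at ht
    simp only
    rw [hderiv ht]
  rw [h1]
  have hiM : IntervalIntegrable (fun t => be' k c p q (Real.log t) / t * AA t) volume x x' := by
    rw [intervalIntegrable_iff_integrableOn_Ioc_of_le hxx]
    have : IntegrableOn (fun t => be' k c p q (Real.log t) / t) (Set.Ioc x x') :=
      (intervalIntegrable_iff_integrableOn_Ioc_of_le hxx).1 hii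
    refine Integrable.mul_bdd (c := x') this Mer_meas.aestronglyMeasurable ?_
    filter_upwards [ae_restrict_mem measurableSet_Ioc] with t ht
    rw [Real.norm_eq_abs]
    exact (Mer_abs (hx.le.trans ht.1.le)).trans ht.2
  have h2 : ∫ t in x..x', be' k c p q (Real.log t) / t * (AA t - AA x) =
      (∫ t in x..x', be' k c p q (Real.log t) / t * AA t) -
        (∫ t in x..x', be' k c p q (Real.log t) / t) * AA x := by
    rw [← intervalIntegral.integral_mul_const, ← intervalIntegral.integral_sub hiM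
      (hii.mul_const _)]
    apply intervalIntegral.integral_congr
    intro t _
    simp only
    ring
  rw [h2, hftc]
  ring

/-- Cauchy-Schwarz on an interval -/
theorem cs_interval {g : ℝ → ℝ} {v : ℝ} (hv : 1 ≤ v)
    (hg : IntervalIntegrable g volume 1 v)
    (hg2 : IntervalIntegrable (fun u => g u ^ 2) volume 1 v) :
    (∫ u in (1 : ℝ)..v, g u) ^ 2 ≤ (v - 1) * ∫ u in (1 : ℝ)..v, g u ^ 2 := by
  rcases eq_or_lt_of_le hv with h | h
  · subst h
    simp
  · set A := ∫ u in (1 : ℝ)..v, g u with hA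
    set m := A / (v - 1) with hm
    have hv0 : 0 < v - 1 := by linarith
    have h0 : 0 ≤ ∫ u in (1 : ℝ)..v, (g u - m) ^ 2 :=
      intervalIntegral.integral_nonneg hv (fun u _ => sq_nonneg _)
    have h1 : ∫ u in (1 : ℝ)..v, (g u - m) ^ 2 =
        (∫ u in (1 : ℝ)..v, g u ^ 2) - 2 * m * A + m ^ 2 * (v - 1) := by
      have e : ∀ u, (g u - m) ^ 2 = g u ^ 2 - (2 * m) * g u + m ^ 2 := fun u => by ring
      simp only [e]
      rw [intervalIntegral.integral_add (hg2.sub (hg.const_mul _)) (by simp),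
        intervalIntegral.integral_sub hg2 (hg.const_mul _),
        intervalIntegral.integral_const_mul, intervalIntegral.integral_const]
      simp only [smul_eq_mul]
      ring
    rw [h1] at h0
    have h2 : A = m * (v - 1) := by
      rw [hm]
      field_simp
    have h3 : (v - 1) * (m ^ 2 * (v - 1)) = A ^ 2 := by
      rw [h2]
      ring
    have h4 : (v - 1) * (2 * m * A) = 2 * A ^ 2 := by
      nth_rewrite 2 [h2]
      nlinarith [h2]
    nlinarith [mul_nonneg hv0.le h0]

/-- the sum in a window -/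
noncomputable def FF (a : ℕ → ℝ) (N : ℕ) (w x : ℝ) : ℝ :=
  ∑ n ∈ (Finset.Icc 1 N).filter (fun n : ℕ => x < n ∧ (n : ℝ) ≤ x * w), a n

/-- the coefficients -/
noncomputable def aN (K : ℕ) (c p q : ℝ) (n : ℕ) : ℝ :=
  be K c p q (Real.log n) * lm n

theorem aN_zero_right {K : ℕ} {c p q : ℝ} (hc : 0 < c) (hpq : p ≤ q) {n : ℕ}
    (hn : ⌊Real.exp (q + K * c)⌋₊ < n) : aN K c p q n = 0 := by
  have h1 : Real.exp (q + K * c) < n := Nat.lt_of_floor_lt hn
  have h2 : q + K * c < Real.log n := by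
    rw [Real.lt_log_iff_exp_lt (lt_trans (Real.exp_pos _) h1)]
    exact h1
  unfold aN
  rw [be_zero_right hc hpq h2, zero_mul]

theorem aN_zero_left {K : ℕ} {c p q : ℝ} (hc : 0 < c) (hpq : p ≤ q) {n : ℕ}
    (hn : (n : ℝ) ≤ Real.exp p) : aN K c p q n = 0 := by
  rcases Nat.eq_zero_or_pos n with h | h
  · subst h
    simp [aN, lm]
  · have h2 : Real.log n ≤ p := by
      rw [Real.log_le_iff_le_exp (by exact_mod_cast h)]
      exact hn
    unfold aN
    rw [be_zero_left hc hpq h2, zero_mul]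

theorem FF_eq {K : ℕ} {c p q w x : ℝ} (hc : 0 < c) (hpq : p ≤ q) (hx : 0 < x) (hw : 1 ≤ w) :
    FF (aN K c p q) ⌊Real.exp (q + K * c)⌋₊ w x = ∑ n ∈ Finset.Ioc ⌊x⌋₊ ⌊x * w⌋₊, aN K c p q n := by
  unfold FF
  apply Finset.sum_subset
  · intro n hn
    simp only [Finset.mem_filter, Finset.mem_Icc, Finset.mem_Ioc] at hn ⊢
    exact ⟨(Nat.floor_lt hx.le).2 hn.2.1, Nat.le_floor hn.2.2⟩
  · intro n hn hn'
    simp only [Finset.mem_filter, Finset.mem_Icc, Finset.mem_Ioc, not_and] at hn hn'
    apply aN_zero_right hc hpq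
    by_contra h
    push Not at h
    exact hn' ⟨by omega, h⟩ ((Nat.floor_lt hx.le).1 hn.1)
      ((Nat.le_floor_iff (by positivity)).1 hn.2)

/-- square of the difference -/
noncomputable def DD (v x : ℝ) : ℝ := (AA (v * x) - AA x) ^ 2

theorem DD_meas : Measurable (fun z : ℝ × ℝ => DD z.1 z.2) := by
  unfold DD
  exact ((Mer_meas.comp (measurable_fst.mul measurable_snd)).sub
    (Mer_meas.comp measurable_snd)).pow_const 2

theorem DD_meas_left (x : ℝ) : Measurable (fun v : ℝ => DD v x) := by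
  unfold DD
  exact ((Mer_meas.comp (measurable_id.mul_const x)).sub_const _).pow_const 2

theorem DD_meas_right (v : ℝ) : Measurable (fun x : ℝ => DD v x) := by
  unfold DD
  exact ((Mer_meas.comp (measurable_id.const_mul v)).sub Mer_meas).pow_const 2

theorem DD_meas_swap : Measurable (fun z : ℝ × ℝ => DD z.2 z.1) := by
  unfold DD
  exact ((Mer_meas.comp (measurable_snd.mul measurable_fst)).sub
    (Mer_meas.comp measurable_fst)).pow_const 2

theorem DD_nonneg (v x : ℝ) : 0 ≤ DD v x := sq_nonneg _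

theorem diff_abs {v x : ℝ} (hv : 0 ≤ v) (hx : 0 ≤ x) : |AA (v * x) - AA x| ≤ (v + 1) * x := by
  have h1 := Mer_abs (mul_nonneg hv hx)
  have h2 := Mer_abs hx
  calc |AA (v * x) - AA x| ≤ |AA (v * x)| + |AA x| := abs_sub _ _
    _ ≤ v * x + x := add_le_add h1 h2
    _ = (v + 1) * x := by ring

theorem DD_le {v x : ℝ} (hv : 0 ≤ v) (hx : 0 ≤ x) : DD v x ≤ ((v + 1) * x) ^ 2 := by
  unfold DD
  rw [← sq_abs]
  exact pow_le_pow_left₀ (abs_nonneg _) (diff_abs hv hx) 2

theorem diff_ii {x w : ℝ} (hx : 0 < x) (hw : 1 ≤ w) :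
    IntervalIntegrable (fun v => |AA (v * x) - AA x|) volume 1 w := by
  rw [intervalIntegrable_iff_integrableOn_Ioc_of_le hw]
  refine Integrable.mono' (g := fun _ => (w + 1) * x) (integrable_const _) ?_ ?_
  · apply Measurable.aestronglyMeasurable
    exact ((Mer_meas.comp (measurable_id.mul_const x)).sub_const _).abs
  · filter_upwards [ae_restrict_mem measurableSet_Ioc] with v hv
    rw [Real.norm_eq_abs, abs_abs]
    refine (diff_abs (by linarith [hv.1]) hx.le).trans ?_
    apply mul_le_mul_of_nonneg_right _ hx.le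
    linarith [hv.2]

theorem DD_ii {x w : ℝ} (hx : 0 < x) (hw : 1 ≤ w) :
    IntervalIntegrable (fun v => DD v x) volume 1 w := by
  rw [intervalIntegrable_iff_integrableOn_Ioc_of_le hw]
  refine Integrable.mono' (g := fun _ => ((w + 1) * x) ^ 2) (integrable_const _) ?_ ?_
  · exact (DD_meas_left x).aestronglyMeasurable
  · filter_upwards [ae_restrict_mem measurableSet_Ioc] with v hv
    rw [Real.norm_eq_abs, abs_of_nonneg (DD_nonneg _ _)]
    refine (DD_le (by linarith [hv.1]) hx.le).trans ?_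
    have : (0:ℝ) ≤ (v + 1) * x := by
      have := hv.1
      positivity
    apply pow_le_pow_left₀ this
    apply mul_le_mul_of_nonneg_right _ hx.le
    linarith [hv.2]

theorem FF_abs (k : ℕ) {c p q w x : ℝ} (hc : 0 < c) (hpq : p ≤ q) (hx : 0 < x) (hw : 1 ≤ w) :
    |FF (aN (k + 2) c p q) ⌊Real.exp (q + (k + 2 : ℕ) * c)⌋₊ w x| ≤
      |AA (w * x) - AA x| + (1 / c) * ∫ v in (1 : ℝ)..w, |AA (v * x) - AA x| := by
  have hxw : x ≤ x * w := le_mul_of_one_le_right hx.le hw
  rw [FF_eq hc hpq hx hw]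
  have := abel k p q hc hx hxw
  unfold aN
  rw [this]
  refine (abs_sub _ _).trans ?_
  apply add_le_add
  · rw [abs_mul, mul_comm w x]
    exact mul_le_of_le_one_left (abs_nonneg _) (be_abs hc)
  · have h1 : |∫ t in x..x * w, be' k c p q (Real.log t) / t * (AA t - AA x)| ≤
        ∫ t in x..x * w, (1 / (c * x)) * |AA t - AA x| := by
      rw [← Real.norm_eq_abs]
      apply intervalIntegral.norm_integral_le_of_norm_le hxw
      · apply Filter.Eventually.of_forall
        intro t ht
        rw [Real.norm_eq_abs, abs_mul]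
        apply mul_le_mul_of_nonneg_right _ (abs_nonneg _)
        rw [abs_div, abs_of_pos (hx.trans ht.1), ← div_div]
        exact div_le_div₀ (by positivity) (be'_abs k p q _ hc) hx ht.1.le
      · apply IntervalIntegrable.const_mul
        have h2 := diff_ii hx hw
        have h3 := (h2.comp_mul_right (c := x⁻¹))
        simp only [inv_mul_cancel_right₀ hx.ne'] at h3
        rw [one_div, inv_inv, div_eq_mul_inv, inv_inv, mul_comm w x] at h3
        exact h3
    refine h1.trans (le_of_eq ?_)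
    rw [intervalIntegral.integral_const_mul]
    have h4 := intervalIntegral.integral_comp_mul_right (a := 1) (b := w)
      (fun t => |AA t - AA x|) hx.ne'
    rw [h4, one_mul, smul_eq_mul, mul_comm w x]
    field_simp

theorem FF_sq (k : ℕ) {c p q w x : ℝ} (hc : 1 ≤ c) (hpq : p ≤ q) (hx : 0 < x) (hw : 1 ≤ w)
    (hw2 : w ≤ 2) :
    FF (aN (k + 2) c p q) ⌊Real.exp (q + (k + 2 : ℕ) * c)⌋₊ w x ^ 2 ≤
      2 * DD w x + 2 * ∫ v in (1 : ℝ)..w, DD v x := by
  have hc0 : 0 < c := by linarith
  have h1 := FF_abs k hc0 hpq hx hw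
  set I := ∫ v in (1 : ℝ)..w, |AA (v * x) - AA x| with hI
  have hI0 : 0 ≤ I := intervalIntegral.integral_nonneg hw (fun u _ => abs_nonneg _)
  have hcI : (1 / c) * I ≤ I := by
    apply mul_le_of_le_one_left hI0
    rw [div_le_one hc0]
    exact hc
  have h2 : |FF (aN (k + 2) c p q) ⌊Real.exp (q + (k + 2 : ℕ) * c)⌋₊ w x| ≤
      |AA (w * x) - AA x| + I := h1.trans (by linarith)
  have h3 : I ^ 2 ≤ (w - 1) * ∫ v in (1 : ℝ)..w, |AA (v * x) - AA x| ^ 2 := by
    apply cs_interval hw (diff_ii hx hw)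
    have := DD_ii hx hw
    unfold DD at this
    simpa [sq_abs] using this
  have h4 : ∫ v in (1 : ℝ)..w, |AA (v * x) - AA x| ^ 2 = ∫ v in (1 : ℝ)..w, DD v x := by
    simp only [sq_abs]
    rfl
  rw [h4] at h3
  have h5 : 0 ≤ ∫ v in (1 : ℝ)..w, DD v x :=
    intervalIntegral.integral_nonneg hw (fun u _ => DD_nonneg _ _)
  have h6 : I ^ 2 ≤ ∫ v in (1 : ℝ)..w, DD v x := h3.trans (mul_le_of_le_one_left h5 (by linarith))
  have h7 : FF (aN (k + 2) c p q) ⌊Real.exp (q + (k + 2 : ℕ) * c)⌋₊ w x ^ 2 ≤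
      (|AA (w * x) - AA x| + I) ^ 2 := by
    rw [← sq_abs]
    exact pow_le_pow_left₀ (abs_nonneg _) h2 2
  have h8 : DD w x = |AA (w * x) - AA x| ^ 2 := by
    rw [sq_abs]
    rfl
  rw [h8]
  nlinarith [sq_nonneg (|AA (w * x) - AA x| - I)]

theorem DD_prod_int {X w : ℝ} (hX : 0 < X) :
    Integrable (Function.uncurry (fun x v => DD v x))
      ((volume.restrict (Set.Ioc X (2 * X))).prod (volume.restrict (Set.Ioc 1 w))) := by
  refine Integrable.mono' (g := fun _ => ((w + 1) * (2 * X)) ^ 2) (integrable_const _) ?_ ?_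
  · exact DD_meas_swap.aestronglyMeasurable
  · rw [Measure.prod_restrict]
    filter_upwards [ae_restrict_mem (measurableSet_Ioc.prod measurableSet_Ioc)] with z hz
    obtain ⟨x, v⟩ := z
    simp only [Set.mem_prod, Set.mem_Ioc] at hz
    simp only [Function.uncurry]
    rw [Real.norm_eq_abs, abs_of_nonneg (DD_nonneg _ _)]
    have hx : 0 < x := hX.trans hz.1.1
    have hv : 0 < v := by linarith [hz.2.1]
    refine (DD_le hv.le hx.le).trans ?_
    apply pow_le_pow_left₀ (by positivity)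
    apply mul_le_mul _ hz.1.2 hx.le (by linarith)
    linarith [hz.2.2]

theorem FF_meas (a : ℕ → ℝ) (N : ℕ) (w : ℝ) : Measurable (FF a N w) := by
  unfold FF
  simp only [Finset.sum_filter]
  apply Finset.measurable_sum
  intro n _
  apply Measurable.ite
  · exact (measurableSet_lt measurable_id measurable_const).inter
      (measurableSet_le measurable_const (measurable_id.mul_const w))
  · exact measurable_const
  · exact measurable_const

theorem FF_bdd (a : ℕ → ℝ) (N : ℕ) (w x : ℝ) : |FF a N w x| ≤ ∑ n ∈ Finset.Icc 1 N, |a n| := by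
  unfold FF
  refine (Finset.abs_sum_le_sum_abs _ _).trans ?_
  exact Finset.sum_le_sum_of_subset_of_nonneg (Finset.filter_subset _ _)
    (fun _ _ _ => abs_nonneg _)

theorem FF_ii (a : ℕ → ℝ) (N : ℕ) (w : ℝ) (y z : ℝ) :
    IntervalIntegrable (fun x => FF a N w x ^ 2) volume y z := by
  apply IntervalIntegrable.mono_fun' (g := fun _ => (∑ n ∈ Finset.Icc 1 N, |a n|) ^ 2) (by simp)
  · exact ((FF_meas a N w).pow_const 2).aestronglyMeasurable
  · apply Filter.Eventually.of_forall
    intro x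
    simp only [Real.norm_eq_abs, abs_pow]
    exact pow_le_pow_left₀ (abs_nonneg _) (FF_bdd a N w x) 2

theorem FF_int (k : ℕ) {c p q w X B : ℝ} (hc : 1 ≤ c) (hpq : p ≤ q) (hX : 0 < X) (hw : 1 ≤ w)
    (hw2 : w ≤ 2) (hB : ∀ v, 1 ≤ v → v ≤ w → ∫ x in X..2 * X, DD v x ≤ B) :
    ∫ x in X..2 * X, FF (aN (k + 2) c p q) ⌊Real.exp (q + (k + 2 : ℕ) * c)⌋₊ w x ^ 2 ≤ 4 * B := by
  have hX2 : X ≤ 2 * X := by linarith
  have hprod := DD_prod_int (w := w) hX
  have i1 : IntervalIntegrable (fun x => DD w x) volume X (2 * X) := by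
    rw [intervalIntegrable_iff_integrableOn_Ioc_of_le hX2]
    refine Integrable.mono' (g := fun _ => ((w + 1) * (2 * X)) ^ 2) (integrable_const _) ?_ ?_
    · exact (DD_meas_right w).aestronglyMeasurable
    · filter_upwards [ae_restrict_mem measurableSet_Ioc] with x hx
      have hx0 : 0 < x := hX.trans hx.1
      rw [Real.norm_eq_abs, abs_of_nonneg (DD_nonneg _ _)]
      refine (DD_le (by linarith) hx0.le).trans ?_
      apply pow_le_pow_left₀ (by positivity)
      exact mul_le_mul_of_nonneg_left hx.2 (by linarith)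
  have i2 : IntervalIntegrable (fun x => ∫ v in (1 : ℝ)..w, DD v x) volume X (2 * X) := by
    rw [intervalIntegrable_iff_integrableOn_Ioc_of_le hX2]
    have := hprod.integral_prod_left
    simpa [intervalIntegral.integral_of_le hw, Function.uncurry, IntegrableOn] using this
  calc ∫ x in X..2 * X, FF (aN (k + 2) c p q) ⌊Real.exp (q + (k + 2 : ℕ) * c)⌋₊ w x ^ 2
      ≤ ∫ x in X..2 * X, (2 * DD w x + 2 * ∫ v in (1 : ℝ)..w, DD v x) := by
        apply intervalIntegral.integral_mono_on hX2 (FF_ii _ _ _ _ _)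
          ((i1.const_mul 2).add (i2.const_mul 2))
        intro x hx
        exact FF_sq k hc hpq (lt_of_lt_of_le hX hx.1) hw hw2
    _ = 2 * (∫ x in X..2 * X, DD w x) + 2 * ∫ x in X..2 * X, ∫ v in (1 : ℝ)..w, DD v x := by
        rw [intervalIntegral.integral_add (i1.const_mul 2) (i2.const_mul 2),
          intervalIntegral.integral_const_mul, intervalIntegral.integral_const_mul]
    _ = 2 * (∫ x in X..2 * X, DD w x) + 2 * ∫ v in (1 : ℝ)..w, ∫ x in X..2 * X, DD v x := by
        congr 2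
        simp only [intervalIntegral.integral_of_le hw, intervalIntegral.integral_of_le hX2]
        exact integral_integral_swap hprod
    _ ≤ 2 * B + 2 * B := by
        have hb1 := hB w hw le_rfl
        have hb2 : ∫ v in (1 : ℝ)..w, ∫ x in X..2 * X, DD v x ≤ ∫ v in (1 : ℝ)..w, B := by
          apply intervalIntegral.integral_mono_on hw
          · rw [intervalIntegrable_iff_integrableOn_Ioc_of_le hw]
            have := hprod.integral_prod_right
            simpa [intervalIntegral.integral_of_le hX2, Function.uncurry, IntegrableOn] using this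
          · simp
          · intro v hv
            exact hB v hv.1 hv.2
        have hB0 : 0 ≤ B := le_trans (intervalIntegral.integral_nonneg hX2
          (fun u _ => DD_nonneg _ _)) hb1
        rw [intervalIntegral.integral_const, smul_eq_mul] at hb2
        nlinarith
    _ = 4 * B := by ring

theorem FF_left {K : ℕ} {c p q w x : ℝ} (hc : 0 < c) (hpq : p ≤ q)
    (hxw : x * w ≤ Real.exp p) (N : ℕ) :
    FF (aN K c p q) N w x = 0 := by
  unfold FF
  apply Finset.sum_eq_zero
  intro n hn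
  simp only [Finset.mem_filter] at hn
  exact aN_zero_left hc hpq (hn.2.2.trans hxw)

theorem FF_right {a : ℕ → ℝ} {w x z : ℝ} (hz : 0 ≤ z) (hx : z ≤ x) :
    FF a ⌊z⌋₊ w x = 0 := by
  unfold FF
  apply Finset.sum_eq_zero
  intro n hn
  simp only [Finset.mem_filter, Finset.mem_Icc] at hn
  have h1 : (n : ℝ) ≤ z := (Nat.le_floor_iff hz).1 hn.1.2
  linarith [hn.2.1]

theorem dyadic {f : ℝ → ℝ} (hf0 : ∀ x, 0 ≤ f x) (hfi : ∀ y z, IntervalIntegrable f volume y z)
    {Y : ℝ} (hY : 0 < Y) (J : ℕ) {s : ℝ} (hs : 0 ≤ s) (hleft : ∀ x, 0 < x → x ≤ Y → f x = 0)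
    (hright : ∀ x, 2 ^ J * Y < x → f x = 0) {M : ℝ}
    (hM : ∀ j : ℕ, j < J → (2 ^ j * Y) ^ (-s) * ∫ x in (2 ^ j * Y)..2 * (2 ^ j * Y), f x ≤ M) :
    ∫ x in Set.Ioi (0 : ℝ), f x * x ^ (-s) ≤ J * M := by
  have hJY : Y ≤ 2 ^ J * Y := by
    apply le_mul_of_one_le_left hY.le
    exact one_le_pow₀ (by norm_num)
  have h1 : ∫ x in Set.Ioi (0 : ℝ), f x * x ^ (-s) =
      ∫ x in Set.Ioc Y (2 ^ J * Y), f x * x ^ (-s) := by
    apply setIntegral_eq_of_subset_of_forall_sdiff_eq_zero measurableSet_Ioi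
    · intro x hx
      exact hY.trans hx.1
    · intro x hx
      have hx1 : 0 < x := hx.1
      have hx2 : ¬ (Y < x ∧ x ≤ 2 ^ J * Y) := hx.2
      rcases le_or_gt x Y with h | h
      · rw [hleft x hx1 h, zero_mul]
      · rw [hright x (by
          by_contra h'
          exact hx2 ⟨h, not_lt.1 h'⟩), zero_mul]
  rw [h1, ← intervalIntegral.integral_of_le hJY]
  have hcont : ∀ j : ℕ, ContinuousOn (fun x : ℝ => x ^ (-s))
      (Set.uIcc (2 ^ j * Y) (2 ^ (j + 1) * Y)) := by
    intro j
    apply ContinuousOn.rpow_const continuousOn_id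
    intro x hx
    left
    have h2 : 2 ^ j * Y ≤ 2 ^ (j + 1) * Y := by
      apply mul_le_mul_of_nonneg_right _ hY.le
      exact pow_le_pow_right₀ (by norm_num) (by omega)
    rw [Set.uIcc_of_le h2] at hx
    have : 0 < 2 ^ j * Y := by positivity
    exact (lt_of_lt_of_le this hx.1).ne'
  have hii : ∀ j : ℕ, IntervalIntegrable (fun x => f x * x ^ (-s)) volume (2 ^ j * Y)
      (2 ^ (j + 1) * Y) := fun j => (hfi _ _).mul_continuousOn (hcont j)
  have h3 := intervalIntegral.sum_integral_adjacent_intervals (n := J)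
    (a := fun j : ℕ => (2 : ℝ) ^ j * Y) (μ := volume) (f := fun x => f x * x ^ (-s))
    (fun j _ => hii j)
  simp only [pow_zero, one_mul] at h3
  rw [← h3]
  calc ∑ j ∈ Finset.range J, ∫ x in (2 ^ j * Y)..(2 ^ (j + 1) * Y), f x * x ^ (-s)
      ≤ ∑ j ∈ Finset.range J, M := by
        apply Finset.sum_le_sum
        intro j hj
        refine le_trans ?_ (hM j (Finset.mem_range.1 hj))
        have hpos : 0 < 2 ^ j * Y := by positivity
        have h2 : 2 ^ j * Y ≤ 2 ^ (j + 1) * Y := by
          apply mul_le_mul_of_nonneg_right _ hY.le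
          exact pow_le_pow_right₀ (by norm_num) (by omega)
        have h4 : 2 * (2 ^ j * Y) = 2 ^ (j + 1) * Y := by ring
        rw [h4, ← intervalIntegral.integral_const_mul]
        apply intervalIntegral.integral_mono_on h2 (hii j) ((hfi _ _).const_mul _)
        intro x hx
        rw [mul_comm]
        apply mul_le_mul_of_nonneg_right _ (hf0 x)
        exact Real.rpow_le_rpow_of_nonpos hpos hx.1 (by linarith)
    _ = J * M := by simp

end VA

theorem Ab_bound (a b A η : ℝ) (ha : 1 < a) (hab : a < b) (hA : 0 ≤ A) (hη : 0 < η) (k : ℕ) (hk : 2 ≤ k) :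
    ∃ C T₀ : ℝ, 0 < C ∧ ∀ T δ : ℝ, T₀ ≤ T → 0 ≤ δ →
    (∀ X H : ℝ, T ^ a / 4 ≤ X → X ≤ 16 * T ^ (b + η) → X / (16 * T) ≤ H → H ≤ 4 * X / T →
      VG X H ≤ δ * H) →
    ∀ σ : ℝ, sm A T ≤ σ → σ ≤ 1 →
    ∫ t in (-(5 * T))..(5 * T),
      ‖∑ n ∈ Finset.Icc 1 ⌊Real.exp (b * Real.log T + k * (η * Real.log T / k))⌋₊,
        ((VA.aN k (η * Real.log T / k) (a * Real.log T) (b * Real.log T) n : ℝ) : ℂ) *
          (n : ℂ) ^ (-((σ : ℂ) + (t : ℂ) * I))‖ ^ 2 ≤
      C * δ * T * Real.log T := by
  obtain ⟨CP, hCP, planch⟩ := Pool.Agent.H448R2.GC.planch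
  obtain ⟨CS, hCS, sv⟩ := Pool.Agent.Y857.VP.sv
  have hlog2 : 0 < Real.log 2 := Real.log_pos (by norm_num)
  have hk0 : (0 : ℝ) < k := by
    have : (2 : ℝ) ≤ k := by exact_mod_cast hk
    linarith
  set CJ : ℝ := (b + η - a) / Real.log 2 + 2 with hCJ
  have hbea : 0 < b + η - a := by linarith
  have hCJ0 : 0 < CJ := by positivity
  refine ⟨4 * CP * CJ * CS * Real.exp (2 * A * (b + η)),
    Real.exp (2 + k / η + 2 * A + Real.log 32 / (a - 1)), by positivity, ?_⟩
  intro T δ hT hδ hV σ hσ hσ1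
  have hT0 : 0 < T := lt_of_lt_of_le (Real.exp_pos _) hT
  set L := Real.log T with hL
  have hL0 : 2 + k / η + 2 * A + Real.log 32 / (a - 1) ≤ L := by
    rw [hL, Real.le_log_iff_exp_le hT0]
    exact hT
  have ha1 : 0 < a - 1 := by linarith
  have h32 : 0 < Real.log 32 := Real.log_pos (by norm_num)
  have e1 : 0 ≤ (k : ℝ) / η := by positivity
  have e2 : 0 ≤ Real.log 32 / (a - 1) := by positivity
  have hL2 : 2 ≤ L := by linarith
  have hLk : k / η ≤ L := by linarith
  have hLA : 2 * A < L := by linarith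
  have hL32 : Real.log 32 / (a - 1) ≤ L := by linarith
  have hLpos : 0 < L := by linarith
  have hT1 : 1 ≤ T := by
    rw [← Real.exp_log hT0, ← hL]
    exact Real.one_le_exp (by linarith)
  set c := η * L / k with hc
  have hc1 : 1 ≤ c := by
    rw [hc, le_div_iff₀ hk0, one_mul]
    rw [div_le_iff₀ hη] at hLk
    linarith
  have hc0 : 0 < c := by linarith
  have hpq : a * L ≤ b * L := mul_le_mul_of_nonneg_right hab.le hLpos.le
  have hσ0 : 0 < σ := by
    refine lt_of_lt_of_le ?_ hσ
    unfold sm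
    rw [← hL, sub_pos, div_lt_iff₀ hLpos]
    linarith
  set w := Real.exp (1 / (8 * T)) with hw
  have hw1 : 1 ≤ w := Real.one_le_exp (by positivity)
  have hw2 : w ≤ 2 := by
    rw [hw, ← Real.le_log_iff_exp_le (by norm_num)]
    have : 1 / (8 * T) ≤ 1 / 8 := by
      apply one_div_le_one_div_of_le (by norm_num)
      linarith
    have := Real.log_two_gt_d9
    linarith
  have hkc : (k : ℝ) * c = η * L := by
    rw [hc]
    field_simp
  have hexp : ∀ u : ℝ, T ^ u = Real.exp (u * L) := by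
    intro u
    rw [Real.rpow_def_of_pos hT0, mul_comm]
  have hN : Real.exp (b * L + k * c) = T ^ (b + η) := by
    rw [hkc, hexp]
    ring_nf
  -- Plancherel
  have hpl := planch ⌊Real.exp (b * L + k * c)⌋₊ (VA.aN k c (a * L) (b * L)) σ T hσ0 hσ1 hT1
  refine hpl.trans ?_
  -- the window sums
  set f : ℝ → ℝ := fun x => VA.FF (VA.aN k c (a * L) (b * L)) ⌊Real.exp (b * L + k * c)⌋₊ w x ^ 2
    with hf
  set Y : ℝ := T ^ a / 2 with hY
  have hY0 : 0 < Y := by positivity
  set E : ℝ := (b + η - a) * L / Real.log 2 with hE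
  have hE0 : 0 ≤ E := by positivity
  set J : ℕ := ⌈E⌉₊ + 1 with hJ
  have h2E : (2 : ℝ) ^ E = T ^ (b + η - a) := by
    rw [hexp, Real.rpow_def_of_pos (by norm_num), hE]
    congr 1
    field_simp
  have hTsplit : T ^ (b + η - a) * T ^ a = T ^ (b + η) := by
    rw [← Real.rpow_add hT0]
    congr 1
    ring
  have hJlow : T ^ (b + η) ≤ 2 ^ J * Y := by
    have h1 : (2 : ℝ) ^ E ≤ 2 ^ (⌈E⌉₊ : ℕ) := by
      rw [← Real.rpow_natCast]
      exact Real.rpow_le_rpow_of_exponent_le (by norm_num) (Nat.le_ceil E)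
    rw [h2E] at h1
    rw [← hTsplit, hJ, hY, pow_succ]
    have h3 : T ^ (b + η - a) * T ^ a ≤ 2 ^ (⌈E⌉₊ : ℕ) * T ^ a :=
      mul_le_mul_of_nonneg_right h1 (by positivity)
    linarith
  have hjup : ∀ j : ℕ, j < J → 2 ^ j * Y ≤ T ^ (b + η) := by
    intro j hj
    have h0 : j ≤ ⌈E⌉₊ := by omega
    have h1 : (2 : ℝ) ^ j ≤ 2 * 2 ^ E := by
      calc (2 : ℝ) ^ j ≤ 2 ^ (⌈E⌉₊ : ℕ) := pow_le_pow_right₀ (by norm_num) h0
        _ = 2 ^ ((⌈E⌉₊ : ℕ) : ℝ) := by rw [Real.rpow_natCast]
        _ ≤ 2 ^ (E + 1) :=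
          Real.rpow_le_rpow_of_exponent_le (by norm_num) (Nat.ceil_lt_add_one hE0).le
        _ = 2 * 2 ^ E := by
          rw [Real.rpow_add (by norm_num), Real.rpow_one]
          ring
    rw [h2E] at h1
    rw [← hTsplit, hY]
    have h3 : 2 ^ j * T ^ a ≤ 2 * T ^ (b + η - a) * T ^ a :=
      mul_le_mul_of_nonneg_right h1 (by positivity)
    linarith
  have hdy : ∫ x in Set.Ioi (0 : ℝ), f x * x ^ (-(2 * σ + 1)) ≤
      J * (4 * CS * δ / T * Real.exp (2 * A * (b + η))) := by
    apply VA.dyadic (fun x => sq_nonneg _) (fun y z => VA.FF_ii _ _ _ _ _) hY0 J (by linarith)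
    · intro x hx hxY
      change VA.FF _ _ _ _ ^ 2 = 0
      rw [VA.FF_left hc0 hpq, zero_pow (by norm_num)]
      calc x * w ≤ Y * 2 := mul_le_mul hxY hw2 (by linarith) hY0.le
        _ = T ^ a := by rw [hY]; ring
        _ = Real.exp (a * L) := hexp a
    · intro x hx
      change VA.FF _ _ _ _ ^ 2 = 0
      rw [VA.FF_right (Real.exp_pos _).le, zero_pow (by norm_num)]
      rw [hN]
      linarith
    · intro j hj
      set X : ℝ := 2 ^ j * Y with hX
      have hX0 : 0 < X := by positivity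
      have hXY : Y ≤ X := by
        rw [hX]
        apply le_mul_of_one_le_left hY0.le
        exact one_le_pow₀ (by norm_num)
      have hXup : X ≤ T ^ (b + η) := hjup j hj
      have hTa : 32 * T ≤ T ^ a := by
        have h1 : 32 ≤ T ^ (a - 1) := by
          rw [hexp, ← Real.log_le_iff_le_exp (by norm_num)]
          rw [div_le_iff₀ ha1] at hL32
          linarith
        have h2 : T ^ a = T ^ (a - 1) * T := by
          rw [← Real.rpow_add_one hT0.ne']
          congr 1
          ring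
        rw [h2]
        exact mul_le_mul_of_nonneg_right h1 hT0.le
      have hX16 : 16 * T ≤ X := by
        refine le_trans ?_ hXY
        rw [hY]
        linarith
      have hsv := sv T X δ hT1 hX16 hδ (by
        intro X' H h1 h2 h3 h4
        apply hV X' H _ _ h3 h4
        · have : Y / 2 ≤ X' := by linarith
          rw [hY] at this
          linarith
        · have : 0 < T ^ (b + η) := by positivity
          linarith)
      have hint : ∫ x in X..2 * X, f x ≤ 4 * (CS * δ * X ^ 2 / T) := by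
        obtain ⟨k', rfl⟩ : ∃ k', k = k' + 2 := ⟨k - 2, by omega⟩
        apply VA.FF_int k' hc1 hpq hX0 hw1 hw2
        intro v hv1 hvw
        have := hsv 1 v le_rfl hv1 hvw
        simpa [VA.DD] using this
      have hX1 : 1 ≤ X := by linarith
      have hlogX0 : 0 ≤ Real.log X := Real.log_nonneg hX1
      have hlogX : Real.log X ≤ (b + η) * L := by
        rw [Real.log_le_iff_le_exp hX0, ← hexp]
        exact hXup
      have hsig : 1 - 2 * σ ≤ 2 * A / L := by
        unfold sm at hσ
        rw [← hL] at hσ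
        have : 2 * A / L = 2 * (A / L) := by ring
        linarith
      have hpow : X ^ (-(2 * σ + 1)) * X ^ 2 ≤ Real.exp (2 * A * (b + η)) := by
        have h1 : X ^ (-(2 * σ + 1)) * X ^ 2 = Real.exp (Real.log X * (1 - 2 * σ)) := by
          rw [← Real.rpow_two, ← Real.rpow_add hX0, Real.rpow_def_of_pos hX0]
          congr 1
          ring
        rw [h1]
        apply Real.exp_le_exp.2
        calc Real.log X * (1 - 2 * σ) ≤ Real.log X * (2 * A / L) :=
              mul_le_mul_of_nonneg_left hsig hlogX0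
          _ ≤ (b + η) * L * (2 * A / L) := mul_le_mul_of_nonneg_right hlogX (by positivity)
          _ = 2 * A * (b + η) := by
            field_simp
      calc X ^ (-(2 * σ + 1)) * ∫ x in X..2 * X, f x
          ≤ X ^ (-(2 * σ + 1)) * (4 * (CS * δ * X ^ 2 / T)) :=
            mul_le_mul_of_nonneg_left hint (by positivity)
        _ = 4 * CS * δ / T * (X ^ (-(2 * σ + 1)) * X ^ 2) := by ring
        _ ≤ 4 * CS * δ / T * Real.exp (2 * A * (b + η)) :=
            mul_le_mul_of_nonneg_left hpow (by positivity)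
  have hfin : ∫ x in Set.Ioi (0 : ℝ),
      (∑ n ∈ (Finset.Icc 1 ⌊Real.exp (b * L + k * c)⌋₊).filter
        (fun n : ℕ => x < n ∧ (n : ℝ) ≤ x * Real.exp (1 / (8 * T))),
        VA.aN k c (a * L) (b * L) n) ^ 2 * x ^ (-(2 * σ) - 1) =
      ∫ x in Set.Ioi (0 : ℝ), f x * x ^ (-(2 * σ + 1)) := by
    have e : -(2 * σ) - 1 = -(2 * σ + 1) := by ring
    rw [e]
    rfl
  rw [hfin]
  have hJup : (J : ℝ) ≤ CJ * L := by
    rw [hJ]
    push_cast
    have h1 := (Nat.ceil_lt_add_one hE0).le
    have h2 : CJ * L = E + 2 * L := by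
      rw [hCJ, hE]
      ring
    rw [h2]
    linarith
  calc CP * T ^ 2 * ∫ x in Set.Ioi (0 : ℝ), f x * x ^ (-(2 * σ + 1))
      ≤ CP * T ^ 2 * (J * (4 * CS * δ / T * Real.exp (2 * A * (b + η)))) :=
        mul_le_mul_of_nonneg_left hdy (by positivity)
    _ ≤ CP * T ^ 2 * (CJ * L * (4 * CS * δ / T * Real.exp (2 * A * (b + η)))) := by
        apply mul_le_mul_of_nonneg_left _ (by positivity)
        exact mul_le_mul_of_nonneg_right hJup (by positivity)
    _ = 4 * CP * CJ * CS * Real.exp (2 * A * (b + η)) * δ * T * L := by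
        field_simp

end Pool.Agent.Y857.VP
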