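import Pool.Agent.Y857.VP.VA
import Pool.Agent.Y857.VP.Rep1

/-! The window polynomial is small in mean square if the variance is small. -/

open Complex MeasureTheory Filter Topology
open Pool.Agent.H448R2.GC (cu cs ker sm)

namespace Pool.Agent.Y857.VP

theorem cs_ext (k : ℕ) (c D : ℝ) (hc : 0 < c) (N : ℕ) (hN : ⌊Real.exp (D + k * c)⌋₊ ≤ N) (w : ℂ) :
    cs k c D w = ∑ n ∈ Finset.Icc 1 N, (cu k c (Real.log n - D) : ℂ) * (n : ℂ) ^ (-w) := by
  unfold Pool.Agent.H448R2.GC.cs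
  refine Finset.sum_subset (Finset.Icc_subset_Icc le_rfl hN) ?_
  intro n hn hn'
  rw [Finset.mem_Icc] at hn hn'
  have h1 : ⌊Real.exp (D + k * c)⌋₊ < n := by
    by_contra h
    exact hn' ⟨hn.1, by omega⟩
  have h2 : Real.exp (D + k * c) < n := (Nat.floor_lt (Real.exp_pos _).le).mp h1
  have h3 : D + k * c < Real.log n := (Real.lt_log_iff_exp_lt (by
    have : (0 : ℝ) < Real.exp (D + k * c) := Real.exp_pos _
    linarith)).mpr h2
  rw [Pool.Agent.H448R2.GC.cu_zero k c _ hc (by linarith)]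
  simp

theorem PP_diff {k : ℕ} {c p q : ℝ} (hc : 0 < c) (hpq : p ≤ q) (s : ℂ) :
    PP k c q s - PP k c p s = 8 * (∑ n ∈ Finset.Icc 1 ⌊Real.exp (q + k * c)⌋₊,
      ((VA.aN k c p q n : ℝ) : ℂ) * (n : ℂ) ^ (-s)) + (cs k c q s - cs k c p s) := by
  have hle : ⌊Real.exp (p + k * c)⌋₊ ≤ ⌊Real.exp (q + k * c)⌋₊ :=
    Nat.floor_le_floor (Real.exp_le_exp.2 (by linarith))
  rw [PP_ext k c q hc _ le_rfl s, PP_ext k c p hc _ hle s, cs_ext k c q hc _ le_rfl s,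
    cs_ext k c p hc _ hle s, ← Finset.sum_sub_distrib, ← Finset.sum_sub_distrib, Finset.mul_sum,
    ← Finset.sum_add_distrib]
  refine Finset.sum_congr rfl fun n hn => ?_
  rw [Finset.mem_Icc] at hn
  have hn0 : n ≠ 0 := by omega
  unfold VA.aN VA.be lm
  rw [if_neg hn0]
  push_cast
  ring

theorem dir_cont (N : ℕ) (a : ℕ → ℂ) (σ : ℝ) : Continuous (fun t : ℝ =>
    ∑ n ∈ Finset.Icc 1 N, a n * (n : ℂ) ^ (-((σ : ℂ) + (t : ℂ) * I))) := by
  apply continuous_finsetSum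
  intro n hn
  have hn0 : (n : ℂ) ≠ 0 := by
    have : 1 ≤ n := (Finset.mem_Icc.1 hn).1
    exact_mod_cast (by omega : n ≠ 0)
  apply Continuous.mul continuous_const
  apply Continuous.const_cpow (by fun_prop) (Or.inl hn0)

theorem PP_cont (k : ℕ) (c D σ : ℝ) : Continuous (fun t : ℝ => PP k c D ((σ : ℂ) + (t : ℂ) * I)) :=
  dir_cont _ (fun n => ((ArithmeticFunction.vonMangoldt n : ℝ) : ℂ) *
    (cu k c (Real.log n - D) : ℂ)) σ

/-- the mean square of the window polynomial -/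
theorem win (a b η : ℝ) (ha : 1 + 2 * η ≤ a) (hab : a < b) (hη : 0 < η) :
    ∃ k₀ : ℕ, ∀ k : ℕ, k₀ ≤ k → ∃ C T₀ : ℝ, 0 < C ∧ ∀ T δ : ℝ, T₀ ≤ T → 0 ≤ δ →
    (∀ X H : ℝ, T ^ a / 4 ≤ X → X ≤ 16 * T ^ (b + η) → X / (16 * T) ≤ H → H ≤ 4 * X / T →
      VG X H ≤ δ * H) →
    ∫ t in (T / 8)..(5 * T),
      ‖PP k (η * Real.log T / k) (b * Real.log T) ((1 / 2 : ℝ) + (t : ℂ) * I) -
        PP k (η * Real.log T / k) (a * Real.log T) ((1 / 2 : ℝ) + (t : ℂ) * I)‖ ^ 2 ≤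
      C * δ * T * Real.log T + 1 := by
  obtain ⟨k1, hk1⟩ := Pool.Agent.H448R2.GC.cs_zeta η b 1 hη (by linarith)
  refine ⟨max k1 2, fun k hk => ?_⟩
  have hkk1 : k1 ≤ k := (le_max_left _ _).trans hk
  have hkk2 : 2 ≤ k := (le_max_right _ _).trans hk
  obtain ⟨C, T₁, hC, hAb⟩ := Ab_bound a b 0 η (by linarith) hab le_rfl hη k hkk2
  obtain ⟨T₂, hT₂⟩ := hk1 k hkk1
  refine ⟨128 * C, max (max T₁ T₂) 40, by positivity, fun T δ hT hδ hV => ?_⟩
  have hTT1 : T₁ ≤ T := (le_max_left _ _).trans ((le_max_left _ _).trans hT)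
  have hTT2 : T₂ ≤ T := (le_max_right _ _).trans ((le_max_left _ _).trans hT)
  have hT40 : 40 ≤ T := (le_max_right _ _).trans hT
  have hT0 : 0 < T := by linarith
  have hL0 : 0 < Real.log T := Real.log_pos (by linarith)
  have hk0 : (0 : ℝ) < k := by
    have : (2 : ℝ) ≤ k := by exact_mod_cast hkk2
    linarith
  have key := hAb T δ hTT1 hδ hV (1 / 2) (by unfold Pool.Agent.H448R2.GC.sm; simp) (by norm_num)
  have hcsz := hT₂ T hTT2
  set L := Real.log T with hL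
  set c := η * L / k with hc
  have hc0 : 0 < c := by positivity
  have hpq : a * L ≤ b * L := mul_le_mul_of_nonneg_right hab.le hL0.le
  set S : ℝ → ℂ := fun t => ∑ n ∈ Finset.Icc 1 ⌊Real.exp (b * L + k * c)⌋₊,
        ((VA.aN k c (a * L) (b * L) n : ℝ) : ℂ) * (n : ℂ) ^ (-(((1 / 2 : ℝ) : ℂ) + (t : ℂ) * I))
    with hS
  have hScont : Continuous S := dir_cont _ _ _
  have hle : T / 8 ≤ 5 * T := by linarith
  have hpt : ∀ t ∈ Set.Icc (T / 8) (5 * T),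
      ‖PP k c (b * L) ((1 / 2 : ℝ) + (t : ℂ) * I) - PP k c (a * L) ((1 / 2 : ℝ) + (t : ℂ) * I)‖ ^ 2 ≤
      128 * ‖S t‖ ^ 2 + 8 / T ^ 2 := by
    intro t ht
    rw [PP_diff hc0 hpq]
    have h1 := hcsz (b * L) (by nlinarith) le_rfl (((1 / 2 : ℝ) : ℂ) + (t : ℂ) * I) (by simp; norm_num)
      (by simp; norm_num) (by simpa using ht.1) (by simp; linarith [ht.2])
    have h2 := hcsz (a * L) (by nlinarith) (by nlinarith) (((1 / 2 : ℝ) : ℂ) + (t : ℂ) * I)
      (by simp; norm_num) (by simp; norm_num) (by simpa using ht.1) (by simp; linarith [ht.2])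
    have h3 : T ^ (-(1 : ℝ)) = 1 / T := by rw [Real.rpow_neg_one, one_div]
    rw [h3] at h1 h2
    have h4 : ‖cs k c (b * L) (((1 / 2 : ℝ) : ℂ) + (t : ℂ) * I) -
        cs k c (a * L) (((1 / 2 : ℝ) : ℂ) + (t : ℂ) * I)‖ ≤ 2 / T := by
      have e : cs k c (b * L) (((1 / 2 : ℝ) : ℂ) + (t : ℂ) * I) -
        cs k c (a * L) (((1 / 2 : ℝ) : ℂ) + (t : ℂ) * I) =
        (cs k c (b * L) (((1 / 2 : ℝ) : ℂ) + (t : ℂ) * I) - riemannZeta (((1 / 2 : ℝ) : ℂ) + (t : ℂ) * I)) -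
        (cs k c (a * L) (((1 / 2 : ℝ) : ℂ) + (t : ℂ) * I) -
          riemannZeta (((1 / 2 : ℝ) : ℂ) + (t : ℂ) * I)) := by ring
      rw [e]
      refine (norm_sub_le _ _).trans ?_
      calc _ ≤ 1 / T + 1 / T := add_le_add h1 h2
        _ = 2 / T := by ring
    have h5 : ‖8 * S t + (cs k c (b * L) (((1 / 2 : ℝ) : ℂ) + (t : ℂ) * I) -
        cs k c (a * L) (((1 / 2 : ℝ) : ℂ) + (t : ℂ) * I))‖ ≤ 8 * ‖S t‖ + 2 / T := by
      refine (norm_add_le _ _).trans (add_le_add ?_ h4)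
      rw [norm_mul]
      norm_num
    calc _ ≤ (8 * ‖S t‖ + 2 / T) ^ 2 := pow_le_pow_left₀ (norm_nonneg _) h5 2
      _ ≤ 128 * ‖S t‖ ^ 2 + 8 / T ^ 2 := by
        have h6 : (2 / T) ^ 2 = 4 / T ^ 2 := by rw [div_pow]; norm_num
        have h7 : 8 / T ^ 2 = 2 * (2 / T) ^ 2 := by rw [h6]; ring
        rw [h7]
        nlinarith [sq_nonneg (8 * ‖S t‖ - 2 / T)]
  have hWc : Continuous (fun t : ℝ => ‖PP k c (b * L) ((1 / 2 : ℝ) + (t : ℂ) * I) -
      PP k c (a * L) ((1 / 2 : ℝ) + (t : ℂ) * I)‖ ^ 2) :=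
    ((PP_cont k c (b * L) (1 / 2)).sub (PP_cont k c (a * L) (1 / 2))).norm.pow 2
  have hS2 : Continuous (fun t : ℝ => ‖S t‖ ^ 2) := hScont.norm.pow 2
  have hSint : ∀ u v : ℝ, IntervalIntegrable (fun t => ‖S t‖ ^ 2) volume u v :=
    fun u v => hS2.intervalIntegrable u v
  calc _ ≤ ∫ t in (T / 8)..(5 * T), (128 * ‖S t‖ ^ 2 + 8 / T ^ 2) := by
        apply intervalIntegral.integral_mono_on hle (hWc.intervalIntegrable _ _)
          (((hSint _ _).const_mul _).add (by simp)) hpt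
    _ = 128 * (∫ t in (T / 8)..(5 * T), ‖S t‖ ^ 2) + (5 * T - T / 8) * (8 / T ^ 2) := by
        rw [intervalIntegral.integral_add ((hSint _ _).const_mul _) (by simp),
          intervalIntegral.integral_const_mul, intervalIntegral.integral_const, smul_eq_mul]
    _ ≤ 128 * (∫ t in (-(5 * T))..(5 * T), ‖S t‖ ^ 2) + 1 := by
        have h1 : ∫ t in (T / 8)..(5 * T), ‖S t‖ ^ 2 ≤ ∫ t in (-(5 * T))..(5 * T), ‖S t‖ ^ 2 := by
          apply intervalIntegral.integral_mono_interval (by linarith) hle le_rfl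
            (Filter.Eventually.of_forall fun t => by positivity) (hSint _ _)
        have h2 : (5 * T - T / 8) * (8 / T ^ 2) ≤ 1 := by
          have : (5 * T - T / 8) * (8 / T ^ 2) = 39 / T := by
            field_simp
            ring
          rw [this, div_le_one hT0]
          linarith
        linarith
    _ ≤ 128 * (C * δ * T * L) + 1 := by
        have : ∫ t in (-(5 * T))..(5 * T), ‖S t‖ ^ 2 ≤ C * δ * T * L := key
        linarith
    _ = 128 * C * δ * T * L + 1 := by ring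

end Pool.Agent.Y857.VP
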